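import Pool.Agent.P.MP_1206ce_ag.HG.Defs
import Pool.Agent.P.MP_1206ce_ag.AH.Basic
import Pool.Agent.P.MP_1206ce_ag.BO.Amb

/-! Basic geometry of tripled quiver representations. -/

open scoped Topology
open Filter Set

noncomputable section

namespace Pool.Agent.HK

namespace HD

variable {β I Ar τ Λ Λ' : Type} [Fintype β] [DecidableEq β] [Fintype I] [DecidableEq I] [Fintype Ar]
  [DecidableEq Ar] [Fintype τ] [DecidableEq τ] [DecidableEq Λ] [DecidableEq Λ'] (D : HD β I Ar τ)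

set_option linter.unusedSectionVars false

/-- Keep only the entries at the positions in `J`. -/
def trunc (J : Finset (Gam Ar × β × β)) (x : UU β Ar) : UU β Ar :=
  fun γ => Matrix.of fun l k => if (γ, l, k) ∈ J then x γ l k else 0

theorem co_trunc (J : Finset (Gam Ar × β × β)) (x : UU β Ar) (p : Gam Ar × β × β) :
    co (trunc J x) p = if p ∈ J then co x p else 0 := rfl
theorem Basic_ext {x y : UU β Ar} (h : ∀ p, co x p = co y p) : x = y := by
  funext γ
  ext l k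
  exact h (γ, l, k)
theorem Basic_cont_co (p : Gam Ar × β × β) : Continuous fun x : UU β Ar => co x p :=
  (continuous_apply p.2.2).comp ((continuous_apply p.2.1).comp (continuous_apply p.1))
theorem Basic_cont_of {Z : Type} [TopologicalSpace Z] {F : Z → UU β Ar}
    (h : ∀ p, Continuous fun z => co (F z) p) : Continuous F :=
  continuous_pi fun γ => continuous_pi fun l => continuous_pi fun k => h (γ, l, k)
theorem continuous_trunc (J : Finset (Gam Ar × β × β)) :
    Continuous (trunc J : UU β Ar → UU β Ar) := by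
  refine Basic_cont_of fun p => ?_
  simp only [co_trunc]
  by_cases hp : p ∈ J
  · simp only [hp, if_true]
    exact Basic_cont_co p
  · simp only [hp, if_false]
    exact continuous_const
theorem Basic_mem_LinS {J : Finset (Gam Ar × β × β)} {x : UU β Ar} :
    x ∈ LinS co J ↔ trunc J x = x := by
  constructor
  · intro h
    refine Basic_ext fun p => ?_
    rw [co_trunc]
    by_cases hp : p ∈ J
    · rw [if_pos hp]
    · rw [if_neg hp, h p hp]
  · intro h p hp
    rw [← h, co_trunc, if_neg hp]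
theorem K_subset (sl : β → Λ) : D.K sl ⊆ D.K (one β) := KG_mono (D.refines_lab0 sl)
theorem K_mono {sl : β → Λ} {sl' : β → Λ'} (h : ∀ k l, sl' k = sl' l → sl k = sl l) :
    D.K sl' ⊆ D.K sl := KG_mono (D.refines_lab h)

section entries
variable {sl : β → Λ} {u u' : Matrix (β ⊕ τ) (β ⊕ τ) ℂ}

theorem Basic_lr (hu : u ∈ D.K sl) (k : β) (a : τ) : u (Sum.inl k) (Sum.inr a) = 0 :=
  hu.2 _ _ (by simp [lab])
theorem Basic_rl (hu : u ∈ D.K sl) (a : τ) (k : β) : u (Sum.inr a) (Sum.inl k) = 0 :=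
  hu.2 _ _ (by simp [lab])
theorem Basic_rr (hu : u ∈ D.K sl) {a b : τ} (h : a ≠ b) : u (Sum.inr a) (Sum.inr b) = 0 :=
  hu.2 _ _ (by simpa [lab] using h)
theorem Basic_rr_mul (hu : u ∈ D.K sl) (u' : Matrix (β ⊕ τ) (β ⊕ τ) ℂ) (a : τ) :
    (u * u') (Sum.inr a) (Sum.inr a) = u (Sum.inr a) (Sum.inr a) * u' (Sum.inr a) (Sum.inr a) := by
  rw [Matrix.mul_apply, Finset.sum_eq_single (Sum.inr a)]
  · rintro (k | b) - hb
    · rw [D.Basic_rl hu, zero_mul]
    · rw [D.Basic_rr hu (fun h => hb (by rw [h])), zero_mul]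
  · intro h
    exact absurd (Finset.mem_univ _) h
theorem Basic_norm_rr (hu : u ∈ D.K sl) (a : τ) : ‖u (Sum.inr a) (Sum.inr a)‖ = 1 := by
  have h1 := D.Basic_rr_mul hu (star u) a
  rw [(isGrp_KG _).mul_star hu, Matrix.one_apply_eq, Matrix.star_apply] at h1
  have h2 := congrArg norm h1
  rw [norm_one, norm_mul, norm_star] at h2
  rcases mul_self_eq_one_iff.1 h2.symm with h3 | h3
  · exact h3
  · have h4 := norm_nonneg (u (Sum.inr a) (Sum.inr a))
    linarith
theorem Basic_rr_ne (hu : u ∈ D.K sl) (a : τ) : u (Sum.inr a) (Sum.inr a) ≠ 0 := by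
  intro h
  have h1 := D.Basic_norm_rr hu a
  rw [h, norm_zero] at h1
  exact zero_ne_one h1
theorem Basic_chr (w : τ → ℤ) (u : Matrix (β ⊕ τ) (β ⊕ τ) ℂ) :
    chr (Sum.elim 0 w) u = ∏ a, u (Sum.inr a) (Sum.inr a) ^ w a := by
  simp [chr, Fintype.prod_sum_type]
theorem Basic_chr_mul (hu : u ∈ D.K sl) (u' : Matrix (β ⊕ τ) (β ⊕ τ) ℂ) (w : τ → ℤ) :
    chr (Sum.elim 0 w) (u * u') = chr (Sum.elim 0 w) u * chr (Sum.elim 0 w) u' := by
  simp only [Basic_chr, D.Basic_rr_mul hu, mul_zpow, Finset.prod_mul_distrib]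
theorem Basic_chr_add (hu : u ∈ D.K sl) (w w' : τ → ℤ) :
    chr (Sum.elim 0 (w + w')) u = chr (Sum.elim 0 w) u * chr (Sum.elim 0 w') u := by
  simp only [Basic_chr, Pi.add_apply, zpow_add₀ (D.Basic_rr_ne hu _), Finset.prod_mul_distrib]
theorem Basic_chr_single (a : τ) (u : Matrix (β ⊕ τ) (β ⊕ τ) ℂ) :
    chr (Sum.elim 0 (Pi.single a 1)) u = u (Sum.inr a) (Sum.inr a) := by
  rw [Basic_chr, Finset.prod_eq_single a]
  · simp
  · intro b _ hb
    simp [Pi.single_eq_of_ne hb]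
  · intro h
    exact absurd (Finset.mem_univ _) h
theorem Basic_chr_zero (u : Matrix (β ⊕ τ) (β ⊕ τ) ℂ) : chr (Sum.elim 0 (0 : τ → ℤ)) u = 1 := by
  rw [Basic_chr]
  simp

end entries

theorem gau_mul {u u' : Matrix (β ⊕ τ) (β ⊕ τ) ℂ} (hu : u ∈ D.K (one β)) :
    gau (u * u') = gau u * gau u' := by
  ext k l
  simp [gau, Matrix.mul_apply, Fintype.sum_sum_type, D.Basic_lr hu]
theorem gau_star (u : Matrix (β ⊕ τ) (β ⊕ τ) ℂ) : gau (star u) = star (gau u) := by
  ext k l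
  simp [gau, Matrix.star_apply]
theorem Basic_gau_one : gau (1 : Matrix (β ⊕ τ) (β ⊕ τ) ℂ) = 1 := by
  ext k l
  simp [gau, Matrix.one_apply]
theorem gau_unitary {u : Matrix (β ⊕ τ) (β ⊕ τ) ℂ} (hu : u ∈ D.K (one β)) :
    gau u ∈ Matrix.unitaryGroup β ℂ := by
  rw [Matrix.mem_unitaryGroup_iff, ← gau_star, ← D.gau_mul hu, (isGrp_KG _).mul_star hu,
    Basic_gau_one]
theorem Basic_star_gau {u : Matrix (β ⊕ τ) (β ⊕ τ) ℂ} (hu : u ∈ D.K (one β)) :
    star (gau u) * gau u = 1 := Matrix.mem_unitaryGroup_iff'.1 (D.gau_unitary hu)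
theorem gau_block {sl : β → Λ} {u : Matrix (β ⊕ τ) (β ⊕ τ) ℂ} (hu : u ∈ D.K sl) {k l : β}
    (h : gau u k l ≠ 0) : D.v k = D.v l ∧ sl k = sl l := by
  by_contra hn
  refine h (hu.2 (Sum.inl k) (Sum.inl l) fun he => hn ?_)
  simpa [lab] using he
theorem isAct_K (sl : β → Λ) : IsAct (D.K sl) D.act := by
  refine ⟨isGrp_KG _, fun x => ?_, fun u hu v hv x => ?_, ?_⟩
  · funext γ
    simp [act, chr_one, Basic_gau_one]
  · funext γ
    simp only [act, D.Basic_chr_mul hu, D.gau_mul (D.K_subset sl hu), star_mul, Matrix.mul_smul,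
      Matrix.smul_mul, smul_smul, Matrix.mul_assoc]
  · refine continuousOn_pi.2 fun γ => ?_
    simp only [act]
    refine ContinuousOn.fun_smul ?_ (Continuous.continuousOn ?_)
    · simp only [Basic_chr]
      refine continuousOn_finsetProd _ fun a _ => ContinuousOn.zpow₀ ?_ _ fun p hp => ?_
      · exact ((continuous_apply _).comp ((continuous_apply _).comp continuous_fst)).continuousOn
      · exact Or.inl (D.Basic_rr_ne hp.1 a)
    · have h1 : Continuous fun p : Matrix (β ⊕ τ) (β ⊕ τ) ℂ × UU β Ar => gau p.1 :=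
        continuous_fst.matrix_submatrix _ _
      exact (h1.matrix_mul ((continuous_apply γ).comp continuous_snd)).matrix_mul h1.star
theorem Basic_entry (g M : Matrix β β ℂ) (l k : β) :
    (g * M * star g) l k = ∑ k', ∑ l', g l l' * M l' k' * star (g k k') := by
  simp only [Matrix.mul_apply, Finset.sum_mul, Matrix.star_apply]
theorem Basic_chi (p : Gam Ar × β × β) : D.chi p = Pi.single (Sum.inl p.2.1) 1 +
    -Pi.single (Sum.inl p.2.2) 1 + Sum.elim (0 : β → ℤ) (D.w3 p.1) := by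
  funext x
  rcases x with k | a
  · simp [chi, Pi.single_apply, sub_eq_add_neg]
  · simp [chi]
theorem Basic_wt {u : Matrix (β ⊕ τ) (β ⊕ τ) ℂ} (hu : u ∈ TT (β ⊕ τ)) (x : UU β Ar)
    (p : Gam Ar × β × β) : co (D.act u x) p = chr (D.chi p) u * co x p := by
  have hd : ∀ k l : β, l ≠ k → gau u k l = 0 := fun k l h =>
    hu.2 (Sum.inl k) (Sum.inl l) (by simpa using h.symm)
  rw [Basic_chi, chr_add _ _ hu, chr_add _ _ hu, chr_neg _ hu, chr_single, chr_single]
  simp only [co, act, Matrix.smul_apply, smul_eq_mul, Basic_entry]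
  rw [Finset.sum_eq_single p.2.2, Finset.sum_eq_single p.2.1]
  · simp only [gau, Matrix.submatrix_apply]
    ring
  · intro l _ hl
    rw [hd _ _ hl, zero_mul, zero_mul]
  · intro h
    exact absurd (Finset.mem_univ _) h
  · intro k _ hk
    simp [hd _ _ hk]
  · intro h
    exact absurd (Finset.mem_univ _) h
theorem amb : Amb D.act (co : UU β Ar → _) D.chi := by
  refine ⟨(D.isAct_K (one β)).mono (isGrp_KG _) (TT_subset _),
    ⟨(continuous_pi Basic_cont_co).continuousOn, fun u hu x _ p => D.Basic_wt hu x p⟩,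
    fun c γ => Matrix.of fun l k => c (γ, l, k), (continuous_pi Basic_cont_co).continuousOn,
    (Basic_cont_of fun p => continuous_apply p).continuousOn, mapsTo_univ _ _, mapsTo_univ _ _,
    fun _ _ => rfl, fun _ _ => rfl⟩
theorem fromBlocks_mem_K {sl : β → Λ} {g : Matrix β β ℂ} (hg : g ∈ Matrix.unitaryGroup β ℂ)
    (hb : ∀ k l, g k l ≠ 0 → D.v k = D.v l ∧ sl k = sl l) :
    Matrix.fromBlocks g 0 0 (1 : Matrix τ τ ℂ) ∈ D.K sl ∧
      gau (Matrix.fromBlocks g 0 0 (1 : Matrix τ τ ℂ)) = g ∧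
      ∀ x γ, D.act (Matrix.fromBlocks g 0 0 (1 : Matrix τ τ ℂ)) x γ = g * x γ * star g := by
  have h2 : gau (Matrix.fromBlocks g 0 0 (1 : Matrix τ τ ℂ)) = g := by
    ext k l
    simp [gau]
  refine ⟨⟨?_, ?_⟩, h2, fun x γ => ?_⟩
  · have h1 : g * g.conjTranspose = 1 := Matrix.mem_unitaryGroup_iff.1 hg
    rw [Matrix.mem_unitaryGroup_iff, Matrix.star_eq_conjTranspose, Matrix.fromBlocks_conjTranspose,
      Matrix.fromBlocks_multiply]
    simp [h1]
  · rintro (k | a) (l | b) h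
    · by_contra hn
      have := hb k l hn
      exact h (by simp [lab, this.1, this.2])
    · simp
    · simp
    · have hab : a ≠ b := fun e => h (by rw [e])
      simp [Matrix.one_apply_ne hab]
  · simp [act, h2, Basic_chr]
theorem norm_chr_w3 {u : Matrix (β ⊕ τ) (β ⊕ τ) ℂ} (hu : u ∈ D.K (one β)) (γ : Gam Ar) :
    ‖chr (Sum.elim 0 (D.w3 γ)) u‖ = 1 := by
  simp [Basic_chr, norm_prod, norm_zpow, D.Basic_norm_rr hu]
/-- A set of positions that only depends on the labels defines an invariant subspace. -/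
theorem invX_LinS {sl : β → Λ} {J : Finset (Gam Ar × β × β)}
    (hJ : ∀ γ l k l' k', D.v l = D.v l' → sl l = sl l' → D.v k = D.v k' → sl k = sl k' →
      (γ, l, k) ∈ J → (γ, l', k') ∈ J) : InvX (D.K sl) D.act (LinS co J) ∧
      ∀ u ∈ D.K sl, ∀ x, trunc J (D.act u x) = D.act u (trunc J x) := by
  have key : ∀ u ∈ D.K sl, ∀ x, trunc J (D.act u x) = D.act u (trunc J x) := by
    intro u hu x
    funext γ
    ext l k
    have hterm : ∀ k' l', gau u l l' * trunc J x γ l' k' * star (gau u k k') =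
        if (γ, l, k) ∈ J then gau u l l' * x γ l' k' * star (gau u k k') else 0 := by
      intro k' l'
      by_cases h1 : gau u l l' = 0
      · simp [h1]
      by_cases h2 : gau u k k' = 0
      · simp [h2]
      obtain ⟨a1, a2⟩ := D.gau_block hu h1
      obtain ⟨b1, b2⟩ := D.gau_block hu h2
      have hiff : (γ, l', k') ∈ J ↔ (γ, l, k) ∈ J :=
        ⟨hJ γ l' k' l k a1.symm a2.symm b1.symm b2.symm, hJ γ l k l' k' a1 a2 b1 b2⟩
      simp only [trunc, Matrix.of_apply, hiff]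
      split_ifs <;> simp
    simp only [act, Matrix.smul_apply, Basic_entry, hterm]
    simp only [trunc, Matrix.of_apply, act, Matrix.smul_apply, Basic_entry]
    split_ifs <;> simp
  refine ⟨fun u hu x hx => ?_, key⟩
  rw [Basic_mem_LinS] at hx ⊢
  rw [key u hu, hx]
theorem Basic_ok_congr (γ : Gam Ar) {l k l' k' : β} (hl : D.v l = D.v l') (hk : D.v k = D.v k') :
    D.ok γ l k = D.ok γ l' k' := by
  rcases γ with _ | h | h <;> simp only [ok, hl, hk]
theorem Basic_mem_PU {sl : β → Λ} {p : Gam Ar × β × β} :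
    p ∈ D.PU sl ↔ D.ok p.1 p.2.1 p.2.2 = true ∧ sl p.2.1 = sl p.2.2 := by
  simp [PU]
theorem Basic_PU_inv (sl : β → Λ) (γ : Gam Ar) (l k l' k' : β) (a1 : D.v l = D.v l')
    (a2 : sl l = sl l') (b1 : D.v k = D.v k') (b2 : sl k = sl k') (h : (γ, l, k) ∈ D.PU sl) :
    (γ, l', k') ∈ D.PU sl := by
  rw [Basic_mem_PU] at h ⊢
  exact ⟨D.Basic_ok_congr γ a1 b1 ▸ h.1, by rw [← a2, ← b2]; exact h.2⟩
theorem invX_U (sl : β → Λ) : InvX (D.K sl) D.act (D.U sl) := (D.invX_LinS (D.Basic_PU_inv sl)).1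
theorem invX_PY (sl : β → Λ) (ρ : β → ℕ) :
    InvX (D.K fun k => (sl k, ρ k)) D.act (LinS co (D.PY sl ρ)) := by
  refine (D.invX_LinS fun γ l k l' k' a1 a2 b1 b2 h => ?_).1
  rw [Prod.mk.injEq] at a2 b2
  rw [PY, Finset.mem_filter] at h ⊢
  refine ⟨D.Basic_PU_inv sl γ l k l' k' a1 a2.1 b1 b2.1 h.1, ?_⟩
  have h2 := h.2
  simp only [a2.2, b2.2] at h2
  exact h2
theorem invX_PP (sl : β → Λ) (q : Finset β) :
    InvX (D.K (spl sl q)) D.act (LinS co (D.PP sl q)) := by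
  refine (D.invX_LinS fun γ l k l' k' a1 a2 b1 b2 h => ?_).1
  simp only [spl, Prod.mk.injEq, decide_eq_decide] at a2 b2
  rw [PP, Finset.mem_filter] at h ⊢
  exact ⟨D.Basic_PU_inv sl γ l k l' k' a1 a2.1 b1 b2.1 h.1, fun hk => a2.2.1 (h.2 (b2.2.2 hk))⟩
theorem invX_PX : InvX (D.K (one β)) D.act (LinS co D.PX) := by
  refine (D.invX_LinS fun γ l k l' k' a1 a2 b1 b2 h => ?_).1
  rw [PX, Finset.mem_filter] at h ⊢
  exact ⟨D.Basic_PU_inv _ γ l k l' k' a1 a2 b1 b2 h.1, h.2⟩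
theorem Basic_mem_filter {J : Finset (Gam Ar × β × β)} {P : Gam Ar × β × β → Prop}
    [DecidablePred P] {x : UU β Ar} :
    x ∈ LinS co (J.filter P) ↔ x ∈ LinS co J ∧ ∀ p, ¬ P p → co x p = 0 := by
  constructor
  · intro h
    exact ⟨fun p hp => h p fun h' => hp (Finset.mem_filter.1 h').1,
      fun p hp => h p fun h' => hp (Finset.mem_filter.1 h').2⟩
  · rintro ⟨h1, h2⟩ p hp
    by_cases hJ : p ∈ J
    · exact h2 p fun hP => hp (Finset.mem_filter.2 ⟨hJ, hP⟩)
    · exact h1 p hJ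
theorem mem_PX {x : UU β Ar} : x ∈ LinS co D.PX ↔ x ∈ D.U (one β) ∧ x none = 0 := by
  rw [PX, Basic_mem_filter]
  refine and_congr_right fun _ => ⟨fun h => ?_, fun h p hp => ?_⟩
  · ext l k
    exact h (none, l, k) (by simp)
  · have : p.1 = none := not_not.1 hp
    simp [co, this, h]
theorem Basic_mem_Vq {q : Finset β} {z : β → ℂ} : z ∈ Vq q ↔ ∀ k, k ∉ q → z k = 0 := by
  simp [Vq, Submodule.mem_pi]
theorem mem_PP {sl : β → Λ} {q : Finset β} {x : UU β Ar} :
    x ∈ LinS co (D.PP sl q) ↔ x ∈ D.U sl ∧ InvAll x (Vq q) := by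
  rw [PP, Basic_mem_filter]
  refine and_congr_right fun _ => ⟨fun h γ z hz => ?_, fun h p hp => ?_⟩
  · rw [Basic_mem_Vq] at hz ⊢
    intro l hl
    refine Finset.sum_eq_zero fun k _ => ?_
    by_cases hk : k ∈ q
    · have : x γ l k = 0 := h (γ, l, k) fun h' => hl (h' hk)
      exact mul_eq_zero_of_left this _
    · exact mul_eq_zero_of_right _ (hz k hk)
  · rw [Classical.not_imp] at hp
    have h1 : (Pi.single p.2.2 1 : β → ℂ) ∈ Vq q := by
      rw [Basic_mem_Vq]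
      intro k hk
      exact Pi.single_eq_of_ne (fun e : k = p.2.2 => hk (by rw [e]; exact hp.1)) _
    have h2 := Basic_mem_Vq.1 (h p.1 _ h1) _ hp.2
    simpa [co] using h2
theorem PU_spl_subset {sl : β → Λ} (q : Finset β) : D.PU (spl sl q) ⊆ D.PP sl q := by
  intro p hp
  rw [Basic_mem_PU] at hp
  have h2 := hp.2
  simp only [spl, Prod.mk.injEq, decide_eq_decide] at h2
  rw [PP, Finset.mem_filter, Basic_mem_PU]
  exact ⟨⟨hp.1, h2.1⟩, h2.2.2⟩
theorem U_mono {sl : β → Λ} {sl' : β → Λ'} (h : ∀ k l, sl' k = sl' l → sl k = sl l) :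
    D.U sl' ⊆ D.U sl := by
  refine LinS_mono _ fun p hp => ?_
  rw [Basic_mem_PU] at hp ⊢
  exact ⟨hp.1, h _ _ hp.2⟩

/-- Extension by zero. -/
def Basic_ex (J : Finset (Gam Ar × β × β)) (v : ↥J → ℂ) : UU β Ar :=
  fun γ => Matrix.of fun l k => if h : (γ, l, k) ∈ J then v ⟨_, h⟩ else 0

theorem Basic_co_ex (J : Finset (Gam Ar × β × β)) (v : ↥J → ℂ) (p : Gam Ar × β × β) :
    co (Basic_ex J v) p = if h : p ∈ J then v ⟨p, h⟩ else 0 := rfl
theorem Basic_co_ex_mem (J : Finset (Gam Ar × β × β)) (v : ↥J → ℂ) (p : ↥J) :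
    co (Basic_ex J v) p.1 = v p := by
  rw [Basic_co_ex, dif_pos p.2]
theorem Basic_ex_co (J : Finset (Gam Ar × β × β)) (x : UU β Ar) :
    Basic_ex J (fun p => co x p.1) = trunc J x := by
  refine Basic_ext fun p => ?_
  rw [Basic_co_ex, co_trunc]
  split_ifs <;> rfl
theorem Basic_cont_ex (J : Finset (Gam Ar × β × β)) :
    Continuous (Basic_ex J : (↥J → ℂ) → UU β Ar) := by
  refine Basic_cont_of fun p => ?_
  simp only [Basic_co_ex]
  by_cases hp : p ∈ J
  · simp only [hp, dif_pos]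
    exact continuous_apply _
  · simp only [hp, dif_neg, not_false_iff]
    exact continuous_const
theorem Basic_co_add (x y : UU β Ar) (p : Gam Ar × β × β) : co (x + y) p = co x p + co y p := rfl
theorem Basic_co_smul (z : ℂ) (x : UU β Ar) (p : Gam Ar × β × β) : co (z • x) p = z * co x p := rfl
theorem Basic_ex_add (J : Finset (Gam Ar × β × β)) (v w : ↥J → ℂ) :
    Basic_ex J (v + w) = Basic_ex J v + Basic_ex J w := by
  refine Basic_ext fun p => ?_
  simp only [Basic_co_add, Basic_co_ex]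
  split_ifs <;> simp
theorem Basic_ex_smul (J : Finset (Gam Ar × β × β)) (z : ℂ) (v : ↥J → ℂ) :
    Basic_ex J (z • v) = z • Basic_ex J v := by
  refine Basic_ext fun p => ?_
  simp only [Basic_co_smul, Basic_co_ex]
  split_ifs <;> simp
theorem Basic_act_add (u : Matrix (β ⊕ τ) (β ⊕ τ) ℂ) (x y : UU β Ar) :
    D.act u (x + y) = D.act u x + D.act u y := by
  funext γ
  simp only [act, Pi.add_apply, Matrix.mul_add, Matrix.add_mul, smul_add]
theorem Basic_act_smul (u : Matrix (β ⊕ τ) (β ⊕ τ) ℂ) (z : ℂ) (x : UU β Ar) :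
    D.act u (z • x) = z • D.act u x := by
  funext γ
  simp only [act, Pi.smul_apply, Matrix.mul_smul, Matrix.smul_mul, smul_smul, mul_comm]
/-- A `K`-module structure on the coordinates at an invariant set of positions. -/
theorem exists_isMod {sl : β → Λ} {J : Finset (Gam Ar × β × β)}
    (hJ : ∀ γ l k l' k', D.v l = D.v l' → sl l = sl l' → D.v k = D.v k' → sl k = sl k' →
      (γ, l, k) ∈ J → (γ, l', k') ∈ J) :
    ∃ ρ : Matrix (β ⊕ τ) (β ⊕ τ) ℂ → (↥J → ℂ) → ↥J → ℂ, IsMod (D.lab sl) ρ (fun p => D.chi p.1) ∧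
      ∀ u ∈ D.K sl, ∀ x, (fun p : ↥J => co (D.act u x) p.1) = ρ u fun p : ↥J => co x p.1 := by
  have hA := D.isAct_K sl
  have key : ∀ u ∈ D.K sl, ∀ x, (fun p : ↥J => co (D.act u x) p.1) =
      fun p : ↥J => co (D.act u (Basic_ex J fun p : ↥J => co x p.1)) p.1 := by
    intro u hu x
    funext p
    rw [Basic_ex_co, ← (D.invX_LinS hJ).2 u hu, co_trunc, if_pos p.2]
  refine ⟨fun u v p => co (D.act u (Basic_ex J v)) p.1, ⟨⟨hA.grp, fun v => ?_,
    fun u hu u' hu' v => ?_, ?_⟩, fun u _ => ⟨fun v w => ?_, fun z v => ?_⟩, fun u hu v p => ?_⟩,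
    key⟩
  · funext p
    rw [hA.one, Basic_co_ex_mem]
  · rw [hA.mul u hu u' hu']
    exact key u hu _
  · have hc : ContinuousOn (fun z : Matrix (β ⊕ τ) (β ⊕ τ) ℂ × (↥J → ℂ) =>
        D.act z.1 (Basic_ex J z.2)) (D.K sl ×ˢ univ) :=
      hA.cont.comp (f := fun z : Matrix (β ⊕ τ) (β ⊕ τ) ℂ × (↥J → ℂ) => (z.1, Basic_ex J z.2))
        (continuous_fst.prodMk ((Basic_cont_ex J).comp continuous_snd)).continuousOn
        fun z hz => ⟨hz.1, mem_univ _⟩
    exact continuousOn_pi.2 fun p => (Basic_cont_co p.1).comp_continuousOn hc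
  · funext p
    rw [Basic_ex_add, Basic_act_add]
    rfl
  · funext p
    rw [Basic_ex_smul, Basic_act_smul]
    rfl
  · rw [D.Basic_wt hu, Basic_co_ex_mem]
/-- Thom cocycles of coordinate projections over an invariant base. -/
theorem exists_thom_trunc {sl : β → Λ} {J J' : Finset (Gam Ar × β × β)} (hJJ : J' ⊆ J)
    (hJ : ∀ γ l k l' k', D.v l = D.v l' → sl l = sl l' → D.v k = D.v k' → sl k = sl k' →
      (γ, l, k) ∈ J → (γ, l', k') ∈ J)
    (hJ' : ∀ γ l k l' k', D.v l = D.v l' → sl l = sl l' → D.v k = D.v k' → sl k = sl k' →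
      (γ, l, k) ∈ J' → (γ, l', k') ∈ J') (n : ℕ) :
    ∃ t : Coch (Bor (D.K sl) D.act), ∀ S, S ⊆ LinS co J' → InvX (D.K sl) D.act S →
      IsThomFor (D.K sl) D.act D.act ({x | x ∈ LinS co J ∧ trunc J' x ∈ S} ×ˢ Inj D.lab0 n)
        (S ×ˢ Inj D.lab0 n) (trunc J') (fun x (i : ↥(J \ J')) => co x i) t := by
  have hA := D.isAct_K sl
  obtain ⟨ρ, hρ, hco⟩ := D.exists_isMod (sl := sl) (J := J \ J')
    fun γ l k l' k' a1 a2 b1 b2 h => by
      rw [Finset.mem_sdiff] at h ⊢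
      exact ⟨hJ γ l k l' k' a1 a2 b1 b2 h.1,
        fun h' => h.2 (hJ' γ l' k' l k a1.symm a2.symm b1.symm b2.symm h')⟩
  obtain ⟨t₀, ht₀⟩ := exists_tauK hρ n
  have hE : InvF (D.K sl) (Inj D.lab0 n) := invF_Inj (D.K_subset sl) n
  have hsub := Inj_anti (D.refines_lab0 sl) n
  have ht₁ := IsThomFor.restrict (isAct_pt hA.grp) hρ.act (P₁ := univ ×ˢ Inj D.lab0 n)
    (TauK_inv _ hE) (prod_mono subset_rfl hsub) (fun _ _ _ _ => rfl) ht₀
  have hset : {p : (↥(J \ J') → ℂ) × Fr (β ⊕ τ) | p ∈ univ ×ˢ Inj (D.lab sl) n ∧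
      ((), p.2) ∈ (univ : Set Unit) ×ˢ Inj D.lab0 n} = univ ×ˢ Inj D.lab0 n := by
    ext p
    exact ⟨fun h => ⟨mem_univ _, h.2.2⟩, fun h => ⟨⟨mem_univ _, hsub h.2⟩, mem_univ _, h.2⟩⟩
  rw [hset] at ht₁
  refine ⟨pb (bmap (D.K sl) ρ (fun x (i : ↥(J \ J')) => co x i) id) t₀, fun S hS hSi => ?_⟩
  have hS' : InvX (D.K sl) D.act {x | x ∈ LinS co J ∧ trunc J' x ∈ S} := fun u hu x hx =>
    ⟨(D.invX_LinS hJ).1 u hu x hx.1, by
      rw [(D.invX_LinS hJ').2 u hu]
      exact hSi u hu _ hx.2⟩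
  refine isThomFor_pb hA hA hρ.act hE ht₁ hS'
    (fun u hu x _ => hco u hu x) hSi (fun u hu x _ => (D.invX_LinS hJ').2 u hu x)
    (g := fun z => z.1 + Basic_ex (J \ J') z.2) ?_
  · have htr : ∀ y ∈ S, ∀ v, trunc J' (y + Basic_ex (J \ J') v) = y := by
      intro y hy v
      refine Basic_ext fun p => ?_
      rw [co_trunc, Basic_co_add, Basic_co_ex]
      by_cases hp : p ∈ J'
      · rw [if_pos hp, dif_neg fun h => (Finset.mem_sdiff.1 h).2 hp, add_zero]
      · rw [if_neg hp, hS hy p hp]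
    refine ⟨((continuous_trunc J').prodMk
      (continuous_pi fun i => Basic_cont_co _)).continuousOn,
      (continuous_fst.add ((Basic_cont_ex _).comp continuous_snd)).continuousOn,
      fun x hx => ⟨hx.2, mem_univ _⟩, fun z hz => ⟨fun p hp => ?_, ?_⟩, fun x hx => ?_,
      fun z hz => Prod.ext (htr _ hz.1 _) ?_⟩
    · rw [Basic_co_add, Basic_co_ex, hS hz.1 p fun h => hp (hJJ h),
        dif_neg fun h => hp (Finset.mem_sdiff.1 h).1, add_zero]
    · rw [htr _ hz.1]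
      exact hz.1
    · refine Basic_ext fun p => ?_
      simp only [Basic_ex_co, Basic_co_add, co_trunc, Finset.mem_sdiff]
      by_cases h1 : p ∈ J'
      · simp [h1]
      · by_cases h2 : p ∈ J
        · simp [h1, h2]
        · simp [h1, h2, hx.1 p h2]
    · funext i
      show co (z.1 + Basic_ex (J \ J') z.2) i.1 = z.2 i
      rw [Basic_co_add, Basic_co_ex_mem, hS hz.1 i.1 (Finset.mem_sdiff.1 i.2).2, zero_add]

theorem Basic_prod_pos {M : Type} [CommMonoid M] (s : Finset (Gam Ar × β × β))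
    (f : Gam Ar × β × β → M) :
    ∏ p ∈ s, f p = ∏ k, ∏ l, ∏ γ, if (γ, l, k) ∈ s then f (γ, l, k) else 1 := by
  rw [← Finset.prod_ite_mem_eq, Fintype.prod_prod_type, Finset.prod_comm, Fintype.prod_prod_type,
    Finset.prod_comm]
theorem Basic_PY_factor (sl : β → Λ) (ρ : β → ℕ) (k l : β) :
    (∏ γ, if (γ, l, k) ∈ D.PU sl \ D.PY sl ρ then linF (D.chi (γ, l, k)) else 1) =
      (if l = k then -D.hb else 1) * if k ≠ l ∧ sl k = sl l then D.eps ρ k l else 1 := by
  have hmem : ∀ γ, (γ, l, k) ∈ D.PU sl \ D.PY sl ρ ↔ D.ok γ l k = true ∧ sl l = sl k ∧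
      ¬ (if γ = none then ρ l < ρ k else ρ l ≤ ρ k) := by
    intro γ
    rw [Finset.mem_sdiff, PY, Finset.mem_filter, Basic_mem_PU]
    tauto
  simp only [hmem]
  have hnone : ρ k = ρ l → (∏ γ, if D.ok γ l k = true ∧ sl l = sl k ∧
      ¬ (if γ = none then ρ l < ρ k else ρ l ≤ ρ k) then linF (D.chi (γ, l, k)) else 1) =
      if D.v l = D.v k ∧ sl l = sl k then D.wt none l k else 1 := by
    intro h
    rw [Finset.prod_eq_single none]
    · simp [ok, h, wt]
    · intro γ _ hγ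
      simp [hγ, h]
    · intro h
      exact absurd (Finset.mem_univ _) h
  by_cases hlk : l = k
  · subst hlk
    rw [hnone rfl, wt_none]
    simp
  have hkl : k ≠ l := fun h => hlk h.symm
  by_cases hs : sl l = sl k
  · rw [if_neg hlk, one_mul, if_pos ⟨hkl, hs.symm⟩, eps]
    rcases lt_trichotomy (ρ k) (ρ l) with h | h | h
    · rw [if_pos h, alpha, Finset.prod_filter]
      refine Finset.prod_congr rfl fun γ _ => ?_
      have h1 : ¬ (if γ = none then ρ l < ρ k else ρ l ≤ ρ k) := by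
        split_ifs <;> omega
      simp only [hs, h1, not_false_iff, and_true, wt]
    · rw [hnone h, if_neg (show ¬ ρ k < ρ l by omega)]
      simp [h, hs]
    · rw [if_neg (show ¬ ρ k < ρ l by omega), if_neg fun h' => absurd h'.1 (by omega)]
      refine Finset.prod_eq_one fun γ _ => if_neg fun h' => h'.2.2 ?_
      split_ifs <;> omega
  · rw [if_neg hlk, if_neg fun h => hs h.2.symm, one_mul]
    exact Finset.prod_eq_one fun γ _ => if_neg fun h' => hs h'.2.1
theorem euler_PY (sl : β → Λ) (ρ : β → ℕ) :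
    ∏ p ∈ D.PU sl \ D.PY sl ρ, linF (D.chi p) = (-D.hb) ^ Fintype.card β * D.erho sl ρ := by
  rw [Basic_prod_pos]
  simp only [Basic_PY_factor, Finset.prod_mul_distrib]
  congr 1
  · simp
  · rw [erho, Finset.prod_filter, Fintype.prod_prod_type]
theorem euler_PP {sl : β → Λ} {p q : Finset β} (hp : IsSlot sl p) (hq : q ⊆ p) :
    ∏ x ∈ D.PU sl \ D.PP sl q, linF (D.chi x) = D.alphaS q (p \ q) := by
  obtain ⟨j, rfl⟩ := hp
  have hq' : ∀ k ∈ q, sl k = j := fun k hk => (Finset.mem_filter.1 (hq hk)).2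
  rw [Basic_prod_pos, alphaS, ← Finset.prod_ite_mem_eq q]
  refine Finset.prod_congr rfl fun k _ => ?_
  have hmem : ∀ γ l, (γ, l, k) ∈ D.PU sl \ D.PP sl q ↔ D.ok γ l k = true ∧ k ∈ q ∧
      l ∈ (Finset.univ.filter fun k => sl k = j) \ q := by
    intro γ l
    rw [Finset.mem_sdiff, PP, Finset.mem_filter, Basic_mem_PU, Finset.mem_sdiff, Finset.mem_filter]
    constructor
    · rintro ⟨h1, h2⟩
      have h3 : ¬ (k ∈ q → l ∈ q) := fun h => h2 ⟨h1, h⟩
      rw [Classical.not_imp] at h3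
      exact ⟨h1.1, h3.1, ⟨Finset.mem_univ _, h1.2.trans (hq' k h3.1)⟩, h3.2⟩
    · rintro ⟨h1, h2, ⟨-, h3⟩, h4⟩
      exact ⟨⟨h1, h3.trans (hq' k h2).symm⟩, fun h => h4 (h.2 h2)⟩
  simp only [hmem]
  by_cases hk : k ∈ q
  · rw [if_pos hk, ← Finset.prod_ite_mem_eq ((Finset.univ.filter fun k => sl k = j) \ q)]
    refine Finset.prod_congr rfl fun l _ => ?_
    by_cases hl : l ∈ (Finset.univ.filter fun k => sl k = j) \ q
    · rw [if_pos hl, alpha, Finset.prod_filter]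
      simp only [hk, hl, and_true, wt]
    · rw [if_neg hl]
      exact Finset.prod_eq_one fun γ _ => if_neg fun h => hl h.2.2
  · rw [if_neg hk]
    exact Finset.prod_eq_one fun l _ => Finset.prod_eq_one fun γ _ => if_neg fun h => hk h.2.1
theorem Basic_PX_eq : D.PX = D.PY (one β) 0 := by
  rw [PX, PY]
  refine Finset.filter_congr fun p _ => ?_
  by_cases h : p.1 = none <;> simp [h]
theorem euler_PX : ∏ p ∈ D.PU (one β) \ D.PX, linF (D.chi p) =
    (-D.hb) ^ Fintype.card β * D.erho (one β) 0 := by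
  rw [Basic_PX_eq, euler_PY]
theorem card_PU_PX : (D.PU (one β)).card = D.PX.card + Fintype.card β + 2 * npos D.lab0 := by
  classical
  have h1 := Finset.card_filter_add_card_filter_not (s := D.PU (one β)) fun p => p.1 ≠ none
  have h2 : ((D.PU (one β)).filter fun p => ¬ p.1 ≠ none).card =
      ∑ l, ∑ k, if D.v l = D.v k then 1 else 0 := by
    rw [PU, Finset.filter_filter, Finset.card_filter, Fintype.sum_prod_type,
      Finset.sum_eq_single none, Fintype.sum_prod_type]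
    · simp [ok]
    · intro γ _ hγ
      simp [hγ]
    · intro h
      exact absurd (Finset.mem_univ _) h
  have h3 := card_pairs D.lab0
  rw [Finset.card_filter, Fintype.sum_prod_type] at h3
  simp only [Fintype.sum_sum_type, lab, Sum.map_inl, Sum.map_inr, Sum.inl.injEq, Prod.mk.injEq,
    and_true, reduceCtorEq, if_false, Finset.sum_const_zero, add_zero, zero_add, id,
    Sum.inr.injEq, Finset.sum_ite_eq, Finset.mem_univ, if_true, Finset.sum_const,
    Finset.card_univ, smul_eq_mul, mul_one, Fintype.card_sum] at h3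
  rw [h2] at h1
  rw [PX, ← h1]
  have h4 : (∑ l, ∑ k, if D.v l = D.v k then 1 else 0) = Fintype.card β + 2 * npos D.lab0 := by
    have h5 : (∑ l, ∑ k, if D.v l = D.v k then 1 else 0) + Fintype.card τ =
        Fintype.card β + Fintype.card τ + 2 * npos D.lab0 := by
      convert h3
      rfl
    omega
  rw [h4, add_assoc]

theorem continuous_mu : Continuous (mu : UU β Ar → Matrix β β ℂ) :=
  continuous_finsetSum _ fun _ _ =>
    ((continuous_apply _).matrix_mul (continuous_apply _)).sub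
      ((continuous_apply _).matrix_mul (continuous_apply _))
theorem continuous_Wf : Continuous (Wf : UU β Ar → ℂ) :=
  ((continuous_apply none).matrix_mul continuous_mu).matrix_trace
theorem Basic_conj_mul {g : Matrix β β ℂ} (hg : star g * g = 1) (A B : Matrix β β ℂ) :
    g * A * star g * (g * B * star g) = g * (A * B) * star g := by
  calc g * A * star g * (g * B * star g) = g * A * (star g * g) * B * star g := by
        simp only [Matrix.mul_assoc]
    _ = g * (A * B) * star g := by rw [hg]; simp only [Matrix.mul_assoc, Matrix.one_mul]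
theorem mu_act {u : Matrix (β ⊕ τ) (β ⊕ τ) ℂ} (hu : u ∈ D.K (one β)) (x : UU β Ar) :
    mu (D.act u x) = u (Sum.inr D.hh) (Sum.inr D.hh) • (gau u * mu x * star (gau u)) := by
  have hc : ∀ h, chr (Sum.elim 0 (D.w3 (some (Sum.inl h)))) u *
      chr (Sum.elim 0 (D.w3 (some (Sum.inr h)))) u = u (Sum.inr D.hh) (Sum.inr D.hh) := by
    intro h
    rw [← D.Basic_chr_add hu, ← Basic_chr_single D.hh u]
    simp [w3]
  rw [mu, mu, Matrix.mul_sum, Matrix.sum_mul, Finset.smul_sum]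
  refine Finset.sum_congr rfl fun h _ => ?_
  simp only [act, Matrix.mul_smul, Matrix.smul_mul, smul_smul,
    Basic_conj_mul (D.Basic_star_gau hu)]
  rw [hc, mul_comm (chr _ u), hc, Matrix.mul_sub, Matrix.sub_mul, smul_sub]
theorem Basic_trace_conj {g : Matrix β β ℂ} (hg : star g * g = 1) (A : Matrix β β ℂ) :
    Matrix.trace (g * A * star g) = Matrix.trace A := by
  rw [Matrix.trace_mul_comm, ← Matrix.mul_assoc, hg, Matrix.one_mul]
theorem Wf_act {u : Matrix (β ⊕ τ) (β ⊕ τ) ℂ} (hu : u ∈ D.K (one β)) (x : UU β Ar) :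
    Wf (D.act u x) = Wf x := by
  have hc : u (Sum.inr D.hh) (Sum.inr D.hh) * chr (Sum.elim 0 (D.w3 none)) u = 1 := by
    rw [← Basic_chr_single D.hh u, ← D.Basic_chr_add hu, ← Basic_chr_zero u]
    simp [w3]
  rw [Wf, D.mu_act hu, Wf]
  simp only [act, Matrix.mul_smul, Matrix.smul_mul, smul_smul,
    Basic_conj_mul (D.Basic_star_gau hu)]
  rw [hc, one_smul, Basic_trace_conj (D.Basic_star_gau hu)]
theorem trace_mu (x : UU β Ar) : Matrix.trace (mu x) = 0 := by
  rw [mu, Matrix.trace_sum]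
  refine Finset.sum_eq_zero fun h _ => ?_
  rw [Matrix.trace_sub, Matrix.trace_mul_comm, sub_self]
theorem Basic_mul_ne {A B : Matrix β β ℂ} {k l : β} (h : (A * B) k l ≠ 0) :
    ∃ m, A k m ≠ 0 ∧ B m l ≠ 0 := by
  rw [Matrix.mul_apply] at h
  obtain ⟨m, -, hm⟩ := Finset.exists_ne_zero_of_sum_ne_zero h
  exact ⟨m, left_ne_zero_of_mul hm, right_ne_zero_of_mul hm⟩
theorem Basic_mu_ne {x : UU β Ar} {k l : β} (h : mu x k l ≠ 0) : ∃ a m,
    (x (some (Sum.inl a)) k m ≠ 0 ∧ x (some (Sum.inr a)) m l ≠ 0) ∨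
      (x (some (Sum.inr a)) k m ≠ 0 ∧ x (some (Sum.inl a)) m l ≠ 0) := by
  rw [mu, Matrix.sum_apply] at h
  obtain ⟨a, -, ha⟩ := Finset.exists_ne_zero_of_sum_ne_zero h
  rw [Matrix.sub_apply] at ha
  by_cases h1 : (x (some (Sum.inl a)) * x (some (Sum.inr a))) k l = 0
  · have h2 : (x (some (Sum.inr a)) * x (some (Sum.inl a))) k l ≠ 0 := fun h2 =>
      ha (by rw [h1, h2, sub_self])
    obtain ⟨m, hm⟩ := Basic_mul_ne h2
    exact ⟨a, m, Or.inr hm⟩
  · obtain ⟨m, hm⟩ := Basic_mul_ne h1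
    exact ⟨a, m, Or.inl hm⟩
theorem Basic_mem_of_ne {J : Finset (Gam Ar × β × β)} {x : UU β Ar} (hx : x ∈ LinS co J)
    {γ : Gam Ar} {l k : β} (h : x γ l k ≠ 0) : (γ, l, k) ∈ J := by
  by_contra hn
  exact h (hx _ hn)
theorem mu_block {sl : β → Λ} {x : UU β Ar} (hx : x ∈ D.U sl) {k l : β} (h : mu x k l ≠ 0) :
    D.v k = D.v l ∧ sl k = sl l := by
  obtain ⟨a, m, h | h⟩ := Basic_mu_ne h
  all_goals
    have h1 := D.Basic_mem_PU.1 (Basic_mem_of_ne hx h.1)
    have h2 := D.Basic_mem_PU.1 (Basic_mem_of_ne hx h.2)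
    simp only [ok, decide_eq_true_eq] at h1 h2
    exact ⟨h1.1.1.trans h2.1.2.symm, h1.2.trans h2.2⟩
theorem Wf_eq (x : UU β Ar) : Wf x = ∑ h, Matrix.trace
    ((x none * x (some (Sum.inl h)) - x (some (Sum.inl h)) * x none) * x (some (Sum.inr h))) := by
  rw [Wf, mu, Matrix.mul_sum, Matrix.trace_sum]
  refine Finset.sum_congr rfl fun h _ => ?_
  rw [Matrix.mul_sub, Matrix.sub_mul, Matrix.trace_sub, Matrix.trace_sub, ← Matrix.mul_assoc,
    ← Matrix.mul_assoc, Matrix.trace_mul_comm (x none * x (some (Sum.inr h))), Matrix.mul_assoc,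
    Matrix.mul_assoc]

/-- Block triangular matrices. -/
def Basic_Tri (q : Finset β) (M : Matrix β β ℂ) : Prop := ∀ l k, k ∈ q → l ∉ q → M l k = 0

/-- The block diagonal part. -/
def Basic_dg (q : Finset β) (M : Matrix β β ℂ) : Matrix β β ℂ :=
  Matrix.of fun l k => if (l ∈ q ↔ k ∈ q) then M l k else 0

section tri
variable {q : Finset β} {M N : Matrix β β ℂ}

theorem Basic_Tri.mul (hM : Basic_Tri q M) (hN : Basic_Tri q N) : Basic_Tri q (M * N) := by
  intro l k hk hl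
  by_contra hn
  obtain ⟨m, h1, h2⟩ := Basic_mul_ne hn
  by_cases hm : m ∈ q
  · exact h1 (hM l m hm hl)
  · exact h2 (hN m k hk hm)
theorem Basic_Tri.sub (hM : Basic_Tri q M) (hN : Basic_Tri q N) : Basic_Tri q (M - N) := by
  intro l k hk hl
  rw [Matrix.sub_apply, hM l k hk hl, hN l k hk hl, sub_self]
theorem Basic_Tri_one : Basic_Tri q 1 := fun l k hk hl =>
  Matrix.one_apply_ne fun h => hl (by rw [h]; exact hk)
theorem Basic_Tri.pow (hM : Basic_Tri q M) (n : ℕ) : Basic_Tri q (M ^ n) := by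
  induction n with
  | zero => rw [pow_zero]; exact Basic_Tri_one
  | succ n ih => rw [pow_succ]; exact ih.mul hM
theorem Basic_dg_mul (hM : Basic_Tri q M) (hN : Basic_Tri q N) :
    Basic_dg q (M * N) = Basic_dg q M * Basic_dg q N := by
  ext l k
  simp only [Basic_dg, Matrix.of_apply, Matrix.mul_apply]
  by_cases h : (l ∈ q ↔ k ∈ q)
  · rw [if_pos h]
    refine Finset.sum_congr rfl fun m _ => ?_
    by_cases hm : m ∈ q <;> by_cases hl : l ∈ q
    · simp [hm, hl, h.1 hl]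
    · simp [hm, hl, hM l m hm hl]
    · simp [hm, hl, hN m k (h.1 hl) hm]
    · have hk : k ∉ q := fun h' => hl (h.2 h')
      simp [hm, hl, hk]
  · rw [if_neg h]
    refine (Finset.sum_eq_zero fun m _ => ?_).symm
    by_cases h1 : (l ∈ q ↔ m ∈ q)
    · rw [if_neg fun h2 : (m ∈ q ↔ k ∈ q) => h (h1.trans h2), mul_zero]
    · rw [if_neg h1, zero_mul]
theorem Basic_dg_sub (M N : Matrix β β ℂ) : Basic_dg q (M - N) = Basic_dg q M - Basic_dg q N := by
  ext l k
  simp only [Basic_dg, Matrix.of_apply, Matrix.sub_apply]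
  split_ifs <;> simp
theorem Basic_dg_one : Basic_dg q 1 = 1 := by
  ext l k
  simp only [Basic_dg, Matrix.of_apply]
  by_cases h : l = k
  · simp [h]
  · simp [Matrix.one_apply_ne h]
theorem Basic_dg_zero : Basic_dg q 0 = 0 := by
  ext l k
  simp [Basic_dg]
theorem Basic_dg_pow (hM : Basic_Tri q M) (n : ℕ) : Basic_dg q (M ^ n) = Basic_dg q M ^ n := by
  induction n with
  | zero => rw [pow_zero, pow_zero, Basic_dg_one]
  | succ n ih => rw [pow_succ, pow_succ, Basic_dg_mul (hM.pow n) hM, ih]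
theorem Basic_trace_dg (M : Matrix β β ℂ) : Matrix.trace (Basic_dg q M) = Matrix.trace M := by
  simp [Matrix.trace, Basic_dg]
theorem Basic_sq_zero (hM : Basic_Tri q M) (h : Basic_dg q M = 0) : M * M = 0 := by
  have h1 : ∀ l k, M l k ≠ 0 → l ∈ q ∧ k ∉ q := by
    intro l k hlk
    have h2 : ¬ (l ∈ q ↔ k ∈ q) := fun h' => by
      have := congrFun (congrFun h l) k
      rw [Basic_dg, Matrix.of_apply, if_pos h'] at this
      exact hlk this
    have h3 : ¬ (k ∈ q ∧ l ∉ q) := fun h' => hlk (hM l k h'.1 h'.2)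
    tauto
  ext l k
  by_contra hn
  obtain ⟨m, a1, a2⟩ := Basic_mul_ne hn
  exact (h1 l m a1).2 (h1 m k a2).1

end tri

theorem Basic_tri_PP {sl : β → Λ} {q : Finset β} {x : UU β Ar} (hx : x ∈ LinS co (D.PP sl q))
    (γ : Gam Ar) : Basic_Tri q (x γ) ∧ trunc (D.PU (spl sl q)) x γ = Basic_dg q (x γ) := by
  constructor
  · intro l k hk hl
    by_contra hn
    exact hl ((Finset.mem_filter.1 (Basic_mem_of_ne hx hn)).2 hk)
  · ext l k
    simp only [trunc, Basic_dg, Matrix.of_apply]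
    by_cases h0 : x γ l k = 0
    · simp [h0]
    · have h1 := D.Basic_mem_PU.1 (Finset.mem_filter.1 (Basic_mem_of_ne hx h0)).1
      have h2 : (γ, l, k) ∈ D.PU (spl sl q) ↔ (l ∈ q ↔ k ∈ q) := by
        rw [Basic_mem_PU]
        simp only [spl, Prod.mk.injEq, decide_eq_decide]
        exact ⟨fun h => h.2.2, fun h => ⟨h1.1, h1.2, h⟩⟩
      simp only [h2]
theorem Wf_trunc_PP {sl : β → Λ} {q : Finset β} {x : UU β Ar} (hx : x ∈ LinS co (D.PP sl q)) :
    Wf (trunc (D.PU (spl sl q)) x) = Wf x := by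
  have ht := fun γ => (D.Basic_tri_PP hx γ).1
  rw [Wf_eq, Wf_eq]
  refine Finset.sum_congr rfl fun h _ => ?_
  simp only [(D.Basic_tri_PP hx _).2]
  rw [← Basic_dg_mul (ht _) (ht _), ← Basic_dg_mul (ht _) (ht _), ← Basic_dg_sub,
    ← Basic_dg_mul (((ht _).mul (ht _)).sub ((ht _).mul (ht _))) (ht _), Basic_trace_dg]
theorem nilp_trunc_PP {sl : β → Λ} {q : Finset β} {x : UU β Ar} (hx : x ∈ LinS co (D.PP sl q)) :
    IsNilpotent (trunc (D.PU (spl sl q)) x none) ↔ IsNilpotent (x none) := by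
  obtain ⟨ht, he⟩ := D.Basic_tri_PP hx none
  rw [he]
  constructor
  · rintro ⟨n, hn⟩
    rw [← Basic_dg_pow ht] at hn
    exact ⟨n + n, by rw [pow_add, Basic_sq_zero (ht.pow n) hn]⟩
  · rintro ⟨n, hn⟩
    exact ⟨n, by rw [← Basic_dg_pow ht, hn, Basic_dg_zero]⟩
theorem Basic_nilp_of_lt {M : Matrix β β ℂ} {ρ : β → ℕ} (h : ∀ l k, M l k ≠ 0 → ρ l < ρ k) :
    IsNilpotent M := by
  have h1 : ∀ n l k, (M ^ n) l k ≠ 0 → ρ l + n ≤ ρ k := by
    intro n
    induction n with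
    | zero =>
      intro l k hlk
      rw [pow_zero] at hlk
      by_cases e : l = k
      · rw [e]
        omega
      · exact absurd (Matrix.one_apply_ne e) hlk
    | succ n ih =>
      intro l k hlk
      rw [pow_succ] at hlk
      obtain ⟨m, a1, a2⟩ := Basic_mul_ne hlk
      have := ih l m a1
      have := h m k a2
      omega
  refine ⟨Finset.univ.sup ρ + 1, ?_⟩
  ext l k
  by_contra hn
  have h2 := h1 _ l k hn
  have h3 : ρ k ≤ Finset.univ.sup ρ := Finset.le_sup (Finset.mem_univ k)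
  omega
theorem PY_subset_Zs (sl : β → Λ) (ρ : β → ℕ) :
    LinS co (D.PY sl ρ) ⊆ Zs (D.Om sl) ∧ ∀ x ∈ LinS co (D.PY sl ρ), Wf x = 0 := by
  have h1 : ∀ x ∈ LinS co (D.PY sl ρ), ∀ l k, x none l k ≠ 0 → ρ l < ρ k := fun x hx l k h => by
    simpa using (Finset.mem_filter.1 (Basic_mem_of_ne hx h)).2
  have h2 : ∀ x ∈ LinS co (D.PY sl ρ), ∀ γ l k, x (some γ) l k ≠ 0 → ρ l ≤ ρ k :=
    fun x hx γ l k h => by simpa using (Finset.mem_filter.1 (Basic_mem_of_ne hx h)).2
  have h3 : ∀ x ∈ LinS co (D.PY sl ρ), Wf x = 0 := by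
    intro x hx
    refine Finset.sum_eq_zero fun l _ => ?_
    by_contra hn
    obtain ⟨m, a1, a2⟩ := Basic_mul_ne hn
    have b1 := h1 x hx l m a1
    obtain ⟨a, j, h | h⟩ := Basic_mu_ne a2
    all_goals
      have b2 := h2 x hx _ _ _ h.1
      have b3 := h2 x hx _ _ _ h.2
      omega
  refine ⟨fun x hx => ⟨⟨LinS_mono _ (Finset.filter_subset _ _) hx,
    Basic_nilp_of_lt (h1 x hx)⟩, ?_⟩, h3⟩
  show 0 ≤ (Wf x).re
  rw [h3 x hx, Complex.zero_re]
theorem invX_Zs {L : Set (Matrix (β ⊕ τ) (β ⊕ τ) ℂ)} (hL : L ⊆ D.K (one β)) {S : Set (UU β Ar)}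
    (hS : InvX L D.act S) : InvX L D.act (Zs S) := fun u hu x hx => ⟨hS u hu x hx.1, by
  show 0 ≤ (Wf (D.act u x)).re
  rw [D.Wf_act (hL hu)]
  exact hx.2⟩
theorem closedIn_Zs (S : Set (UU β Ar)) : ClosedIn (Zs S) S :=
  ⟨_, isClosed_le continuous_const (Complex.continuous_re.comp continuous_Wf), rfl⟩
theorem Zs_closedIn {S S' : Set (UU β Ar)} (h : ClosedIn S' S) : ClosedIn (Zs S') (Zs S) :=
  h.inter_right _
theorem Zs_openIn {S S' : Set (UU β Ar)} (h : OpenIn S' S) : OpenIn (Zs S') (Zs S) :=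
  h.inter_right _
theorem Zs_diff (S S' : Set (UU β Ar)) : Zs (S \ S') = Zs S \ Zs S' := by
  ext x
  simp only [Zs, mem_inter_iff, Set.mem_sdiff]
  tauto
theorem Basic_nilp_iff (M : Matrix β β ℂ) : IsNilpotent M ↔ M ^ Fintype.card β = 0 := by
  refine ⟨fun h => ?_, fun h => ⟨_, h⟩⟩
  have h1 := (Matrix.isNilpotent_charpoly_sub_pow_of_isNilpotent h).eq_zero
  have h2 := Matrix.aeval_self_charpoly M
  rwa [sub_eq_zero.1 h1, map_pow, Polynomial.aeval_X] at h2
theorem isClosed_nilp : IsClosed {x : UU β Ar | IsNilpotent (x none)} := by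
  simp only [Basic_nilp_iff]
  exact isClosed_eq ((continuous_apply none).pow _) continuous_const
theorem isClosed_Om (sl : β → Λ) : IsClosed (D.Om sl) := (D.amb.isClosed _).inter isClosed_nilp
theorem invX_Om (sl : β → Λ) : InvX (D.K sl) D.act (D.Om sl) := by
  intro u hu x hx
  refine ⟨D.invX_U sl u hu x hx.1, IsNilpotent.smul ?_ _⟩
  obtain ⟨n, hn⟩ := hx.2
  have hg := D.Basic_star_gau (D.K_subset sl hu)
  have h1 : ∀ m : ℕ, (gau u * x none * star (gau u)) ^ (m + 1) =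
      gau u * x none ^ (m + 1) * star (gau u) := by
    intro m
    induction m with
    | zero => simp
    | succ m ih => rw [pow_succ, ih, Basic_conj_mul hg, ← pow_succ]
  exact ⟨n + 1, by rw [h1, pow_succ, hn]; simp⟩

section SP
variable {L : Set (Matrix (β ⊕ τ) (β ⊕ τ) ℂ)} {S S' : Set (UU β Ar)}
theorem inv_SP (hL : L ⊆ D.K (one β)) (hS : InvX L D.act S) (n : ℕ) :
    Inv L D.act (S ×ˢ Inj D.lab0 n) := Inv.prod hS (invF_Inj hL n)
theorem nice_Bor (hg : IsGrp L) (hL : L ⊆ D.K (one β)) : Nice (Bor L D.act) :=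
  ((D.isAct_K _).mono hg hL).nice
theorem lc_SP (hg : IsGrp L) (hL : L ⊆ D.K (one β)) (hS : InvX L D.act S) (hl : LC S) (n : ℕ) :
    LC (D.SP L S n) := by
  rw [SP, BS_eq]
  exact ((D.isAct_K _).mono hg hL).lc_BI (D.inv_SP hL hS n) (hl.prod (lc_Inj _ n))
theorem closedIn_SP (hg : IsGrp L) (hL : L ⊆ D.K (one β)) (hS : InvX L D.act S)
    (h : ClosedIn S' S) (n : ℕ) : ClosedIn (D.SP L S' n) (D.SP L S n) := by
  rw [SP, SP, BS_eq, BS_eq]
  refine ((D.isAct_K _).mono hg hL).closedIn_BI (D.inv_SP hL hS n) ?_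
  obtain ⟨F, hF, rfl⟩ := h
  refine ⟨F ×ˢ univ, hF.prod isClosed_univ, ?_⟩
  rw [prod_inter_prod, inter_univ]
theorem openIn_SP (hg : IsGrp L) (hL : L ⊆ D.K (one β)) (hS : InvX L D.act S)
    (h : OpenIn S' S) (n : ℕ) : OpenIn (D.SP L S' n) (D.SP L S n) := by
  rw [SP, SP, BS_eq, BS_eq]
  refine ((D.isAct_K _).mono hg hL).openIn_BI (D.inv_SP hL hS n) ?_
  obtain ⟨F, hF, rfl⟩ := h
  refine ⟨F ×ˢ univ, hF.prod isOpen_univ, ?_⟩
  rw [prod_inter_prod, inter_univ]
theorem SP_diff (hg : IsGrp L) (hL : L ⊆ D.K (one β)) (hS' : InvX L D.act S') (n : ℕ) :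
    D.SP L (S \ S') n = D.SP L S n \ D.SP L S' n := by
  rw [SP, SP, SP, BS_eq, BS_eq, BS_eq,
    ← ((D.isAct_K _).mono hg hL).BI_diff _ (D.inv_SP hL hS' n)]
  congr 1
  ext p
  simp only [Set.mem_prod, Set.mem_sdiff]
  tauto
theorem subsingleton_SP (hg : IsGrp L) (hL : L ⊆ D.K (one β)) (hS : InvX L D.act S) (hl : LC S)
    (h0 : Subsingleton (Hc S)) (n : ℕ) : Subsingleton (Hc (D.SP L S n)) :=
  ((D.isAct_K _).mono hg hL).vanish_fibres hS (invF_Inj hL n) (freeOn_Inj hL n) (lc_Inj _ n) hl h0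
end SP

end HD

end Pool.Agent.HK
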