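import Pool.Agent.P.MP_1206ce_ag.HG.Stab
import Pool.Agent.P.MP_1206ce_ag.LV.Fit
import Pool.Agent.P.MP_1206ce_ag.LV.Dbl

/-! Consequences of the vanishing lemma V. -/

open scoped Topology
open Filter Set

noncomputable section

namespace Pool.Agent.HK

namespace HD

variable {β I Ar τ Λ Λ' : Type} [Fintype β] [DecidableEq β] [Fintype I] [DecidableEq I] [Fintype Ar]
  [DecidableEq Ar] [Fintype τ] [DecidableEq τ] [DecidableEq Λ] [DecidableEq Λ'] (D : HD β I Ar τ)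

variable {th : I → ℤ} {k₀ : β}

theorem LemV_inv {x : UU β Ar} {S : Submodule ℂ (β → ℂ)} :
    InvAll (cut Option.isSome x) S ↔ InvXi x S :=
  ⟨fun h γ => h (some γ), fun h γ => by
    cases γ with
    | none => intro z _; simp [cut]
    | some γ => exact h γ⟩

theorem LemV_Xs : D.Xs th = D.U (one β) ∩ cut Option.isSome ⁻¹' D.SS th := by
  ext x
  simp only [Xs, SS, mem_inter_iff, mem_preimage, mem_ofPred_eq, LemV_inv]

theorem LemV_b (hg : D.Gen0 th k₀) (a : Matrix β β ℂ) : Subsingleton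
    (Hc (D.Bs (one β) a univ ∩ (D.SS th \ cut Option.isSome ⁻¹' D.SS th))) :=
  D.lemV_one hg.tot (.inl ⟨rfl, fun _ => rfl⟩)

theorem LemV_open (hg : D.Gen0 th k₀) : IsOpen (D.SS th) := by
  obtain ⟨key, hk⟩ := D.exists_key th
  rw [← D.ole_univ hk hg.tot]
  exact D.isOpen_Ole _ _ _

/-- (V1). -/
theorem vanish1 (hg : D.Gen0 th k₀) : Subsingleton (Hc (Zs (D.A1 th \ D.Xs th))) := by
  have hl : LC (D.A1 th \ D.Xs th) := by
    obtain ⟨O, hO, e⟩ := D.openIn_Xs th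
    refine ((LC.of_isClosed (D.isClosed_Om (one β))).openIn (D.openIn_A1 th)).closedIn
      ⟨Oᶜ, hO.isClosed_compl, Set.ext fun x => ?_⟩
    rw [e]
    exact ⟨fun h => ⟨h.1, fun h' => h.2 ⟨h.1.1.1, h'⟩⟩, fun h => ⟨h.1, fun h' => h.2 h'.2⟩⟩
  refine vanish (hl.closedIn (closedIn_Zs _)) (f := fun x => x none)
    (continuous_apply none).continuousOn fun a => ?_
  by_cases ha : IsNilpotent a
  · convert D.LemV_b hg a using 2
    ext x
    rw [D.LemV_Xs]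
    constructor
    · rintro ⟨⟨⟨h1, h2⟩, h3⟩, h4⟩
      exact ⟨⟨h1.1.1, h4, trivial, h3⟩, h1.2, fun h => h2 ⟨h1.1.1, h⟩⟩
    · rintro ⟨⟨h1, h2, -, h3⟩, h4, h5⟩
      exact ⟨⟨⟨⟨⟨h1, h2 ▸ ha⟩, h4⟩, fun h => h5 h.2⟩, h3⟩, h2⟩
  · have : Zs (D.A1 th \ D.Xs th) ∩ (fun x => x none) ⁻¹' {a} = ∅ :=
      eq_empty_of_forall_notMem fun x hx => ha ((show x none = a from hx.2) ▸ hx.1.1.1.1.2)
    rw [this]
    infer_instance

/-- (V2). -/
theorem vanish2 (hg : D.Gen0 th k₀) :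
    Subsingleton (Hc (Zs ((D.Xs th ∩ G0 k₀) \ D.Om (one β)))) := by
  have hl : LC ((D.Xs th ∩ G0 k₀) \ D.Om (one β)) := by
    have h1 : LC (D.Xs th ∩ G0 k₀) :=
      ((LC.of_isClosed (isClosed_LinS_co _)).openIn (D.openIn_Xs th)).closedIn
        ⟨G0 k₀, isClosed_eq (by fun_prop) continuous_const, rfl⟩
    exact h1.openIn ⟨(D.Om (one β))ᶜ, (D.isClosed_Om _).isOpen_compl, rfl⟩
  refine vanish (hl.closedIn (closedIn_Zs _)) (f := fun x => x none)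
    (continuous_apply none).continuousOn fun a => ?_
  rcases (Zs ((D.Xs th ∩ G0 k₀) \ D.Om (one β)) ∩ (fun x => x none) ⁻¹' {a}).eq_empty_or_nonempty
    with he | ⟨x₀, ⟨⟨⟨hx, hx0⟩, hxn⟩, -⟩, hxa⟩
  · rw [he]
    infer_instance
  obtain rfl : x₀ none = a := hxa
  have hn : ¬ IsNilpotent (x₀ none) := fun h => hxn ⟨hx.1, h⟩
  obtain ⟨q, g, g', q1, q2, g1, g2, g3, g4, hf⟩ := D.exists_fit (a := x₀ none)
    (fun l k h => by simpa [ok] using (D.mem_U.1 hx.1 none l k h).1) hg.single hx0 hn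
  have hT := (D.conj_gl (th := th) (a := x₀ none) g1 g2 g3 g4).subsingleton
    (D.vanish_fit hg q1 q2 hf)
  have hO := D.LemV_open hg
  refine subsingleton_open (A := D.Bs (one β) (x₀ none) univ ∩ D.SS th)
    ((D.lc_Bs _ _ LC.univ).openIn ⟨_, hO, rfl⟩)
    ⟨(cut Option.isSome ⁻¹' D.SS th)ᶜ, (hO.preimage (continuous_cut _)).isClosed_compl,
      (inter_assoc _ _ _).symm⟩ (Set.ext fun x => ?_) hT (D.LemV_b hg (x₀ none))
  rw [D.LemV_Xs]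
  constructor
  · rintro ⟨⟨⟨⟨⟨h1, h2⟩, -⟩, -⟩, h3⟩, h4⟩
    exact ⟨⟨⟨h1, h4, trivial, h3⟩, fun S s1 s2 => h2 S s1 (s2.cut _)⟩, fun h => h.2.2 h2⟩
  · rintro ⟨⟨⟨h1, h2, h0, h3⟩, h4⟩, h5⟩
    refine ⟨⟨⟨⟨⟨h1, by_contra fun h => h5 ⟨⟨h1, h2, h0, h3⟩, h4, h⟩⟩, ?_⟩,
      fun h => hn (h2 ▸ h.2)⟩, h3⟩, h2⟩
    change x none k₀ k₀ = 0
    rw [h2]
    exact hx0

end HD

end Pool.Agent.HK
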