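import Pool.Agent.P.MP_1206ce_ag.HG.Stab

/-! Stable points: Schur lemma, smoothness of the moment map, half-space vanishing. -/

open scoped Topology
open Filter Set

noncomputable section

namespace Pool.Agent.HK

/-- Implicit function theorem for a quadratic map. -/
theorem Schur_impl {ι κ : Type} [Fintype ι] [Fintype κ]
    (B : (ι → ℂ) →ₗ[ℂ] (ι → ℂ) →ₗ[ℂ] (κ → ℂ)) (c₀ : ι → ℂ)
    (hs : ∀ φ : (κ → ℂ) →ₗ[ℂ] ℂ, (∀ v, φ (B c₀ v + B v c₀) = 0) → φ = 0) (h0 : B c₀ c₀ = 0)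
    {V : Set (ι → ℂ)} (hV : IsOpen V) (hc : c₀ ∈ V) :
    ∃ (K : Submodule ℝ (ι → ℂ)) (r : ℝ) (N : Set (ι → ℂ)) (f : (ι → ℂ) → (κ → ℂ) × K)
      (g : (κ → ℂ) × K → (ι → ℂ)), 0 < r ∧ IsOpen N ∧ c₀ ∈ N ∧ N ⊆ V ∧
      HomeoOn f g N (Metric.ball 0 r ×ˢ Metric.ball 0 r) ∧ ∀ c, (f c).1 = B c c := by
  let B' : (ι → ℂ) →L[ℂ] (ι → ℂ) →L[ℂ] (κ → ℂ) := LinearMap.toContinuousLinearMap
    ((LinearMap.toContinuousLinearMap :
      ((ι → ℂ) →ₗ[ℂ] (κ → ℂ)) ≃ₗ[ℂ] ((ι → ℂ) →L[ℂ] (κ → ℂ))).toLinearMap ∘ₗ B)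
  have hB' : ∀ x y, B' x y = B x y := fun x y => rfl
  have hd : HasStrictFDerivAt (fun c => B' c c)
      ((B' c₀).comp (ContinuousLinearMap.id ℂ _) + B'.flip c₀) c₀ :=
    B'.hasStrictFDerivAt.clm_apply (hasStrictFDerivAt_id c₀)
  have hr : ((B' c₀).comp (ContinuousLinearMap.id ℂ _) + B'.flip c₀).range = ⊤ := by
    by_contra hne
    obtain ⟨φ, hφ, hle⟩ := Submodule.exists_le_ker_of_lt_top _ (lt_top_iff_ne_top.2 hne)
    exact hφ (hs φ fun v => hle ⟨v, rfl⟩)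
  have hd' := hd.restrictScalars ℝ
  have hr' : (((B' c₀).comp (ContinuousLinearMap.id ℂ _) + B'.flip c₀).restrictScalars
      ℝ).range = ⊤ := by
    rw [LinearMap.range_eq_top] at hr ⊢
    exact hr
  set Φ := hd'.implicitToOpenPartialHomeomorph _ _ hr' with hΦ
  have hsrc : c₀ ∈ Φ.source := hd'.mem_implicitToOpenPartialHomeomorph_source hr'
  have hΦ0 : Φ c₀ = 0 := by
    rw [hΦ, hd'.implicitToOpenPartialHomeomorph_self hr', hB', h0]
    rfl
  have ho : IsOpen (Φ.target ∩ Φ.symm ⁻¹' V) := Φ.isOpen_inter_preimage_symm hV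
  have hm : (0 : (κ → ℂ) × _) ∈ Φ.target ∩ Φ.symm ⁻¹' V := by
    rw [← hΦ0]
    exact ⟨Φ.map_source hsrc, by rw [mem_preimage, Φ.left_inv hsrc]; exact hc⟩
  obtain ⟨r, hr0, hb⟩ := Metric.isOpen_iff.1 ho 0 hm
  refine ⟨_, r, Φ.source ∩ Φ ⁻¹' Metric.ball 0 r, Φ, Φ.symm, hr0,
    Φ.isOpen_inter_preimage Metric.isOpen_ball, ⟨hsrc, ?_⟩, fun c hc' => ?_, ?_, fun c => rfl⟩
  · rw [mem_preimage, hΦ0]
    exact Metric.mem_ball_self hr0
  · have := (hb hc'.2).2
    rwa [mem_preimage, Φ.left_inv hc'.1] at this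
  · rw [ball_prod_same]
    refine ⟨Φ.continuousOn.mono inter_subset_left,
      Φ.continuousOn_symm.mono fun y hy => (hb hy).1, fun c hc' => hc'.2, fun y hy => ?_,
      fun c hc' => Φ.left_inv hc'.1, fun y hy => Φ.right_inv (hb hy).1⟩
    refine ⟨Φ.map_target (hb hy).1, ?_⟩
    rw [mem_preimage, Φ.right_inv (hb hy).1]
    exact hy

theorem Schur_thd_add {I : Type} [Fintype I] (th : I → ℤ) (d d' : I → ℕ) :
    thd th (d + d') = thd th d + thd th d' := by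
  simp only [thd, Pi.add_apply, Nat.cast_add, mul_add, Finset.sum_add_distrib]

/-- The real part of a complex linear form on coordinates. -/
def Schur_ell {κ : Type} [Fintype κ] (a : κ → ℂ) : (κ → ℂ) →ₗ[ℝ] ℝ where
  toFun m := (∑ p, m p * a p).re
  map_add' m m' := by
    simp only [Pi.add_apply, add_mul, Finset.sum_add_distrib, Complex.add_re]
  map_smul' t m := by
    simp only [Pi.smul_apply, smul_mul_assoc, ← Finset.smul_sum, Complex.smul_re, RingHom.id_apply]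

theorem Schur_ell_apply {κ : Type} [Fintype κ] (a m : κ → ℂ) :
    Schur_ell a m = (∑ p, m p * a p).re := rfl

theorem Schur_ell_ne {κ : Type} [Fintype κ] {a : κ → ℂ} {p : κ} (hp : a p ≠ 0) :
    Schur_ell a ≠ 0 := by
  classical
  intro h
  have h1 : Schur_ell a (Pi.single p (a p)⁻¹) = 0 := by rw [h]; rfl
  rw [Schur_ell_apply, Finset.sum_eq_single p (fun q _ hq => by simp [hq]) (by simp),
    Pi.single_eq_same, inv_mul_cancel₀ hp] at h1
  simp at h1

namespace HD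

variable {β I Ar τ Λ Λ' : Type} [Fintype β] [DecidableEq β] [Fintype I] [DecidableEq I] [Fintype Ar]
  [DecidableEq Ar] [Fintype τ] [DecidableEq τ] [DecidableEq Λ] [DecidableEq Λ'] (D : HD β I Ar τ)

variable {th : I → ℤ} {k₀ : β}

theorem stable (hg : D.Gen0 th k₀) {x : UU β Ar} (hx : x ∈ D.Xs th) {S : Submodule ℂ (β → ℂ)}
    (hS : D.Gr S) (hi : InvXi x S) (h0 : S ≠ ⊥) (h1 : S ≠ ⊤) : thd th (D.dimS S) < 0 := by
  have hle : S ≤ Vq Finset.univ := le_top.trans (Vq_univ (β := β)).ge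
  refine lt_of_le_of_ne (hx.2 S hS hi) (hg.gen _ (D.dimS_le_dimv hle) ?_ ?_)
  · intro h
    exact h0 (Gr.eq_of_dimS D.gr_bot hS bot_le (D.dimS_bot.trans h.symm)).symm
  · intro h
    refine h1 ((Gr.eq_of_dimS hS (D.gr_Vq Finset.univ) hle ?_).trans Vq_univ)
    rw [h, D.dimS_Vq]

theorem schur (hg : D.Gen0 th k₀) {x y : UU β Ar} (hx : x ∈ D.Xs th) (hy : y ∈ D.Xs th)
    {g : Matrix β β ℂ} (hb : ∀ k l, g k l ≠ 0 → D.v k = D.v l)
    (hc : ∀ γ, g * x (some γ) = y (some γ) * g) : g = 0 ∨ g.det ≠ 0 := by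
  have hT : D.Gr ⊤ := Vq_univ (β := β) ▸ D.gr_Vq Finset.univ
  obtain ⟨hR, hK, hd⟩ := hT.map hb
  have hKi : InvXi x (⊤ ⊓ LinearMap.ker g.mulVecLin) := by
    intro γ z hz
    refine ⟨Submodule.mem_top, ?_⟩
    have h1 : g.mulVec z = 0 := hz.2
    change g.mulVec ((x (some γ)).mulVec z) = 0
    rw [Matrix.mulVec_mulVec, hc, ← Matrix.mulVec_mulVec, h1, Matrix.mulVec_zero]
  have hRi : InvXi y (Submodule.map g.mulVecLin ⊤) := by
    rintro γ _ ⟨z, -, rfl⟩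
    refine ⟨(x (some γ)).mulVec z, Submodule.mem_top, ?_⟩
    change g.mulVec ((x (some γ)).mulVec z) = (y (some γ)).mulVec (g.mulVec z)
    rw [Matrix.mulVec_mulVec, hc, Matrix.mulVec_mulVec]
  have ht : thd th (D.dimS ⊤) = 0 := by rw [← Vq_univ, D.dimS_Vq, hg.tot]
  rw [hd, Schur_thd_add] at ht
  have h1 := hx.2 _ hK hKi
  by_cases h0 : Submodule.map g.mulVecLin ⊤ = ⊥
  · left
    ext k l
    have h2 : g.mulVecLin (Pi.single l 1) ∈ Submodule.map g.mulVecLin ⊤ :=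
      ⟨_, Submodule.mem_top, rfl⟩
    rw [h0, Submodule.mem_bot] at h2
    simpa using congrFun h2 k
  · right
    have h2 : Submodule.map g.mulVecLin ⊤ = ⊤ := by
      by_contra h3
      have := D.stable hg hy hR hRi h0 h3
      omega
    rw [Submodule.map_top, LinearMap.range_eq_top] at h2
    exact ((Matrix.isUnit_iff_isUnit_det g).1 (Matrix.mulVec_surjective_iff_isUnit.1 h2)).ne_zero

theorem schur_zero (hg : D.Gen0 th k₀) {x y : UU β Ar} (hx : x ∈ D.Xs th) (hy : y ∈ D.Xs th)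
    {g : Matrix β β ℂ} (hb : ∀ k l, g k l ≠ 0 → D.v k = D.v l)
    (hc : ∀ γ, g * x (some γ) = y (some γ) * g) (h0 : g k₀ k₀ = 0) : g = 0 := by
  refine (D.schur hg hx hy hb hc).resolve_right fun h => h ?_
  refine Matrix.det_eq_zero_of_column_eq_zero k₀ fun l => ?_
  by_contra hne
  have := hg.single l (hb l k₀ hne)
  exact hne (this ▸ h0)

theorem Schur_mem_U {x : UU β Ar} :
    x ∈ D.U (one β) ↔ ∀ γ l k, x γ l k ≠ 0 → D.ok γ l k = true := by
  constructor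
  · intro h γ l k hne
    by_contra hn
    exact hne (h (γ, l, k) fun hm => hn (Finset.mem_filter.1 hm).2.1)
  · intro h p hp
    by_contra hne
    exact hp (Finset.mem_filter.2 ⟨Finset.mem_univ _, h _ _ _ hne, rfl⟩)

theorem Schur_mem_PX {p : Gam Ar × β × β} :
    p ∈ D.PX ↔ D.ok p.1 p.2.1 p.2.2 = true ∧ p.1 ≠ none := by
  simp [PX, PU]

theorem Schur_ok_congr (γ : Gam Ar) {l k l' k' : β} (hl : D.v l = D.v l') (hk : D.v k = D.v k') :
    D.ok γ l k = D.ok γ l' k' := by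
  rcases γ with _ | h | h <;> simp only [ok, hl, hk]

theorem Schur_ok_none {l k : β} : D.ok none l k = true ↔ D.v l = D.v k := by simp [ok]

/-- Replacing the loop. -/
def Schur_set (a : Matrix β β ℂ) (y : UU β Ar) : UU β Ar := fun γ => γ.elim a fun δ => y (some δ)

theorem Schur_mu_set (a : Matrix β β ℂ) (y : UU β Ar) : mu (Schur_set a y) = mu y := rfl

theorem Schur_continuous_set :
    Continuous fun q : Matrix β β ℂ × UU β Ar => Schur_set q.1 q.2 := by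
  refine continuous_pi fun γ => ?_
  cases γ with
  | none => exact continuous_fst
  | some δ => exact (continuous_apply (some δ)).comp continuous_snd

theorem Schur_trunc_some {x : UU β Ar} (hx : x ∈ D.U (one β)) (δ : Ar ⊕ Ar) :
    trunc D.PX x (some δ) = x (some δ) := by
  ext l k
  change (if (some δ, l, k) ∈ D.PX then x (some δ) l k else 0) = _
  split_ifs with h
  · rfl
  · by_contra hne
    exact h (D.Schur_mem_PX.2 ⟨D.Schur_mem_U.1 hx _ _ _ (Ne.symm hne), by simp⟩)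

theorem Schur_trunc_none (x : UU β Ar) : trunc D.PX x none = 0 := by
  ext l k
  change (if (none, l, k) ∈ D.PX then x none l k else 0) = _
  rw [if_neg fun h => (D.Schur_mem_PX.1 h).2 rfl]
  rfl

theorem Schur_trunc_eq {x : UU β Ar} (hx : x ∈ D.U (one β)) : trunc D.PX x = Schur_set 0 x := by
  funext γ
  cases γ with
  | none => exact D.Schur_trunc_none x
  | some δ => exact D.Schur_trunc_some hx δ

theorem Schur_set_self (x : UU β Ar) : Schur_set (x none) x = x := by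
  funext γ
  cases γ <;> rfl

theorem Schur_set_mem_U {a : Matrix β β ℂ} {y : UU β Ar} (hy : y ∈ D.U (one β))
    (ha : ∀ l k, a l k ≠ 0 → D.v l = D.v k) : Schur_set a y ∈ D.U (one β) := by
  refine D.Schur_mem_U.2 fun γ l k hne => ?_
  cases γ with
  | none => exact D.Schur_ok_none.2 (ha l k hne)
  | some δ => exact D.Schur_mem_U.1 hy (some δ) l k hne

theorem Schur_set_mem_Xs {a : Matrix β β ℂ} {y : UU β Ar} (hy : y ∈ D.Xs th)
    (ha : ∀ l k, a l k ≠ 0 → D.v l = D.v k) : Schur_set a y ∈ D.Xs th :=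
  ⟨D.Schur_set_mem_U hy.1 ha, hy.2⟩

theorem Schur_block {x : UU β Ar} (hx : x ∈ D.U (one β)) (l k : β) (h : x none l k ≠ 0) :
    D.v l = D.v k := D.Schur_ok_none.1 (D.Schur_mem_U.1 hx none l k h)

/-- Block diagonal positions other than the framing position. -/
abbrev Schur_J (k₀ : β) : Type := {p : β × β // D.v p.1 = D.v p.2 ∧ p ≠ (k₀, k₀)}

theorem Schur_sumJ (k₀ : β) (t : β × β → ℂ)
    (ht : ∀ p, t p ≠ 0 → D.v p.1 = D.v p.2 ∧ p ≠ (k₀, k₀)) :
    ∑ p, t p = ∑ p : D.Schur_J k₀, t p.1 := by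
  rw [← Finset.sum_subtype (Finset.univ.filter fun p : β × β => D.v p.1 = D.v p.2 ∧ p ≠ (k₀, k₀))
    (by simp)]
  exact (Finset.sum_filter_of_ne fun p _ hp => ht p hp).symm

theorem Schur_trace {a : Matrix β β ℂ} (ha : ∀ l k, a l k ≠ 0 → D.v l = D.v k)
    (h0 : a k₀ k₀ = 0) (M : Matrix β β ℂ) :
    Matrix.trace (a * M) = ∑ p : D.Schur_J k₀, a p.1.1 p.1.2 * M p.1.2 p.1.1 ∧
      Matrix.trace (a * M) = ∑ p : D.Schur_J k₀, M p.1.1 p.1.2 * a p.1.2 p.1.1 := by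
  constructor
  · rw [← D.Schur_sumJ k₀ (fun p => a p.1 p.2 * M p.2 p.1), Fintype.sum_prod_type]
    · rfl
    · rintro ⟨l, k⟩ hp
      have h1 := left_ne_zero_of_mul hp
      refine ⟨ha _ _ h1, fun h2 => h1 ?_⟩
      obtain ⟨rfl, rfl⟩ := Prod.mk.inj h2
      exact h0
  · rw [← D.Schur_sumJ k₀ (fun p => M p.1 p.2 * a p.2 p.1), Fintype.sum_prod_type,
      Matrix.trace_mul_comm]
    · rfl
    · rintro ⟨l, k⟩ hp
      have h1 := right_ne_zero_of_mul hp
      refine ⟨(ha _ _ h1).symm, fun h2 => h1 ?_⟩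
      obtain ⟨rfl, rfl⟩ := Prod.mk.inj h2
      exact h0

theorem Schur_mu_eq_zero {x : UU β Ar} (hx : x ∈ D.U (one β))
    (h : ∀ p : D.Schur_J k₀, mu x p.1.1 p.1.2 = 0) : mu x = 0 := by
  have h1 : ∀ k l, (k, l) ≠ (k₀, k₀) → mu x k l = 0 := fun k l hkl => by
    by_contra hne
    exact hne (h ⟨(k, l), (D.mu_block hx hne).1, hkl⟩)
  have h2 : mu x k₀ k₀ = 0 := by
    have h3 : ∑ k, mu x k k = 0 := trace_mu x
    rwa [Finset.sum_eq_single k₀
      (fun k _ hk => h1 k k fun h4 => hk (Prod.mk.inj h4).1) (by simp)] at h3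
  ext k l
  by_cases hkl : (k, l) = (k₀, k₀)
  · obtain ⟨rfl, rfl⟩ := Prod.mk.inj hkl
    exact h2
  · exact h1 k l hkl

/-- The matrix with given entries at the positions `J`. -/
def Schur_mat (k₀ : β) (c : D.Schur_J k₀ → ℂ) : Matrix β β ℂ := Matrix.of fun l k =>
  if h : D.v l = D.v k ∧ (l, k) ≠ (k₀, k₀) then c ⟨(l, k), h⟩ else 0

theorem Schur_mat_apply (c : D.Schur_J k₀ → ℂ) (p : D.Schur_J k₀) :
    D.Schur_mat k₀ c p.1.1 p.1.2 = c p := dif_pos p.2

theorem Schur_mat_block (c : D.Schur_J k₀ → ℂ) (l k : β) (h : D.Schur_mat k₀ c l k ≠ 0) :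
    D.v l = D.v k := by
  by_contra hn
  exact h (dif_neg fun h' => hn h'.1)

theorem Schur_mat_zero (c : D.Schur_J k₀ → ℂ) : D.Schur_mat k₀ c k₀ k₀ = 0 :=
  dif_neg fun h' => h'.2 rfl

theorem Schur_mat_eq {a : Matrix β β ℂ} (ha : ∀ l k, a l k ≠ 0 → D.v l = D.v k)
    (h0 : a k₀ k₀ = 0) : D.Schur_mat k₀ (fun p => a p.1.1 p.1.2) = a := by
  ext l k
  change (if h : D.v l = D.v k ∧ (l, k) ≠ (k₀, k₀) then a l k else 0) = _
  split_ifs with h
  · rfl
  · by_contra hne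
    refine h ⟨ha l k (Ne.symm hne), fun h2 => hne ?_⟩
    obtain ⟨rfl, rfl⟩ := Prod.mk.inj h2
    exact h0.symm

theorem Schur_continuous_mat : Continuous (D.Schur_mat k₀) := by
  refine continuous_pi fun l => continuous_pi fun k => ?_
  change Continuous fun c : D.Schur_J k₀ → ℂ =>
    if h : D.v l = D.v k ∧ (l, k) ≠ (k₀, k₀) then c ⟨(l, k), h⟩ else 0
  split_ifs
  · exact continuous_apply _
  · exact continuous_const

/-- The point of `T^* N` with given coordinates. -/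
def Schur_io : (↥D.PX → ℂ) →ₗ[ℂ] UU β Ar where
  toFun c := fun γ => Matrix.of fun l k => if h : (γ, l, k) ∈ D.PX then c ⟨(γ, l, k), h⟩ else 0
  map_add' c c' := by
    ext γ l k
    simp only [Matrix.of_apply, Pi.add_apply, Matrix.add_apply]
    split_ifs <;> simp
  map_smul' t c := by
    ext γ l k
    simp only [Matrix.of_apply, Pi.smul_apply, Matrix.smul_apply, RingHom.id_apply]
    split_ifs <;> simp

theorem Schur_io_apply (c : ↥D.PX → ℂ) (p : Gam Ar × β × β) :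
    co (D.Schur_io c) p = if h : p ∈ D.PX then c ⟨p, h⟩ else 0 := rfl

theorem Schur_io_mem (c : ↥D.PX → ℂ) : D.Schur_io c ∈ LinS co D.PX := fun p hp => by
  rw [D.Schur_io_apply, dif_neg hp]

theorem Schur_co_io (c : ↥D.PX → ℂ) : (fun p : ↥D.PX => co (D.Schur_io c) p.1) = c := by
  funext p
  rw [D.Schur_io_apply, dif_pos p.2]

theorem Schur_io_co {x : UU β Ar} (hx : x ∈ LinS co D.PX) :
    D.Schur_io (fun p : ↥D.PX => co x p.1) = x := by
  ext γ l k
  change co (D.Schur_io _) (γ, l, k) = co x (γ, l, k)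
  rw [D.Schur_io_apply]
  split_ifs with h
  · rfl
  · exact (hx _ h).symm

theorem Schur_continuous_io : Continuous D.Schur_io := by
  refine continuous_pi fun γ => continuous_pi fun l => continuous_pi fun k => ?_
  change Continuous fun c : ↥D.PX → ℂ => if h : (γ, l, k) ∈ D.PX then c ⟨(γ, l, k), h⟩ else 0
  split_ifs
  · exact continuous_apply _
  · exact continuous_const

theorem Schur_continuous_co : Continuous fun (x : UU β Ar) (p : ↥D.PX) => co x p.1 := by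
  refine continuous_pi fun p => ?_
  exact (continuous_apply p.1.1).matrix_elem _ _

/-- The polarisation of the moment map. -/
def Schur_B : UU β Ar →ₗ[ℂ] UU β Ar →ₗ[ℂ] Matrix β β ℂ :=
  LinearMap.mk₂ ℂ (fun x y => ∑ h, (x (some (Sum.inl h)) * y (some (Sum.inr h)) -
      y (some (Sum.inr h)) * x (some (Sum.inl h))))
    (fun x x' y => by
      simp only [Pi.add_apply, add_mul, mul_add, ← Finset.sum_add_distrib]
      exact Finset.sum_congr rfl fun h _ => by abel)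
    (fun t x y => by
      simp only [Pi.smul_apply, Matrix.smul_mul, Matrix.mul_smul, Finset.smul_sum, smul_sub])
    (fun x y y' => by
      simp only [Pi.add_apply, add_mul, mul_add, ← Finset.sum_add_distrib]
      exact Finset.sum_congr rfl fun h _ => by abel)
    (fun t x y => by
      simp only [Pi.smul_apply, Matrix.smul_mul, Matrix.mul_smul, Finset.smul_sum, smul_sub])

theorem Schur_B_apply (x y : UU β Ar) :
    Schur_B x y = ∑ h, (x (some (Sum.inl h)) * y (some (Sum.inr h)) -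
      y (some (Sum.inr h)) * x (some (Sum.inl h))) := rfl

/-- Entries at the positions `J`. -/
def Schur_r (k₀ : β) : Matrix β β ℂ →ₗ[ℂ] (D.Schur_J k₀ → ℂ) where
  toFun M p := M p.1.1 p.1.2
  map_add' _ _ := rfl
  map_smul' _ _ := rfl

theorem Schur_comm_ok {a : Matrix β β ℂ} (ha : ∀ l k, a l k ≠ 0 → D.v l = D.v k) {x : UU β Ar}
    (hx : x ∈ D.U (one β)) (γ : Gam Ar) {l k : β} (h : (a * x γ - x γ * a) l k ≠ 0) :
    D.ok γ l k = true := by
  by_contra hn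
  refine h ?_
  rw [Matrix.sub_apply, Matrix.mul_apply, Matrix.mul_apply, Finset.sum_eq_zero,
    Finset.sum_eq_zero, sub_zero]
  · intro j _
    by_contra hne
    refine hn ?_
    rw [D.Schur_ok_congr γ rfl (ha _ _ (right_ne_zero_of_mul hne)).symm]
    exact D.Schur_mem_U.1 hx γ l j (left_ne_zero_of_mul hne)
  · intro j _
    by_contra hne
    refine hn ?_
    rw [D.Schur_ok_congr γ (ha _ _ (left_ne_zero_of_mul hne)) rfl]
    exact D.Schur_mem_U.1 hx γ j k (right_ne_zero_of_mul hne)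

open scoped ComplexOrder in
/-- A block diagonal matrix that annihilates the image of the derivative commutes with all
arrows. -/
theorem Schur_comm {a : Matrix β β ℂ} (ha : ∀ l k, a l k ≠ 0 → D.v l = D.v k) {x : UU β Ar}
    (hx : x ∈ D.U (one β))
    (h : ∀ v ∈ LinS co D.PX, Matrix.trace (a * (Schur_B x v + Schur_B v x)) = 0) (γ : Ar ⊕ Ar) :
    a * x (some γ) = x (some γ) * a := by
  set C := a * x (some γ) - x (some γ) * a with hC
  have hv : (Pi.single (some γ.swap) C.conjTranspose : UU β Ar) ∈ LinS co D.PX := by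
    rintro ⟨δ, l, k⟩ hp
    change (Pi.single (some γ.swap) C.conjTranspose : UU β Ar) δ l k = 0
    by_cases hδ : δ = some γ.swap
    · subst hδ
      rw [Pi.single_eq_same, Matrix.conjTranspose_apply, star_eq_zero]
      by_contra hne
      have h1 := D.Schur_comm_ok ha hx (some γ) hne
      refine hp (D.Schur_mem_PX.2 ⟨?_, by simp⟩)
      rcases γ with g | g <;> simpa [ok, and_comm] using h1
    · rw [Pi.single_eq_of_ne hδ]
      rfl
  have h1 := h _ hv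
  rw [← sub_eq_zero, ← hC, ← Matrix.trace_mul_conjTranspose_self_eq_zero_iff]
  generalize C.conjTranspose = M at h1 ⊢
  rcases γ with g | g
  · have h2 : Schur_B x (Pi.single (some (Sum.inr g)) M) +
        Schur_B (Pi.single (some (Sum.inr g)) M) x
        = x (some (Sum.inl g)) * M - M * x (some (Sum.inl g)) := by
      rw [Schur_B_apply, Schur_B_apply, Finset.sum_eq_single g (fun b _ hb => by simp [hb])
        (by simp), Finset.sum_eq_zero fun b _ => by simp]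
      simp
    rw [Sum.swap_inl, h2, mul_sub, Matrix.trace_sub, ← mul_assoc, ← mul_assoc,
      Matrix.trace_mul_comm (a * M), ← mul_assoc] at h1
    rw [hC, sub_mul, Matrix.trace_sub, h1]
  · have h2 : Schur_B x (Pi.single (some (Sum.inl g)) M) +
        Schur_B (Pi.single (some (Sum.inl g)) M) x
        = M * x (some (Sum.inr g)) - x (some (Sum.inr g)) * M := by
      rw [Schur_B_apply, Schur_B_apply, Finset.sum_eq_zero fun b _ => by simp,
        Finset.sum_eq_single g (fun b _ hb => by simp [hb]) (by simp)]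
      simp
    rw [Sum.swap_inr, h2, mul_sub, Matrix.trace_sub, ← mul_assoc, ← mul_assoc,
      Matrix.trace_mul_comm (a * M), ← mul_assoc] at h1
    rw [hC, sub_mul, Matrix.trace_sub, ← neg_sub, h1, neg_zero]

/-- The chart of `X^s` near a point of `Z`. -/
theorem Schur_chart (hg : D.Gen0 th k₀) {z : UU β Ar} (hz : z ∈ D.Z0 th) {W : Set (UU β Ar)}
    (hW : IsOpen W) (hzW : z ∈ W) :
    ∃ (K : Submodule ℝ (↥D.PX → ℂ)) (r : ℝ) (N : Set (UU β Ar))
      (f : UU β Ar → (D.Schur_J k₀ → ℂ) × K) (g : (D.Schur_J k₀ → ℂ) × K → UU β Ar),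
      0 < r ∧ OpenIn N (D.Xs th ∩ LinS co D.PX) ∧ z ∈ N ∧ N ⊆ W ∧
      HomeoOn f g N (Metric.ball 0 r ×ˢ Metric.ball 0 r) ∧
      ∀ x ∈ N, ∀ p, (f x).1 p = mu x p.1.1 p.1.2 := by
  obtain ⟨O, hO, hXs⟩ := D.openIn_Xs th
  have hzP : z ∈ LinS co D.PX := D.mem_PX.2 ⟨hz.1.1, hz.2.2⟩
  have hzO : z ∈ O := (hXs ▸ hz.1 : z ∈ D.U (one β) ∩ O).2
  have hio := D.Schur_io_co hzP
  obtain ⟨K, r, N, f, g, hr, hN, hcN, hNV, hh, hf⟩ := Schur_impl
    ((Schur_B.compl₁₂ D.Schur_io D.Schur_io).compr₂ (D.Schur_r k₀)) (fun p : ↥D.PX => co z p.1)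
    (fun φ hφ => by
      set a : Matrix β β ℂ := (D.Schur_mat k₀ fun p => φ (Pi.single p 1)).transpose with ha
      have hab : ∀ l k, a l k ≠ 0 → D.v l = D.v k := fun l k h =>
        (D.Schur_mat_block (fun p => φ (Pi.single p 1)) k l h).symm
      have ha0 : a k₀ k₀ = 0 := D.Schur_mat_zero fun p => φ (Pi.single p 1)
      have hap : ∀ p : D.Schur_J k₀, a p.1.2 p.1.1 = φ (Pi.single p 1) := fun p =>
        D.Schur_mat_apply (fun p => φ (Pi.single p 1)) p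
      have htr : ∀ M : Matrix β β ℂ, Matrix.trace (a * M) = φ (D.Schur_r k₀ M) := fun M => by
        rw [(D.Schur_trace hab ha0 M).2, φ.pi_apply_eq_sum_univ]
        refine Finset.sum_congr rfl fun p _ => ?_
        rw [hap, smul_eq_mul]
        congr 2
        funext q
        simp [Pi.single_apply, eq_comm]
      have h1 := D.schur_zero hg hz.1 hz.1 hab (D.Schur_comm hab hz.1.1 fun v hv => by
        have h2 := hφ fun p : ↥D.PX => co v p.1
        simp only [LinearMap.compr₂_apply, LinearMap.compl₁₂_apply, hio, D.Schur_io_co hv] at h2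
        rw [htr, map_add]
        exact h2) ha0
      refine LinearMap.pi_ext' fun p => LinearMap.ext_ring ?_
      change φ (Pi.single p 1) = 0
      rw [← hap, h1]
      rfl)
    (by
      simp only [LinearMap.compr₂_apply, LinearMap.compl₁₂_apply, hio]
      change D.Schur_r k₀ (mu z) = 0
      rw [hz.2.1, map_zero])
    (V := D.Schur_io ⁻¹' (O ∩ W)) ((hO.inter hW).preimage D.Schur_continuous_io)
    (by rw [mem_preimage, hio]; exact ⟨hzO, hzW⟩)
  have hsub : ∀ x ∈ LinS co D.PX, (fun p : ↥D.PX => co x p.1) ∈ N → x ∈ O ∩ W := fun x hx h => by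
    have := hNV h
    rwa [mem_preimage, D.Schur_io_co hx] at this
  have hπ : HomeoOn (fun (x : UU β Ar) (p : ↥D.PX) => co x p.1) D.Schur_io
      (LinS co D.PX ∩ (fun (x : UU β Ar) (p : ↥D.PX) => co x p.1) ⁻¹' N) N :=
    HomeoOn.restrict (A := univ) ⟨D.Schur_continuous_co.continuousOn,
      D.Schur_continuous_io.continuousOn, mapsTo_univ _ _, fun c _ => D.Schur_io_mem c,
      fun x hx => D.Schur_io_co hx, fun c _ => D.Schur_co_io c⟩ (subset_univ N)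
  refine ⟨K, r, LinS co D.PX ∩ (fun (x : UU β Ar) (p : ↥D.PX) => co x p.1) ⁻¹' N, _, _, hr,
    ⟨_, hN.preimage D.Schur_continuous_co, ?_⟩, ⟨hzP, hcN⟩, fun x hx => (hsub x hx.1 hx.2).2, Chart_trans hh hπ, fun x hx p => ?_⟩
  · ext x
    refine ⟨fun hx => ⟨⟨?_, hx.1⟩, hx.2⟩, fun hx => ⟨hx.1.2, hx.2⟩⟩
    rw [hXs]
    exact ⟨(D.mem_PX.1 hx.1).1, (hsub x hx.1 hx.2).1⟩
  · rw [Function.comp_apply, hf]
    simp only [LinearMap.compr₂_apply, LinearMap.compl₁₂_apply, D.Schur_io_co hx.1]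
    rfl

theorem Schur_lc {O : Set (UU β Ar)} (hO : IsOpen O) : LC (Zs (D.U (one β) ∩ G0 k₀) ∩ O) := by
  have : LocallyCompactSpace (Matrix β β ℂ) := inferInstanceAs (LocallyCompactSpace (β → β → ℂ))
  refine (LC.of_isClosed (IsClosed.inter (IsClosed.inter ?_ ?_) ?_)).openIn ⟨O, hO, rfl⟩
  · have : D.U (one β) = ⋂ p ∈ {p | p ∉ D.PU (one β)}, {x : UU β Ar | co x p = 0} := by
      ext x
      simp only [mem_iInter]
      rfl
    rw [this]
    exact isClosed_biInter fun p _ =>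
      isClosed_eq ((continuous_apply p.1).matrix_elem _ _) continuous_const
  · exact isClosed_eq ((continuous_apply none).matrix_elem _ _) continuous_const
  · exact isClosed_le continuous_const (Complex.continuous_re.comp continuous_Wf)

theorem locEuc_Z0 (hg : D.Gen0 th k₀) : LocEuc (D.Z0 th) := by
  intro z hz
  obtain ⟨K, r, N, f, g, hr, ⟨O, hO, hN⟩, hzN, -, hh, hf⟩ :=
    D.Schur_chart hg hz isOpen_univ (mem_univ z)
  obtain ⟨h1, h2, h3, h4, h5, h6⟩ := hh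
  have hNX : ∀ x ∈ N, x ∈ D.Xs th ∧ x ∈ LinS co D.PX := fun x hx => (hN ▸ hx : x ∈ _ ∩ O).1
  have hm : ∀ k ∈ Metric.ball (0 : K) r,
      ((0 : D.Schur_J k₀ → ℂ), k) ∈ Metric.ball (0 : D.Schur_J k₀ → ℂ) r ×ˢ Metric.ball (0 : K) r :=
    fun k hk => ⟨Metric.mem_ball_self hr, hk⟩
  refine ⟨_, N ∩ {x | mu x = 0}, ⟨O, hO, ?_⟩, ⟨hzN, hz.2.1⟩,
    ConvChart.of_homeoOn (F := K) (f := fun x => (f x).2) (g := fun k => g (0, k))
      (convex_ball 0 r) Metric.isOpen_ball ⟨?_, ?_, fun x hx => (h3 hx.1).2, fun k hk => ?_,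
      fun x hx => ?_, fun k hk => ?_⟩⟩
  · ext x
    rw [hN]
    exact ⟨fun hx => ⟨⟨hx.1.1.1, hx.2, (D.mem_PX.1 hx.1.1.2).2⟩, hx.1.2⟩,
      fun hx => ⟨⟨⟨hx.1.1, D.mem_PX.2 ⟨hx.1.1.1, hx.1.2.2⟩⟩, hx.2⟩, hx.1.2.1⟩⟩
  · exact continuous_snd.comp_continuousOn (h1.mono inter_subset_left)
  · exact h2.comp (by fun_prop) hm
  · have h7 := h4 (hm k hk)
    refine ⟨h7, D.Schur_mu_eq_zero (k₀ := k₀) (hNX _ h7).1.1 fun p => ?_⟩
    rw [← hf _ h7, h6 _ (hm k hk)]
    rfl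
  · have h7 : (f x).1 = 0 := by
      funext p
      have h8 : mu x = 0 := hx.2
      rw [hf x hx.1, h8]
      rfl
    change g (0, (f x).2) = x
    rw [← h7]
    exact h5 x hx.1
  · change (f (g (0, k))).2 = k
    rw [h6 _ (hm k hk)]

/-- Half balls. -/
theorem halfball (hg : D.Gen0 th k₀) {z : UU β Ar} (hz : z ∈ D.Z0 th) {W : Set (UU β Ar)}
    (hW : IsOpen W) (hzW : z ∈ W) : ∃ N, OpenIn N (D.Xs th ∩ LinS co D.PX) ∧ z ∈ N ∧ N ⊆ W ∧
      Subsingleton (Hc {x | x ∈ Zs (D.Xs th ∩ G0 k₀) ∧ trunc D.PX x ∈ N ∧ x none ≠ 0}) := by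
  obtain ⟨K, r, N, f, g, hr, hN, hzN, hNW, hh, hf⟩ := D.Schur_chart hg hz hW hzW
  refine ⟨N, hN, hzN, hNW, ?_⟩
  obtain ⟨O, hO, hXs⟩ := D.openIn_Xs th
  obtain ⟨O', hO', hN⟩ := hN
  obtain ⟨h1, h2, h3, h4, h5, h6⟩ := hh
  have hNX : ∀ x ∈ N, x ∈ D.Xs th ∧ x ∈ LinS co D.PX := fun x hx => (hN ▸ hx : x ∈ _ ∩ O').1
  have hLC : LC {x | x ∈ Zs (D.Xs th ∩ G0 k₀) ∧ trunc D.PX x ∈ N ∧ x none ≠ 0} := by
    have e : {x | x ∈ Zs (D.Xs th ∩ G0 k₀) ∧ trunc D.PX x ∈ N ∧ x none ≠ 0}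
        = Zs (D.U (one β) ∩ G0 k₀) ∩ (O ∩ trunc D.PX ⁻¹' O' ∩ {x | x none ≠ 0}) := by
      ext x
      constructor
      · rintro ⟨⟨⟨hx1, hx2⟩, hx3⟩, hx4, hx5⟩
        exact ⟨⟨⟨hx1.1, hx2⟩, hx3⟩, ⟨(hXs ▸ hx1 : x ∈ _ ∩ O).2, (hN ▸ hx4 : _ ∈ _ ∩ O').2⟩, hx5⟩
      · rintro ⟨⟨⟨hx1, hx2⟩, hx3⟩, ⟨hx4, hx5⟩, hx6⟩
        have hx7 : x ∈ D.Xs th := hXs ▸ ⟨hx1, hx4⟩
        refine ⟨⟨⟨hx7, hx2⟩, hx3⟩, ?_, hx6⟩
        rw [hN]
        have hx8 : trunc D.PX x ∈ D.Xs th := by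
          rw [D.Schur_trunc_eq hx1]
          exact D.Schur_set_mem_Xs hx7 fun l k h => absurd rfl h
        exact ⟨⟨hx8, D.mem_PX.2 ⟨hx8.1, D.Schur_trunc_none x⟩⟩, hx5⟩
    rw [e]
    exact D.Schur_lc ((hO.inter (hO'.preimage (continuous_trunc _))).inter
      (isOpen_ne_fun (continuous_apply none) continuous_const))
  have hcf : ContinuousOn (fun x => f (trunc D.PX x))
      {x | x ∈ Zs (D.Xs th ∩ G0 k₀) ∧ trunc D.PX x ∈ N ∧ x none ≠ 0} :=
    h1.comp (continuous_trunc _).continuousOn fun x hx => hx.2.1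
  refine vanish (f := fun x => ((f (trunc D.PX x)).2, x none)) hLC
    ((continuous_snd.comp_continuousOn hcf).prodMk (continuous_apply none).continuousOn)
    fun q => ?_
  rcases ({x | x ∈ Zs (D.Xs th ∩ G0 k₀) ∧ trunc D.PX x ∈ N ∧ x none ≠ 0} ∩
      (fun x => ((f (trunc D.PX x)).2, x none)) ⁻¹' {q}).eq_empty_or_nonempty with
    he | ⟨x₀, hx₀, hq⟩
  · rw [he]; infer_instance
  obtain ⟨k, a⟩ := q
  obtain ⟨hk, ha⟩ := Prod.mk.inj (show ((f (trunc D.PX x₀)).2, x₀ none) = (k, a) from hq)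
  have hkb : k ∈ Metric.ball (0 : K) r := hk ▸ (h3 hx₀.2.1).2
  have hab : ∀ l j, a l j ≠ 0 → D.v l = D.v j := ha ▸ D.Schur_block hx₀.1.1.1.1
  have ha0 : a k₀ k₀ = 0 := ha ▸ hx₀.1.1.2
  have hane : a ≠ 0 := ha ▸ hx₀.2.2
  obtain ⟨p, hp⟩ : ∃ p : D.Schur_J k₀, a p.1.2 p.1.1 ≠ 0 := by
    by_contra hn
    refine hane (Matrix.ext fun l j => ?_)
    by_contra hne
    refine hn ⟨⟨(j, l), (hab l j hne).symm, fun h => hne ?_⟩, hne⟩
    obtain ⟨rfl, rfl⟩ := Prod.mk.inj h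
    exact ha0
  have hW : ∀ y ∈ N, (Wf (Schur_set a y)).re
      = Schur_ell (fun p : D.Schur_J k₀ => a p.1.2 p.1.1) (f y).1 + 0 := fun y hy => by
    rw [add_zero, Schur_ell_apply]
    change (Matrix.trace (a * mu y)).re = _
    rw [(D.Schur_trace hab ha0 _).2]
    simp only [hf y hy]
  have hinv : ∀ x ∈ {x | x ∈ Zs (D.Xs th ∩ G0 k₀) ∧ trunc D.PX x ∈ N ∧ x none ≠ 0} ∩
      (fun x => ((f (trunc D.PX x)).2, x none)) ⁻¹' {(k, a)},
      (f (trunc D.PX x)).2 = k ∧ Schur_set a (trunc D.PX x) = x := fun x hx => by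
    obtain ⟨e1, e2⟩ := Prod.mk.inj (show ((f (trunc D.PX x)).2, x none) = (k, a) from hx.2)
    refine ⟨e1, ?_⟩
    rw [D.Schur_trunc_eq hx.1.1.1.1.1, ← e2]
    exact Schur_set_self x
  have htr : ∀ y ∈ N, trunc D.PX (Schur_set a y) = y := fun y hy => by
    rw [D.Schur_trunc_eq (D.Schur_set_mem_U (hNX y hy).1.1 hab)]
    have := Schur_set_self y
    rwa [(D.mem_PX.1 (hNX y hy).2).2] at this
  refine HomeoOn.subsingleton (f := fun x => (f (trunc D.PX x)).1)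
    (g := fun m => Schur_set a (g (m, k)))
    (A := Metric.ball 0 r ∩ {m | 0 ≤ Schur_ell (fun p : D.Schur_J k₀ => a p.1.2 p.1.1) m + 0})
    ⟨continuous_fst.comp_continuousOn (hcf.mono inter_subset_left), ?_,
      fun x hx => ⟨(h3 hx.1.2.1).1, ?_⟩, fun m hm => ?_, fun x hx => ?_, fun m hm => ?_⟩
    (subsingleton_halfConvex (convex_ball 0 r) Metric.isOpen_ball _
      (Schur_ell_ne (a := fun p : D.Schur_J k₀ => a p.1.2 p.1.1) hp) 0
      ⟨0, Metric.mem_ball_self hr, by simp⟩)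
  · exact Schur_continuous_set.comp_continuousOn (continuousOn_const.prodMk
      (h2.comp (by fun_prop) fun m hm => ⟨hm.1, hkb⟩))
  · rw [mem_ofPred_eq, ← hW _ hx.1.2.1, (hinv x hx).2]
    exact hx.1.1.2
  · have hmk : (m, k) ∈ Metric.ball (0 : D.Schur_J k₀ → ℂ) r ×ˢ Metric.ball (0 : K) r :=
      ⟨hm.1, hkb⟩
    have hy := h4 hmk
    refine ⟨⟨⟨⟨D.Schur_set_mem_Xs (hNX _ hy).1 hab, ha0⟩, ?_⟩, ?_, hane⟩, ?_⟩
    · change 0 ≤ (Wf (Schur_set a (g (m, k)))).re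
      rw [hW _ hy, h6 _ hmk]
      exact hm.2
    · rw [htr _ hy]
      exact hy
    · change ((f (trunc D.PX (Schur_set a (g (m, k))))).2, a) = (k, a)
      rw [htr _ hy, h6 _ hmk]
  · change Schur_set a (g ((f (trunc D.PX x)).1, k)) = x
    rw [← (hinv x hx).1, h5 _ hx.1.2.1]
    exact (hinv x hx).2
  · have hmk : (m, k) ∈ Metric.ball (0 : D.Schur_J k₀ → ℂ) r ×ˢ Metric.ball (0 : K) r :=
      ⟨hm.1, hkb⟩
    change (f (trunc D.PX (Schur_set a (g (m, k))))).1 = m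
    rw [htr _ (h4 hmk), h6 _ hmk]

/-- (V3). -/
theorem vanish3 (hg : D.Gen0 th k₀) :
    Subsingleton (Hc (Zs ((D.Xs th ∩ G0 k₀) \ {x | mu x = 0}))) := by
  have _ := hg
  obtain ⟨O, hO, hXs⟩ := D.openIn_Xs th
  have hLC : LC (Zs ((D.Xs th ∩ G0 k₀) \ {x | mu x = 0})) := by
    have e : Zs ((D.Xs th ∩ G0 k₀) \ {x | mu x = 0})
        = Zs (D.U (one β) ∩ G0 k₀) ∩ (O ∩ {x | mu x ≠ 0}) := by
      rw [hXs]
      ext x
      exact ⟨fun hx => ⟨⟨⟨hx.1.1.1.1, hx.1.1.2⟩, hx.2⟩, hx.1.1.1.2, hx.1.2⟩,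
        fun hx => ⟨⟨⟨⟨hx.1.1.1, hx.2.1⟩, hx.1.1.2⟩, hx.2.2⟩, hx.1.2⟩⟩
    rw [e]
    exact D.Schur_lc (hO.inter (isOpen_ne_fun continuous_mu continuous_const))
  refine vanish (f := fun x => Schur_set 0 x) hLC
    (Schur_continuous_set.comp (continuous_const.prodMk continuous_id)).continuousOn fun y => ?_
  rcases (Zs ((D.Xs th ∩ G0 k₀) \ {x | mu x = 0}) ∩
      (fun x => Schur_set 0 x) ⁻¹' {y}).eq_empty_or_nonempty with he | ⟨x₀, hx₀, hq⟩
  · rw [he]; infer_instance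
  have hy : Schur_set 0 x₀ = y := hq
  subst hy
  obtain ⟨p, hp⟩ : ∃ p : D.Schur_J k₀, mu x₀ p.1.2 p.1.1 ≠ 0 := by
    by_contra hn
    refine hx₀.1.2 (D.Schur_mu_eq_zero (k₀ := k₀) hx₀.1.1.1.1 fun p => ?_)
    by_contra hne
    exact hn ⟨⟨p.1.swap, p.2.1.symm, fun h => p.2.2 (congrArg Prod.swap h)⟩, hne⟩
  have hW : ∀ c : D.Schur_J k₀ → ℂ, (Wf (Schur_set (D.Schur_mat k₀ c) x₀)).re
      = Schur_ell (fun p : D.Schur_J k₀ => mu x₀ p.1.2 p.1.1) c + 0 := fun c => by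
    rw [add_zero, Schur_ell_apply]
    change (Matrix.trace (D.Schur_mat k₀ c * mu x₀)).re = _
    rw [(D.Schur_trace (D.Schur_mat_block c) (D.Schur_mat_zero c) _).1]
    simp only [D.Schur_mat_apply]
  have hinv : ∀ x ∈ Zs ((D.Xs th ∩ G0 k₀) \ {x | mu x = 0}) ∩
      (fun x => Schur_set 0 x) ⁻¹' {Schur_set 0 x₀},
      Schur_set (D.Schur_mat k₀ fun p => x none p.1.1 p.1.2) x₀ = x := fun x hx => by
    rw [D.Schur_mat_eq (D.Schur_block hx.1.1.1.1.1) hx.1.1.1.2]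
    have h1 : Schur_set 0 x = Schur_set 0 x₀ := hx.2
    funext γ
    cases γ with
    | none => rfl
    | some δ => exact (congrFun h1 (some δ)).symm
  refine HomeoOn.subsingleton (f := fun (x : UU β Ar) (p : D.Schur_J k₀) => x none p.1.1 p.1.2)
    (g := fun c => Schur_set (D.Schur_mat k₀ c) x₀)
    (A := univ ∩ {c | 0 ≤ Schur_ell (fun p : D.Schur_J k₀ => mu x₀ p.1.2 p.1.1) c + 0})
    ⟨?_, ?_, fun x hx => ⟨mem_univ _, ?_⟩, fun c hc => ⟨⟨⟨⟨?_, D.Schur_mat_zero c⟩, hx₀.1.2⟩, ?_⟩,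
      rfl⟩, hinv, fun c _ => funext fun p => D.Schur_mat_apply c p⟩
    (subsingleton_halfConvex convex_univ isOpen_univ _
      (Schur_ell_ne (a := fun p : D.Schur_J k₀ => mu x₀ p.1.2 p.1.1) hp) 0
      ⟨0, mem_univ _, by simp⟩)
  · exact (continuous_pi fun p => (continuous_apply none).matrix_elem _ _).continuousOn
  · exact (Schur_continuous_set.comp
      (D.Schur_continuous_mat.prodMk continuous_const)).continuousOn
  · rw [mem_ofPred_eq, ← hW, hinv x hx]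
    exact hx.1.2
  · exact D.Schur_set_mem_Xs hx₀.1.1.1 (D.Schur_mat_block c)
  · change 0 ≤ (Wf (Schur_set (D.Schur_mat k₀ c) x₀)).re
    rw [hW]
    exact hc.2

end HD

end Pool.Agent.HK
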