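import Pool.Agent.P.MP_1206ce_ag.HG.HNcyc
import Pool.Agent.P.MP_1206ce_ag.HG.LemV
import Pool.Agent.P.MP_1206ce_ag.HG.Schur

/-! From the nilpotent tripled locus to the zero fibre of the moment map. -/

open scoped Topology
open Filter Set

noncomputable section

namespace Pool.Agent.HK

section top
variable {Y : Type} [TopologicalSpace Y] [Nice Y]

omit [Nice Y] in
theorem Chain_twOK {A A' : Set Y} (h : ClosedIn A' A) : TwOK A A' id one :=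
  h.properOn.twOK (one_mem_ZZ _)

omit [Nice Y] in
theorem Chain_res_prH {A A' : Set Y} (h : ClosedIn A' A) (k : ℤ) (x : Hc A) :
    prH _ A' (k + 0) (res A A' x) = res A A' (prH _ A k x) :=
  tw_prH (Chain_twOK h) HomC.one k x

/-- The abstract form of the local nonvanishing. -/
theorem Chain_ln {L X B G Z : Set Y} {π : Y → Y} {t : Coch Y} {φ : EE L} (hφ : LN L φ)
    (hXL : OpenIn X L) (hXB : ClosedIn X B) (hGB : ClosedIn G B) (hB : LC B) (hZX : Z ⊆ X)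
    (hZ : LC Z) (hπc : ContinuousOn π B) (hπm : MapsTo π B X) (hπi : ∀ y ∈ X, π y = y)
    (ht : TwOK Z G π t) {m : ℤ} (hm : HomC m t) (hgen : ∀ y ∈ Z, IsGenOn (G ∩ π ⁻¹' {y}) t)
    {ψ : EE G} (hψ : ψ ∘ₗ res B G = (φ ∘ₗ ext X L) ∘ₗ res B X)
    (hloc : ∀ y ∈ Z, ∀ W, IsOpen W → y ∈ W → ∃ Q, OpenIn Q X ∧ y ∈ Q ∧ Q ⊆ W ∧
      Subsingleton (Hc ((B ∩ π ⁻¹' Q) \ X))) : LN Z (ψ ∘ₗ tw Z G π t) := by
  rintro O ⟨W, hW, rfl⟩ ⟨y, hyZ, hyW⟩ h0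
  obtain ⟨Q, hQ, hyQ, hQW, hv⟩ := hloc y hyZ W hW hyW
  have hOZ : OpenIn (Z ∩ Q) Z := by
    obtain ⟨W', hW', rfl⟩ := hQ
    exact ⟨W', hW', by rw [← inter_assoc, inter_eq_left.2 hZX]⟩
  have hO : OpenIn (Z ∩ W) Z := ⟨W, hW, rfl⟩
  have hOO : OpenIn (Z ∩ Q) (Z ∩ W) :=
    hOZ.of_subset (inter_subset_inter_right _ hQW) inter_subset_left
  have h1 : (ψ ∘ₗ tw Z G π t) ∘ₗ ext (Z ∩ Q) Z = 0 := by
    rw [← ext_comp hOO hO, ← LinearMap.comp_assoc, h0, LinearMap.zero_comp]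
  have hOG : OpenIn (G ∩ π ⁻¹' (Z ∩ Q)) G := hOZ.preimage ht.1 ht.2.1
  have hbij : Function.Bijective (tw (Z ∩ Q) (G ∩ π ⁻¹' (Z ∩ Q)) π t) := by
    refine thom_iso (hZ.openIn hOZ) ((hB.closedIn hGB).openIn hOG)
      (ht.restrict inter_subset_left) hm fun z hz => ?_
    have e : G ∩ π ⁻¹' (Z ∩ Q) ∩ π ⁻¹' {z} = G ∩ π ⁻¹' {z} := by
      ext x
      constructor
      · exact fun h => ⟨h.1.1, h.2⟩
      · exact fun h => ⟨⟨h.1, by rw [mem_preimage, show π x = z from h.2]; exact hz⟩, h.2⟩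
    rw [e]
    exact hgen z hz.1
  have h2 : ψ ∘ₗ ext (G ∩ π ⁻¹' (Z ∩ Q)) G = 0 := by
    rw [LinearMap.comp_assoc, tw_ext ht hOZ rfl, ← LinearMap.comp_assoc] at h1
    exact (LinearMap.cancel_right hbij.2).1 (h1.trans (LinearMap.zero_comp _).symm)
  have hBP : OpenIn (B ∩ π ⁻¹' Q) B := hQ.preimage hπc hπm
  have e1 : G ∩ π ⁻¹' (Z ∩ Q) = G ∩ id ⁻¹' (B ∩ π ⁻¹' Q) := by
    ext x
    constructor
    · exact fun h => ⟨h.1, hGB.subset h.1, h.2.2⟩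
    · exact fun h => ⟨h.1, ht.2.1 h.1, h.2.2⟩
  have e2 : Q = X ∩ id ⁻¹' (B ∩ π ⁻¹' Q) := by
    ext x
    constructor
    · intro h
      have hx := hQ.subset h
      exact ⟨hx, hXB.subset hx, by rw [mem_preimage, id, hπi x hx]; exact h⟩
    · intro h
      have := h.2.2
      rwa [mem_preimage, id, hπi x h.1] at this
  have h3 : (ψ ∘ₗ res B G) ∘ₗ ext (B ∩ π ⁻¹' Q) B = 0 := by
    rw [LinearMap.comp_assoc, tw_ext (Chain_twOK hGB) hBP e1, ← LinearMap.comp_assoc, h2,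
      LinearMap.zero_comp]
  have hQB : ClosedIn Q (B ∩ π ⁻¹' Q) := by
    obtain ⟨F, hF, hXF⟩ := hXB
    refine ⟨F, hF, e2.trans ?_⟩
    ext x
    constructor
    · exact fun h => ⟨h.2, (hXF ▸ h.1).2⟩
    · exact fun h => ⟨hXF ▸ ⟨h.1.1, h.2⟩, h.1⟩
  have hb2 : Function.Bijective (res (B ∩ π ⁻¹' Q) Q) := by
    refine res_bijective (hB.openIn hBP) hQB ?_ hv
    ext x
    constructor
    · exact fun h => ⟨h.1, fun hq => h.2 (hQ.subset hq)⟩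
    · exact fun h => ⟨h.1, fun hx => h.2 (e2 ▸ ⟨hx, h.1⟩)⟩
  rw [hψ, LinearMap.comp_assoc, tw_ext (Chain_twOK hXB) hBP e2, ← LinearMap.comp_assoc] at h3
  have h4 : (φ ∘ₗ ext X L) ∘ₗ ext Q X = 0 :=
    (LinearMap.cancel_right hb2.2).1 (h3.trans (LinearMap.zero_comp _).symm)
  rw [LinearMap.comp_assoc, ext_comp hQ hXL] at h4
  exact hφ Q (hQ.trans hXL) ⟨y, hyQ⟩ h4

/-- A product with an acyclic factor is acyclic. -/
theorem Chain_prod {Y' : Type} [TopologicalSpace Y'] [Nice Y'] {A : Set Y} {E : Set Y'}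
    (hl : LC (A ×ˢ E)) (hA : Subsingleton (Hc A)) : Subsingleton (Hc (A ×ˢ E)) := by
  refine vanish hl continuous_snd.continuousOn fun e => ?_
  by_cases he : e ∈ E
  · refine HomeoOn.subsingleton (f := Prod.fst) (g := fun x => (x, e))
      ⟨continuous_fst.continuousOn, by fun_prop, fun p hp => hp.1.1,
        fun x hx => ⟨⟨hx, he⟩, rfl⟩, fun p hp => Prod.ext rfl (Eq.symm hp.2), fun _ _ => rfl⟩ hA
  · have : A ×ˢ E ∩ Prod.snd ⁻¹' {e} = ∅ :=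
      eq_empty_of_forall_notMem fun p hp => he ((show p.2 = e from hp.2) ▸ hp.1.2)
    rw [this]
    infer_instance

end top

namespace HD

variable {β I Ar τ Λ Λ' : Type} [Fintype β] [DecidableEq β] [Fintype I] [DecidableEq I] [Fintype Ar]
  [DecidableEq Ar] [Fintype τ] [DecidableEq τ] [DecidableEq Λ] [DecidableEq Λ'] (D : HD β I Ar τ)

/-- The projection to `T^* N`. -/
abbrev Chain_pi : Bor (D.K (one β)) D.act → Bor (D.K (one β)) D.act :=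
  bmap (D.K (one β)) D.act (trunc D.PX) id

/-- Positions of `T^* N × 𝔤₀`. -/
def Chain_J (k₀ : β) : Finset (Gam Ar × β × β) := (D.PU (one β)).erase (none, k₀, k₀)

/-- `X^s × 𝔤₀`. -/
abbrev Chain_B (th : I → ℤ) (k₀ : β) : Set (UU β Ar) := Zs (D.Xs th ∩ G0 k₀)

/-- `Z × 𝔤₀`. -/
def Chain_G (th : I → ℤ) (k₀ : β) : Set (UU β Ar) :=
  {x | x ∈ LinS co (D.Chain_J k₀) ∧ trunc D.PX x ∈ D.Z0 th}

theorem Chain_hPU : ∀ γ l k l' k', D.v l = D.v l' → one β l = one β l' → D.v k = D.v k' →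
    one β k = one β k' → (γ, l, k) ∈ D.PU (one β) → (γ, l', k') ∈ D.PU (one β) := by
  intro γ l k l' k' h1 _ h2 _ h
  simp only [PU, Finset.mem_filter, Finset.mem_univ, true_and, and_true] at h ⊢
  rcases γ with _ | h' | h' <;> simpa only [ok, ← h1, ← h2] using h

theorem Chain_hPX : ∀ γ l k l' k', D.v l = D.v l' → one β l = one β l' → D.v k = D.v k' →
    one β k = one β k' → (γ, l, k) ∈ D.PX → (γ, l', k') ∈ D.PX := by
  intro γ l k l' k' h1 h2 h3 h4 h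
  rw [PX, Finset.mem_filter] at h ⊢
  exact ⟨D.Chain_hPU γ l k l' k' h1 h2 h3 h4 h.1, h.2⟩

theorem Chain_hJ {th : I → ℤ} {k₀ : β} (hg : D.Gen0 th k₀) : ∀ γ l k l' k', D.v l = D.v l' →
    one β l = one β l' → D.v k = D.v k' → one β k = one β k' → (γ, l, k) ∈ D.Chain_J k₀ →
    (γ, l', k') ∈ D.Chain_J k₀ := by
  intro γ l k l' k' h1 h2 h3 h4 h
  rw [Chain_J, Finset.mem_erase] at h ⊢
  refine ⟨fun e => h.1 ?_, D.Chain_hPU γ l k l' k' h1 h2 h3 h4 h.2⟩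
  obtain ⟨rfl, rfl, rfl⟩ : γ = none ∧ l' = k₀ ∧ k' = k₀ := by simpa using e
  rw [hg.single l h1, hg.single k h3]

theorem Chain_PX_subset (k₀ : β) : D.PX ⊆ D.Chain_J k₀ := by
  intro p hp
  rw [PX, Finset.mem_filter] at hp
  exact Finset.mem_erase.2 ⟨fun e => hp.2 (by rw [e]), hp.1⟩

theorem Chain_mem_J {k₀ : β} {x : UU β Ar} :
    x ∈ LinS co (D.Chain_J k₀) ↔ x ∈ D.U (one β) ∧ x ∈ G0 k₀ := by
  constructor
  · intro h
    exact ⟨fun p hp => h p fun h' => hp (Finset.mem_of_mem_erase h'),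
      h (none, k₀, k₀) (Finset.notMem_erase _ _)⟩
  · rintro ⟨h1, h2⟩ p hp
    by_cases e : p = (none, k₀, k₀)
    · rw [e]
      exact h2
    · exact h1 p fun h' => hp (Finset.mem_erase.2 ⟨e, h'⟩)

theorem Chain_trunc_mem (x : UU β Ar) : trunc D.PX x ∈ LinS co D.PX := fun p hp => by
  rw [co_trunc, if_neg hp]

theorem Chain_trunc_some {x : UU β Ar} (hx : x ∈ D.U (one β)) (γ : Ar ⊕ Ar) :
    trunc D.PX x (some γ) = x (some γ) := by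
  ext l k
  change (if (some γ, l, k) ∈ D.PX then x (some γ) l k else 0) = _
  split_ifs with h
  · rfl
  · refine (hx (some γ, l, k) fun h' => h ?_).symm
    rw [PX, Finset.mem_filter]
    exact ⟨h', by simp⟩

theorem Chain_trunc_self {x : UU β Ar} (hx : x ∈ LinS co D.PX) : trunc D.PX x = x := by
  funext γ
  ext l k
  change (if (γ, l, k) ∈ D.PX then x γ l k else 0) = _
  split_ifs with h
  · rfl
  · exact (hx (γ, l, k) h).symm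

theorem Chain_trunc_Xs {th : I → ℤ} {x : UU β Ar} (hx : x ∈ D.U (one β)) :
    trunc D.PX x ∈ D.Xs th ↔ x ∈ D.Xs th := by
  have h1 : ∀ S, InvXi (trunc D.PX x) S ↔ InvXi x S := fun S => by
    simp only [InvXi, D.Chain_trunc_some hx]
  simp only [Xs, mem_ofPred_eq, h1, hx, (D.mem_PX.1 (D.Chain_trunc_mem x)).1]

theorem Chain_trunc_mu {x : UU β Ar} (hx : x ∈ D.U (one β)) : mu (trunc D.PX x) = mu x := by
  simp only [mu, D.Chain_trunc_some hx]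

theorem Chain_G_eq (th : I → ℤ) (k₀ : β) :
    D.Chain_G th k₀ = D.Chain_B th k₀ ∩ {x | mu x = 0} := by
  ext x
  constructor
  · rintro ⟨h1, h2, h3, -⟩
    obtain ⟨hU, h0⟩ := D.Chain_mem_J.1 h1
    rw [D.Chain_trunc_mu hU] at h3
    refine ⟨⟨⟨(D.Chain_trunc_Xs hU).1 h2, h0⟩, ?_⟩, h3⟩
    simp [Wf, h3]
  · rintro ⟨⟨⟨h1, h2⟩, -⟩, h3⟩
    exact ⟨D.Chain_mem_J.2 ⟨h1.1, h2⟩, (D.Chain_trunc_Xs h1.1).2 h1,
      (D.Chain_trunc_mu h1.1).trans h3, (D.mem_PX.1 (D.Chain_trunc_mem x)).2⟩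

theorem Chain_Zs_inter {S : Set (UU β Ar)} : Zs S ∩ LinS co D.PX = S ∩ LinS co D.PX := by
  ext x
  constructor
  · exact fun h => ⟨h.1.1, h.2⟩
  · refine fun h => ⟨⟨h.1, ?_⟩, h.2⟩
    simp [Wf, (D.mem_PX.1 h.2).2]

theorem Chain_B_inter (th : I → ℤ) (k₀ : β) :
    D.Chain_B th k₀ ∩ LinS co D.PX = D.Xs th ∩ LinS co D.PX := by
  rw [D.Chain_Zs_inter]
  ext x
  constructor
  · exact fun h => ⟨h.1.1, h.2⟩
  · refine fun h => ⟨⟨h.1, ?_⟩, h.2⟩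
    simp [G0, (D.mem_PX.1 h.2).2]

theorem Chain_Om_inter (th : I → ℤ) :
    Zs (D.Xs th ∩ D.Om (one β)) ∩ LinS co D.PX = D.Xs th ∩ LinS co D.PX := by
  rw [D.Chain_Zs_inter]
  ext x
  constructor
  · exact fun h => ⟨h.1.1, h.2⟩
  · refine fun h => ⟨⟨h.1, h.1.1, ?_⟩, h.2⟩
    rw [(D.mem_PX.1 h.2).2]
    exact IsNilpotent.zero

theorem Chain_A1_inter (th : I → ℤ) :
    Zs (D.A1 th) ∩ LinS co D.PX = D.Xs th ∩ LinS co D.PX := by
  rw [D.Chain_Zs_inter]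
  ext x
  constructor
  · refine fun h => ⟨⟨h.1.1.1, fun S hS hi => h.1.2 S hS fun γ z hz => ?_⟩, h.2⟩
    rcases γ with _ | γ
    · rw [(D.mem_PX.1 h.2).2, Matrix.zero_mulVec]
      exact zero_mem _
    · exact hi γ z hz
  · intro h
    exact ⟨D.Xs_inter_Om_subset th ((D.Chain_Om_inter th).symm ▸ h).1.1, h.2⟩

theorem Chain_openX (th : I → ℤ) : OpenIn (D.Xs th ∩ LinS co D.PX) (LinS co D.PX) := by
  have h := (D.openIn_Xs th).inter_right (LinS co D.PX)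
  rwa [inter_eq_right.2 fun x hx => (D.mem_PX.1 hx).1] at h

theorem Chain_inter {S S' : Set (UU β Ar)} (h : InvX (D.K (one β)) D.act S)
    (h' : InvX (D.K (one β)) D.act S') : InvX (D.K (one β)) D.act (S ∩ S') :=
  fun u hu x hx => ⟨h u hu x hx.1, h' u hu x hx.2⟩

theorem Chain_invXG {th : I → ℤ} {k₀ : β} (hg : D.Gen0 th k₀) :
    InvX (D.K (one β)) D.act (D.Xs th ∩ G0 k₀) := fun u hu x hx =>
  ⟨D.invX_Xs th u hu x hx.1, (D.invX_G0 hg u hu x ⟨hx.1.1, hx.2⟩).2⟩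

theorem Chain_invB {th : I → ℤ} {k₀ : β} (hg : D.Gen0 th k₀) :
    InvX (D.K (one β)) D.act (D.Chain_B th k₀) := D.invX_Zs Subset.rfl (D.Chain_invXG hg)

theorem Chain_trunc_act {u : Matrix (β ⊕ τ) (β ⊕ τ) ℂ} (hu : u ∈ D.K (one β)) (x : UU β Ar) :
    trunc D.PX (D.act u x) = D.act u (trunc D.PX x) := (D.invX_LinS D.Chain_hPX).2 u hu x

theorem Chain_invG {th : I → ℤ} {k₀ : β} (hg : D.Gen0 th k₀) :
    InvX (D.K (one β)) D.act (D.Chain_G th k₀) := fun u hu x hx =>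
  ⟨(D.invX_LinS (D.Chain_hJ hg)).1 u hu x hx.1, by
    rw [D.Chain_trunc_act hu]
    exact D.invX_Z0 th u hu _ hx.2⟩

theorem Chain_isClosed_G0 (k₀ : β) : IsClosed (G0 k₀ : Set (UU β Ar)) :=
  isClosed_eq (by fun_prop) continuous_const

theorem Chain_lcB (th : I → ℤ) (k₀ : β) : LC (D.Chain_B th k₀) :=
  (((D.amb.lc _).openIn (D.openIn_Xs th)).closedIn ⟨_, Chain_isClosed_G0 k₀, rfl⟩).closedIn
    (closedIn_Zs _)

theorem Chain_eqv (P : Set (UU β Ar × Fr (β ⊕ τ))) :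
    EqvOn (D.K (one β)) D.act (D.K (one β)) D.act P (Prod.map (trunc D.PX) id) :=
  EqvOn.of_map Subset.rfl fun _ hu p _ => D.Chain_trunc_act hu p.1

theorem Chain_pi_bmk (p : UU β Ar × Fr (β ⊕ τ)) :
    D.Chain_pi (bmk _ _ p) = bmk _ _ (trunc D.PX p.1, p.2) :=
  (D.isAct_K (one β)).bmp_bmk (D.Chain_eqv univ) (mem_univ p)

theorem Chain_mem_SP {S : Set (UU β Ar)} (hS : InvX (D.K (one β)) D.act S) {n : ℕ}
    {p : UU β Ar × Fr (β ⊕ τ)} :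
    bmk _ _ p ∈ D.SP (D.K (one β)) S n ↔ p.1 ∈ S ∧ p.2 ∈ Inj D.lab0 n := by
  rw [SP, BS_eq, (D.isAct_K (one β)).mem_BI (D.inv_SP Subset.rfl hS n), mem_prod]

theorem Chain_pi_cont {S : Set (UU β Ar)} (hS : InvX (D.K (one β)) D.act S) (n : ℕ) :
    ContinuousOn D.Chain_pi (D.SP (D.K (one β)) S n) := by
  rw [SP, BS_eq]
  exact (D.isAct_K (one β)).continuousOn_bmp (D.inv_SP Subset.rfl hS n) (D.Chain_eqv _)
    ((continuous_trunc _).prodMap continuous_id).continuousOn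

/-- Small neighbourhoods over which the part `a ≠ 0` is acyclic. -/
theorem Chain_loc {th : I → ℤ} {k₀ : β} (hg : D.Gen0 th k₀) (n : ℕ) :
    ∀ y ∈ D.SP (D.K (one β)) (D.Z0 th) n, ∀ W, IsOpen W → y ∈ W →
      ∃ Q, OpenIn Q (D.SP (D.K (one β)) (D.Xs th ∩ LinS co D.PX) n) ∧ y ∈ Q ∧ Q ⊆ W ∧
        Subsingleton (Hc ((D.SP (D.K (one β)) (D.Chain_B th k₀) n ∩ D.Chain_pi ⁻¹' Q) \
          D.SP (D.K (one β)) (D.Xs th ∩ LinS co D.PX) n)) := by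
  have ha := D.isAct_K (one β)
  have := ha.nice
  have hX := D.Chain_inter (D.invX_Xs th) D.invX_PX
  have hB := D.Chain_invB hg
  rintro _ ⟨z₀, hz₀, e₀, he₀, rfl⟩ W hW hyW
  obtain ⟨d, O, γ, -, hO₀, hs⟩ := exists_slice D.lab0 ∅ n he₀
  rw [KF_empty] at hs
  have hst : ∀ e ∈ O, star (γ e) ∈ D.K (one β) := fun e he => ha.grp.star _ (hs.maps he)
  have hI : InvF (D.K (one β)) (Inj D.lab0 n) := invF_Inj Subset.rfl n
  let F : UU β Ar × Fr (β ⊕ τ) → UU β Ar × Fr (β ⊕ τ) := fun p => bact D.act (star (γ p.2)) p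
  have hFinv : ∀ u ∈ D.K (one β), ∀ p : UU β Ar × Fr (β ⊕ τ), p.2 ∈ O →
      F (bact D.act u p) = F p := by
    intro u hu p hp
    change bact D.act (star (γ (frAct u p.2))) (bact D.act u p) = _
    rw [hs.eqv u hu _ hp, star_mul, ha.bact_mul (hst _ hp) (ha.grp.star u hu),
      (ha.bact_star hu p).1]
  have hFc : ContinuousOn F (univ ×ˢ O) :=
    ha.cont_bact.comp (f := fun p : UU β Ar × Fr (β ⊕ τ) => (star (γ p.2), p))
      ((hs.cont.comp continuous_snd.continuousOn fun p hp => hp.2).star.prodMk continuousOn_id)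
      fun p hp => ⟨hst _ hp.2, mem_univ _⟩
  have hFb : ∀ p : UU β Ar × Fr (β ⊕ τ), p.2 ∈ O →
      bmk (D.K (one β)) D.act (F p) = bmk _ _ p := fun p hp => bmk_bact (hst _ hp) p
  have hF1 : ∀ p : UU β Ar × Fr (β ⊕ τ), γ p.2 = 1 → F p = p := fun p hp => by
    change bact D.act (star (γ p.2)) p = p
    rw [hp, star_one, ha.bact_one]
  have hW' : F (z₀, e₀) ∈ bmk (D.K (one β)) D.act ⁻¹' W := by
    rw [mem_preimage, hFb _ hO₀]
    exact hyW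
  obtain ⟨W₁, W₂, hW₁, hW₂, h1, h2, h12⟩ :=
    isOpen_prod_iff.1 (hW.preimage continuous_bmk) _ _ hW'
  obtain ⟨N, hN, hzN, hNW, hv⟩ := D.halfball hg (D.invX_Z0 th _ (hst _ hO₀) _ hz₀) hW₁ h1
  obtain ⟨N', hN', rfl⟩ := hN
  obtain ⟨O', hO', hOO⟩ := hs.op
  have hIO : ∀ e ∈ Inj D.lab0 n, e ∈ O' → e ∈ O := fun e he h => hOO ▸ ⟨Inj_subset_FrN _ _ he, h⟩
  let P : Set (UU β Ar × Fr (β ⊕ τ)) := {p | p.2 ∈ O ∧ F p ∈ N' ×ˢ W₂}
  have hPi : Inv (D.K (one β)) D.act P := fun u hu p hp =>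
    ⟨hs.inv u hu _ hp.1, by rw [hFinv u hu p hp.1]; exact hp.2⟩
  have hPo : ∀ S : Set (UU β Ar), OpenIn (S ×ˢ Inj D.lab0 n ∩ P) (S ×ˢ Inj D.lab0 n) := by
    intro S
    have h3 : OpenIn (S ×ˢ Inj D.lab0 n ∩ univ ×ˢ O') (S ×ˢ Inj D.lab0 n) :=
      ⟨_, isOpen_univ.prod hO', rfl⟩
    have h4 := OpenIn.preimage (A := univ) (B := S ×ˢ Inj D.lab0 n ∩ univ ×ˢ O')
      ⟨_, hN'.prod hW₂, rfl⟩ (hFc.mono fun p hp => ⟨mem_univ _, hIO _ hp.1.2 hp.2.2⟩)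
      (mapsTo_univ _ _)
    convert h4.trans h3 using 1
    ext p
    constructor
    · exact fun h => ⟨⟨h.1, mem_univ _, (hOO ▸ h.2.1).2⟩, mem_univ _, h.2.2⟩
    · exact fun h => ⟨h.1.1, hIO _ h.1.1.2 h.1.2.2, h.2.2⟩
  have hXi := D.inv_SP Subset.rfl hX n
  have hQ : OpenIn (BI (D.K (one β)) D.act ((D.Xs th ∩ LinS co D.PX) ×ˢ Inj D.lab0 n ∩ P))
      (D.SP (D.K (one β)) (D.Xs th ∩ LinS co D.PX) n) := by
    rw [SP, BS_eq]
    exact ha.openIn_BI hXi (hPo _)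
  refine ⟨_, hQ, ⟨(z₀, e₀), ⟨⟨⟨hz₀.1, D.mem_PX.2 ⟨hz₀.1.1, hz₀.2.2⟩⟩, he₀⟩, hO₀, hzN.2, h2⟩, rfl⟩,
    ?_, ?_⟩
  · rintro _ ⟨p, hp, rfl⟩
    rw [← hFb p hp.2.1]
    exact h12 ⟨hNW ⟨hX _ (hst _ hp.2.1) _ hp.1.1, hp.2.2.1⟩, hp.2.2.2⟩
  let P' : Set (UU β Ar × Fr (β ⊕ τ)) := {p | (p.1 ∈ D.Chain_B th k₀ ∧ p.2 ∈ Inj D.lab0 n) ∧
    (trunc D.PX p.1, p.2) ∈ P ∧ p.1 ∉ D.Xs th ∩ LinS co D.PX}
  have hP'i : Inv (D.K (one β)) D.act P' := by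
    refine fun u hu p hp => ⟨⟨hB u hu _ hp.1.1, hI u hu _ hp.1.2⟩, ?_, fun h => hp.2.2 ?_⟩
    · have := hPi u hu _ hp.2.1
      change (trunc D.PX (D.act u p.1), frAct u p.2) ∈ P
      rw [D.Chain_trunc_act hu]
      exact this
    · have := hX _ (ha.grp.star u hu) _ h
      have e := congrArg Prod.fst (ha.bact_star hu p).1
      exact e ▸ this
  have e1 : (D.SP (D.K (one β)) (D.Chain_B th k₀) n ∩ D.Chain_pi ⁻¹'
      BI (D.K (one β)) D.act ((D.Xs th ∩ LinS co D.PX) ×ˢ Inj D.lab0 n ∩ P)) \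
        D.SP (D.K (one β)) (D.Xs th ∩ LinS co D.PX) n = BI (D.K (one β)) D.act P' := by
    ext q
    obtain ⟨p, rfl⟩ : ∃ p, bmk (D.K (one β)) D.act p = q := ⟨_, bmk_out q⟩
    rw [Set.mem_sdiff, mem_inter_iff, mem_preimage, D.Chain_pi_bmk, D.Chain_mem_SP hB,
      D.Chain_mem_SP hX, ha.mem_BI (hXi.inter hPi), ha.mem_BI hP'i]
    constructor
    · exact fun h => ⟨h.1.1, h.1.2.2, fun hx => h.2 ⟨hx, h.1.1.2⟩⟩
    · exact fun h => ⟨⟨h.1, ⟨⟨(D.Chain_trunc_Xs h.1.1.1.1.1).2 h.1.1.1.1, D.Chain_trunc_mem _⟩,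
        h.1.2⟩, h.2.1⟩, fun hx => h.2.2 hx.1⟩
  have hBl := D.lc_SP ha.grp Subset.rfl hB (D.Chain_lcB th k₀) n
  have hXB : ClosedIn (D.SP (D.K (one β)) (D.Xs th ∩ LinS co D.PX) n)
      (D.SP (D.K (one β)) (D.Chain_B th k₀) n) :=
    D.closedIn_SP ha.grp Subset.rfl hB ⟨_, D.amb.isClosed _, (D.Chain_B_inter th k₀).symm⟩ n
  have hl : LC (BI (D.K (one β)) D.act P') := by
    rw [← e1]
    have h3 : MapsTo D.Chain_pi (D.SP (D.K (one β)) (D.Chain_B th k₀) n)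
        (D.SP (D.K (one β)) (D.Xs th ∩ LinS co D.PX) n) := by
      rintro _ ⟨x, hx, e, he, rfl⟩
      rw [D.Chain_pi_bmk]
      exact ⟨_, ⟨(D.Chain_trunc_Xs hx.1.1.1).2 hx.1.1, D.Chain_trunc_mem _⟩, e, he, rfl⟩
    have h4 := hQ.preimage (D.Chain_pi_cont hB n) h3
    have h5 := (hBl.openIn h4).inter (hBl.openIn hXB.diff)
    convert h5 using 1
    ext q
    exact ⟨fun h => ⟨h.1, h.1.1, h.2⟩, fun h => ⟨h.1, h.2.2⟩⟩
  rw [e1]
  have hh := hs.homeoOn ha hP'i fun p hp => hp.2.1.1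
  have e2 : {p | p ∈ P' ∧ γ p.2 = 1} = {x | x ∈ Zs (D.Xs th ∩ G0 k₀) ∧
      trunc D.PX x ∈ D.Xs th ∩ LinS co D.PX ∩ N' ∧ x none ≠ 0} ×ˢ
      {e | e ∈ Inj D.lab0 n ∧ e ∈ O ∧ e ∈ W₂ ∧ γ e = 1} := by
    ext p
    constructor
    · rintro ⟨⟨⟨a1, a2⟩, ⟨a3, a4⟩, a5⟩, a6⟩
      rw [hF1 (trunc D.PX p.1, p.2) a6] at a4
      exact ⟨⟨a1, ⟨⟨(D.Chain_trunc_Xs a1.1.1.1).2 a1.1.1, D.Chain_trunc_mem _⟩, a4.1⟩,
        fun h => a5 ⟨a1.1.1, D.mem_PX.2 ⟨a1.1.1.1, h⟩⟩⟩, a2, a3, a4.2, a6⟩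
    · rintro ⟨⟨a1, a2, a3⟩, a4, a5, a6, a7⟩
      refine ⟨⟨⟨a1, a4⟩, ⟨a5, ?_⟩, fun h => a3 (D.mem_PX.1 h.2).2⟩, a7⟩
      rw [hF1 (trunc D.PX p.1, p.2) a7]
      exact ⟨a2.2, a6⟩
  rw [e2] at hh
  exact hh.symm.subsingleton (Chain_prod (LC.of_homeoOn hh hl) hv)

theorem Chain_etaX (S : Set (UU β Ar)) {S' : Set (UU β Ar)} (h : S ∩ LinS co D.PX = S') (n : ℕ) :
    D.etaX S n = (fcl (D.K (one β)) D.act co D.chi D.lab0 D.PX (xI D.lab0 (topI D.lab0)) n ∘ₗ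
      ext (D.SP (D.K (one β)) S' n) (D.SP (D.K (one β)) (LinS co D.PX) n)) ∘ₗ
      res (D.SP (D.K (one β)) S n) (D.SP (D.K (one β)) S' n) := by
  subst h
  rfl

/-- From the semistable nilpotent locus to `X^s × 𝔤₀`. -/
theorem Chain_cycB {th : I → ℤ} {key : (I → ℕ) → ℤ} {k₀ : β} (hk : D.IsKey th key)
    (hg : D.Gen0 th k₀) : ∃ i₀, Cyc D.lab0 (D.K (one β)) D.act (D.Chain_B th k₀)
      (D.etaX (D.Chain_B th k₀)) i₀ (D.Ann0 key) := by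
  have ha := D.isAct_K (one β)
  have := ha.nice
  have i1 := D.invX_Zs Subset.rfl (D.invX_A1 th)
  have i2 := D.invX_Zs Subset.rfl (D.Chain_inter (D.invX_Xs th) (D.invX_Om (one β)))
  have i3 := D.Chain_invB hg
  have i4 := D.invX_Zs Subset.rfl ((D.invX_A1 th).diff ha (D.invX_Xs th))
  have i5 := D.invX_Zs Subset.rfl ((D.Chain_invXG hg).diff ha (D.invX_Om (one β)))
  have l1 : LC (Zs (D.A1 th)) :=
    (((D.amb.lc _).closedIn ⟨_, D.isClosed_Om (one β), (inter_eq_right.2 fun x hx => hx.1).symm⟩).openIn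
      (D.openIn_A1 th)).closedIn (closedIn_Zs _)
  have l3 := D.Chain_lcB th k₀
  have o21 : OpenIn (D.Xs th ∩ D.Om (one β)) (D.A1 th) := by
    obtain ⟨O, hO, h⟩ := D.openIn_Xs th
    refine ⟨O, hO, Subset.antisymm (fun x hx => ⟨D.Xs_inter_Om_subset th hx, (h ▸ hx.1).2⟩)
      fun x hx => ⟨h ▸ ⟨hx.1.1.1, hx.2⟩, hx.1.1⟩⟩
  have e41 : D.A1 th \ D.Xs th = D.A1 th \ (D.Xs th ∩ D.Om (one β)) :=
    Subset.antisymm (fun x hx => ⟨hx.1, fun h => hx.2 h.1⟩)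
      fun x hx => ⟨hx.1, fun h => hx.2 ⟨h, hx.1.1⟩⟩
  have c41 : ClosedIn (Zs (D.A1 th \ D.Xs th)) (Zs (D.A1 th)) :=
    Zs_closedIn (e41 ▸ o21.diff)
  have e21 : Zs (D.Xs th ∩ D.Om (one β)) = Zs (D.A1 th) \ Zs (D.A1 th \ D.Xs th) := by
    rw [← Zs_diff, e41, Set.sdiff_sdiff_cancel_left o21.subset]
  have c23' : ClosedIn (D.Xs th ∩ D.Om (one β)) (D.Xs th ∩ G0 k₀) :=
    ⟨_, D.isClosed_Om (one β), Subset.antisymm
      (fun x hx => ⟨⟨hx.1, D.Om_subset_G0 hg hx.2⟩, hx.2⟩) fun x hx => ⟨hx.1.1, hx.2⟩⟩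
  have c23 : ClosedIn (Zs (D.Xs th ∩ D.Om (one β))) (D.Chain_B th k₀) := Zs_closedIn c23'
  have e53 : Zs ((D.Xs th ∩ G0 k₀) \ D.Om (one β))
      = D.Chain_B th k₀ \ Zs (D.Xs th ∩ D.Om (one β)) := by
    rw [← Zs_diff]
    congr 1
    exact Subset.antisymm (fun x hx => ⟨hx.1, fun h => hx.2 h.2⟩)
      fun x hx => ⟨hx.1, fun h => hx.2 ⟨hx.1.1, h⟩⟩
  have O21 := fun n => D.openIn_SP ha.grp Subset.rfl i1 (Zs_openIn o21) n
  have C23 := fun n => D.closedIn_SP ha.grp Subset.rfl i3 c23 n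
  have h2 := (D.cyc_A1 hk hg).comap (L' := D.K (one β)) (act' := D.act) (m := 0)
    (S' := Zs (D.Xs th ∩ D.Om (one β))) (fun n => ext _ _)
    (fun n => ext_bijective (D.lc_SP ha.grp Subset.rfl i1 l1 n)
      (D.closedIn_SP ha.grp Subset.rfl i1 c41 n)
      (by rw [← D.SP_diff ha.grp Subset.rfl i4 n, ← e21])
      (D.subsingleton_SP ha.grp Subset.rfl i4 (l1.closedIn c41) (D.vanish1 hg) n))
    (fun n k x => by rw [add_zero]; exact ext_prH (O21 n) k x)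
    fun n r hr => mulH_ext ha Subset.rfl hr (O21 n)
  have h3 := h2.comap (L' := D.K (one β)) (act' := D.act) (m := 0) (S' := D.Chain_B th k₀)
    (fun n => res _ _)
    (fun n => res_bijective (D.lc_SP ha.grp Subset.rfl i3 l3 n) (C23 n)
      (by rw [← D.SP_diff ha.grp Subset.rfl i2 n, ← e53])
      (D.subsingleton_SP ha.grp Subset.rfl i5 (e53 ▸ l3.openIn c23.diff) (D.vanish2 hg) n))
    (fun n => Chain_res_prH (C23 n)) fun n r hr => mulH_res ha Subset.rfl hr (C23 n)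
  have e : ∀ n, (D.etaX (Zs (D.A1 th)) n ∘ₗ
      ext (D.SP (D.K (one β)) (Zs (D.Xs th ∩ D.Om (one β))) n)
        (D.SP (D.K (one β)) (Zs (D.A1 th)) n)) ∘ₗ
      res (D.SP (D.K (one β)) (D.Chain_B th k₀) n)
        (D.SP (D.K (one β)) (Zs (D.Xs th ∩ D.Om (one β))) n) = D.etaX (D.Chain_B th k₀) n := by
    intro n
    rw [D.etaX_ext i1 i2 (Zs_openIn o21) (D.Chain_A1_inter th ▸ D.Chain_openX th) n,
      D.etaX_res i3 i2 c23 ((D.Chain_Om_inter th).trans (D.Chain_B_inter th k₀).symm) n]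
  exact ⟨_, (funext e) ▸ h3⟩

theorem chain {th : I → ℤ} {key : (I → ℕ) → ℤ} {k₀ : β} (hk : D.IsKey th key)
    (hg : D.Gen0 th k₀) : ∃ (η : ∀ n, EE (D.SP (D.K (one β)) (D.Z0 th) n)) (i₀ : ℤ),
      Cyc D.lab0 (D.K (one β)) D.act (D.Z0 th) η i₀ (D.Ann0 key) ∧ ∀ n, LN _ (η n) := by
  have ha := D.isAct_K (one β)
  have := ha.nice
  obtain ⟨i₀, h3⟩ := D.Chain_cycB hk hg
  have iB := D.Chain_invB hg
  have iG := D.Chain_invG hg
  have iZ := D.invX_Z0 th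
  have iX := D.Chain_inter (D.invX_Xs th) D.invX_PX
  have lB := D.Chain_lcB th k₀
  have cG : ClosedIn (D.Chain_G th k₀) (D.Chain_B th k₀) :=
    ⟨_, isClosed_eq continuous_mu continuous_const, D.Chain_G_eq th k₀⟩
  have eG : Zs ((D.Xs th ∩ G0 k₀) \ {x | mu x = 0}) = D.Chain_B th k₀ \ D.Chain_G th k₀ := by
    rw [D.Chain_G_eq]
    exact Subset.antisymm (fun x hx => ⟨⟨hx.1.1, hx.2⟩, fun h => hx.1.2 h.2⟩)
      fun x hx => ⟨⟨hx.1.1, fun h => hx.2 ⟨hx.1, h⟩⟩, hx.1.2⟩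
  have CG := fun n => D.closedIn_SP ha.grp Subset.rfl iB cG n
  have hb : ∀ n, Function.Bijective (res (D.SP (D.K (one β)) (D.Chain_B th k₀) n)
      (D.SP (D.K (one β)) (D.Chain_G th k₀) n)) := fun n =>
    res_bijective (D.lc_SP ha.grp Subset.rfl iB lB n) (CG n) (D.SP_diff ha.grp Subset.rfl iG n)
      (D.subsingleton_SP ha.grp Subset.rfl (iB.diff ha iG) (lB.openIn cG.diff)
        (eG ▸ D.vanish3 hg) n)
  choose ψ hψ using fun n => (exists_unique_comp (hb n) (D.etaX (D.Chain_B th k₀) n)).exists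
  have h4 := h3.map (L' := D.K (one β)) (act' := D.act) (m := 0) (S' := D.Chain_G th k₀)
    (fun n => res _ _) hb (fun n => Chain_res_prH (CG n))
    (fun n r hr => mulH_res ha Subset.rfl hr (CG n)) hψ
  have hZX : D.Z0 th ⊆ D.Xs th ∩ LinS co D.PX := fun x hx => ⟨hx.1, D.mem_PX.2 ⟨hx.1.1, hx.2.2⟩⟩
  choose t ht using fun n => D.exists_thom_trunc (D.Chain_PX_subset k₀) (D.Chain_hJ hg)
    D.Chain_hPX n
  have hT := fun n => ht n (D.Z0 th) (fun x hx => (hZX hx).2) iZ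
  have hok : ∀ n, TwOK (D.SP (D.K (one β)) (D.Z0 th) n) (D.SP (D.K (one β)) (D.Chain_G th k₀) n)
      D.Chain_pi (t n) := fun n => by
    rw [SP, SP, BS_eq, BS_eq]
    exact (hT n).1
  have hgen : ∀ n, ∀ y ∈ D.SP (D.K (one β)) (D.Z0 th) n,
      IsGenOn (D.SP (D.K (one β)) (D.Chain_G th k₀) n ∩ D.Chain_pi ⁻¹' {y}) (t n) := fun n => by
    rw [SP, SP, BS_eq, BS_eq]
    exact (hT n).isGenOn ha ha (D.inv_SP Subset.rfl iG n)
      (fun u hu p _ => D.Chain_trunc_act hu p.1)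
      ((continuous_trunc _).comp continuous_fst).continuousOn
      fun p hp u hu e he => freeOn_Inj Subset.rfl n u hu e (by
        rw [mem_singleton_iff.1 he]; exact hp.2)
  have lZ := fun n => D.lc_SP ha.grp Subset.rfl iZ (D.lc_Z0 th) n
  have h5 := h4.comap (L' := D.K (one β)) (act' := D.act) (S' := D.Z0 th)
    (fun n => tw _ _ D.Chain_pi (t n))
    (fun n => thom_iso (lZ n) (D.lc_SP ha.grp Subset.rfl iG (lB.closedIn cG) n) (hok n)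
      (hT n).2.1 (hgen n))
    (fun n => tw_prH (hok n) (hT n).2.1) fun n r hr => mulH_tw ha Subset.rfl hr (hok n)
  refine ⟨_, _, h5, fun n => ?_⟩
  refine Chain_ln (amb_ln (fun _ _ h => h) D.amb ha D.invX_PX n)
    (D.openIn_SP ha.grp Subset.rfl D.invX_PX (D.Chain_openX th) n)
    (D.closedIn_SP ha.grp Subset.rfl iB ⟨_, D.amb.isClosed _, (D.Chain_B_inter th k₀).symm⟩ n)
    (CG n) (D.lc_SP ha.grp Subset.rfl iB lB n) ?_ (lZ n) (D.Chain_pi_cont iB n) ?_ ?_ (hok n)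
    (hT n).2.1 (hgen n) ((hψ n).trans (D.Chain_etaX _ (D.Chain_B_inter th k₀) n))
    (D.Chain_loc hg n)
  · rintro _ ⟨x, hx, e, he, rfl⟩
    exact ⟨x, hZX hx, e, he, rfl⟩
  · rintro _ ⟨x, hx, e, he, rfl⟩
    rw [D.Chain_pi_bmk]
    exact ⟨_, ⟨(D.Chain_trunc_Xs hx.1.1.1).2 hx.1.1, D.Chain_trunc_mem _⟩, e, he, rfl⟩
  · rintro _ ⟨x, hx, e, he, rfl⟩
    rw [D.Chain_pi_bmk, D.Chain_trunc_self hx.2]

end HD

end Pool.Agent.HK
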