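import Pool.Agent.P.MP_1206ce_ag.CM.S1
import Pool.Agent.P.MP_1206ce_ag.CM.S2

/-! Comparison with the Borel construction of the quiver variety.
The definitions `fr3`, `K3`, `Phi` are in `CM/Defs.lean`. -/

open scoped Topology
open Filter Set

noncomputable section

namespace Pool.Agent.HK

namespace Qv

variable (Q : Qv)

theorem isAct_actM : IsAct Q.FF Q.actM := Q.CM_isAct_actM

theorem toPt_Phi : (bmap Q.FF ptAct (fun _ => ()) id : Q.YM → Q.YF) ∘ Q.Phi =
    bmap Q.FF ptAct (fun _ => ()) fun e j a => e j (Q.inc (Sum.inr a)) := by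
  funext q
  exact Q.isAct_actM.toPt_bmk Subset.rfl _

theorem compare {θ : Fin Q.nI → ℤ} (hθ : Q.Generic θ) (n : ℕ) :
    IsoBelow (rng Q.HV n) Q.Phi
      (BS Q.K3 Q.hd.act (Q.hd.Z0 (Q.thb θ)) (St Q.hd.lab0 n)) (Q.BM θ n) := by
  have h := (Q.CM_step2 hθ n _).comp (Q.CM_step1 hθ n)
  rwa [Q.CM_Phi_prj] at h

end Qv

end Pool.Agent.HK
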