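import Pool.Agent.P.MP_1206ce_ag.HG.Defs

/-! Cyclic Borel-Moore homology: transfer and Poincare duality. -/

open scoped Topology
open Filter Set

noncomputable section

namespace Pool.Agent.HK

variable {V Λ X X' : Type} [Fintype V] [DecidableEq V] [TopologicalSpace X] [TopologicalSpace X']
variable {lab : V → Λ} {L L' : Set (Matrix V V ℂ)} {act : Matrix V V ℂ → X → X}
  {act' : Matrix V V ℂ → X' → X'} {S : Set X} {S' : Set X'}

theorem ln_up {Y Y' : Type} [TopologicalSpace Y] [TopologicalSpace Y'] [Nice Y] [Nice Y']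
    {A : Set Y} {A' : Set Y'} {π : Y' → Y} {t : Coch Y'} (ht : TwOK A A' π t) {ψ : EE A'}
    (hc : ∀ y ∈ A', ∃ D O, OpenIn O A ∧ π y ∈ O ∧ ConvChart D (A' ∩ π ⁻¹' O))
    (h : LN A (ψ ∘ₗ tw A A' π t)) : LN A' ψ := by
  refine ln_of_charts fun y hy => ?_
  obtain ⟨D, O, hO, hyO, hD⟩ := hc y hy
  refine ⟨D, _, hO.preimage ht.1 ht.2.1, ⟨hy, hyO⟩, hD, fun h0 => h O hO ⟨_, hyO⟩ ?_⟩
  rw [LinearMap.comp_assoc, tw_ext ht hO rfl, ← LinearMap.comp_assoc, h0, LinearMap.zero_comp]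

theorem Cyc_tw_zero {Y : Type} [TopologicalSpace Y] (A : Set Y) : tw A A id 0 = 0 := by
  have h := (tw_smul ((Fund_id_proper A).twOK (zero_mem _)) 0).2
  rwa [zero_smul, zero_smul] at h

theorem Cyc_tw_add {Y : Type} [TopologicalSpace Y] {A : Set Y} {v w : Coch Y} (hv : v ∈ ZZ ⊥ A)
    (hw : w ∈ ZZ ⊥ A) : tw A A id (v + w) = tw A A id v + tw A A id w :=
  (tw_add ((Fund_id_proper A).twOK hv) ((Fund_id_proper A).twOK hw)).2

theorem Cyc_tw_sum {Y ι : Type} [TopologicalSpace Y] {A : Set Y} (s : Finset ι) {v : ι → Coch Y}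
    (hv : ∀ i ∈ s, v i ∈ ZZ ⊥ A) : tw A A id (∑ i ∈ s, v i) = ∑ i ∈ s, tw A A id (v i) := by
  classical
  induction s using Finset.induction_on with
  | empty => rw [Finset.sum_empty, Finset.sum_empty, Cyc_tw_zero]
  | insert i s hi ih =>
    have h1 : ∀ j ∈ s, v j ∈ ZZ ⊥ A := fun j hj => hv j (Finset.mem_insert_of_mem hj)
    rw [Finset.sum_insert hi, Finset.sum_insert hi,
      Cyc_tw_add (hv i (Finset.mem_insert_self i s)) (sum_mem h1), ih h1]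

theorem Cyc_comm {Y Y' : Type} [TopologicalSpace Y] [TopologicalSpace Y'] {A : Set Y}
    {A' : Set Y'} {π : Y' → Y} {w : Coch Y'} (h : TwOK A A' π w) {v : Coch Y} (hv : v ∈ ZZ ⊥ A)
    (he : ∀ k : ℤ, Odd k → prC k v = 0) :
    tw A A' π w ∘ₗ tw A A id v = tw A' A' id (pb π v) ∘ₗ tw A A' π w := by
  obtain ⟨N, hN⟩ := hv.1.1.sum_prC
  have hZ : ∀ k : ℕ, prC (k : ℤ) v ∈ ZZ ⊥ A := fun k => prC_mem_ZZ _ hv
  rw [hN N le_rfl, pb_sum, Cyc_tw_sum _ fun k _ => hZ k,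
    Cyc_tw_sum _ fun k _ => pb_mem_ZZ h.1 h.2.1 (hZ k)]
  ext x
  simp only [LinearMap.comp_apply, LinearMap.sum_apply, map_sum]
  refine Finset.sum_congr rfl fun k _ => ?_
  rcases Int.even_or_odd (k : ℤ) with hk | hk
  · exact LinearMap.congr_fun (tw_mul_comm h (hZ k) (HomC.prC _ v) hk) x
  · exact LinearMap.congr_fun
      (tw_mul_comm h (hZ k) (m := 0) (by rw [he _ hk]; exact HomC.zero 0) Even.zero) x

theorem Cyc_Z (ha : IsAct L act) (hL : L ⊆ KG lab) {h : MvPolynomial V ℂ} (hh : h ∈ Rinv lab)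
    (n : ℕ) : chX lab L act h n ∈ ZZ ⊥ (BS L act S (Inj lab n)) := by
  rw [BS_eq]
  exact chX_mem_ZZ ha hL (fun _ hp => hp.2) hh

theorem Cyc_B (ha : IsAct L act) (hL : L ⊆ KG lab) {n : ℕ}
    {w : Coch (Bor (KG lab) (ptAct (V := V)))} (hw : w ∈ BB ⊥ (BS (KG lab) ptAct univ (Inj lab n))) :
    pb (bmap (KG lab) ptAct (fun _ => ()) id : Bor L act → _) w ∈
      BB ⊥ (BS L act S (Inj lab n)) := by
  rw [BS_eq]
  exact pb_toPt_BB ha hL (fun _ hp => hp.2) hw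

theorem Cyc_odd (h : MvPolynomial V ℂ) (n : ℕ) (k : ℤ) (hk : Odd k) :
    prC k (chX lab L act h n) = 0 := by
  rw [chX, prC_pb, prC_chC_odd lab h n hk, pb_zero]

theorem twOK_mulH (ha : IsAct L act) (hL : L ⊆ KG lab) {h : MvPolynomial V ℂ} (hh : h ∈ Rinv lab)
    (n : ℕ) : TwOK (BS L act S (Inj lab n)) (BS L act S (Inj lab n)) id (chX lab L act h n) :=
  (Fund_id_proper _).twOK (Cyc_Z ha hL hh n)
theorem mulH_add (ha : IsAct L act) (hL : L ⊆ KG lab) {h h' : MvPolynomial V ℂ}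
    (hh : h ∈ Rinv lab) (hh' : h' ∈ Rinv lab) (n : ℕ) :
    mulH lab L act S (h + h') n = mulH lab L act S h n + mulH lab L act S h' n := by
  rw [← Cyc_tw_add (Cyc_Z ha hL hh n) (Cyc_Z ha hL hh' n)]
  exact tw_congr_proper (Fund_id_proper _) (Cyc_Z ha hL (add_mem hh hh') n)
    (add_mem (Cyc_Z ha hL hh n) (Cyc_Z ha hL hh' n)) (Cyc_B ha hL (chC_add hh hh' n))
theorem mulH_smul (ha : IsAct L act) (hL : L ⊆ KG lab) (z : ℂ) {h : MvPolynomial V ℂ}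
    (hh : h ∈ Rinv lab) (n : ℕ) : mulH lab L act S (z • h) n = z • mulH lab L act S h n := by
  rw [← (tw_smul (twOK_mulH ha hL hh n) z).2]
  exact tw_congr_proper (Fund_id_proper _) (Cyc_Z ha hL (Subalgebra.smul_mem _ hh z) n)
    (Submodule.smul_mem _ z (Cyc_Z ha hL hh n)) (Cyc_B ha hL (chC_smul z hh n))
theorem mulH_zero (n : ℕ) : mulH lab L act S 0 n = 0 := by
  rw [mulH, chX, chC_zero, pb_zero, Cyc_tw_zero]
theorem mulH_one (ha : IsAct L act) (hL : L ⊆ KG lab) (n : ℕ) :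
    mulH lab L act S 1 n = LinearMap.id := by
  rw [← tw_id_one]
  refine tw_congr_proper (Fund_id_proper _) (Cyc_Z ha hL (one_mem _) n) (one_mem_ZZ _) ?_
  have h1 := Cyc_B (S := S) ha hL (chC_one lab n)
  rwa [pb_sub, pb_one] at h1
theorem mulH_mul (ha : IsAct L act) (hL : L ⊆ KG lab) {h h' : MvPolynomial V ℂ}
    (hh : h ∈ Rinv lab) (hh' : h' ∈ Rinv lab) (n : ℕ) :
    mulH lab L act S (h * h') n = mulH lab L act S h n ∘ₗ mulH lab L act S h' n := by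
  rw [tw_comp (twOK_mulH ha hL hh' n) (twOK_mulH ha hL hh n), pb_id, mul_comm]
  refine tw_congr_proper (Fund_id_proper _) (Cyc_Z ha hL (mul_mem hh' hh) n)
    (cup_mem_ZZ (Cyc_Z ha hL hh' n) (Cyc_Z ha hL hh n)) ?_
  have h1 := Cyc_B (S := S) ha hL (chC_mul hh' hh n)
  rwa [pb_sub, pb_cup] at h1
theorem EDeg.mulH (ha : IsAct L act) (hL : L ⊆ KG lab) {h : MvPolynomial V ℂ} (hh : h ∈ Rinv lab)
    {d : ℕ} (hd : h.IsHomogeneous d) {n : ℕ} {j : ℤ} {φ : EE (BS L act S (Inj lab n))}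
    (hφ : EDeg _ j φ) : EDeg _ (j - 2 * d) (φ ∘ₗ mulH lab L act S h n) :=
  EDeg.tw (twOK_mulH ha hL hh n) (chX_homC hd n) hφ
theorem mulH_ext [Nice X] (ha : IsAct L act) (hL : L ⊆ KG lab) {S₁ : Set X}
    {h : MvPolynomial V ℂ} (hh : h ∈ Rinv lab) {n : ℕ}
    (ho : OpenIn (BS L act S₁ (Inj lab n)) (BS L act S (Inj lab n))) :
    ext (BS L act S₁ (Inj lab n)) (BS L act S (Inj lab n)) ∘ₗ mulH lab L act S₁ h n =
      mulH lab L act S h n ∘ₗ ext (BS L act S₁ (Inj lab n)) (BS L act S (Inj lab n)) := by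
  have := ha.nice
  exact (tw_ext (twOK_mulH ha hL hh n) ho (inter_eq_right.2 ho.subset).symm).symm
/-- Twisted pull-backs along maps that keep the frame commute with the action. -/
theorem mulH_tw (ha : IsAct L act) (hL : L ⊆ KG lab) {f : X' → X} {h : MvPolynomial V ℂ}
    (hh : h ∈ Rinv lab) {n : ℕ} {t : Coch (Bor L' act')}
    (ht : TwOK (BS L act S (Inj lab n)) (BS L' act' S' (Inj lab n)) (bmap L act f id) t) :
    tw (BS L act S (Inj lab n)) (BS L' act' S' (Inj lab n)) (bmap L act f id) t ∘ₗ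
      mulH lab L act S h n = mulH lab L' act' S' h n ∘ₗ
      tw (BS L act S (Inj lab n)) (BS L' act' S' (Inj lab n)) (bmap L act f id) t := by
  have h1 := Cyc_comm ht (Cyc_Z ha hL hh n) (Cyc_odd h n)
  rwa [pb_chX ha hL] at h1
theorem mulH_res (ha : IsAct L act) (hL : L ⊆ KG lab) {S₁ : Set X} {h : MvPolynomial V ℂ}
    (hh : h ∈ Rinv lab) {n : ℕ}
    (hc : ClosedIn (BS L act S₁ (Inj lab n)) (BS L act S (Inj lab n))) :
    res (BS L act S (Inj lab n)) (BS L act S₁ (Inj lab n)) ∘ₗ mulH lab L act S h n =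
      mulH lab L act S₁ h n ∘ₗ res (BS L act S (Inj lab n)) (BS L act S₁ (Inj lab n)) := by
  have h1 := Cyc_comm (hc.properOn.twOK (one_mem_ZZ _)) (Cyc_Z ha hL hh n) (Cyc_odd h n)
  rwa [pb_id] at h1

theorem Cyc_deg {Y Y' : Type} [TopologicalSpace Y] [TopologicalSpace Y'] {A : Set Y}
    {A' : Set Y'} {T : Hc A →ₗ[ℂ] Hc A'} (hb : Function.Surjective T) {m : ℤ}
    (hd : ∀ k x, prH _ _ (k + m) (T x) = T (prH _ _ k x)) (φ : EE A') {j j' : ℤ}
    (hj : j' = j + m) : EDeg A j (φ ∘ₗ T) ↔ EDeg A' j' φ := by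
  subst hj
  constructor
  · intro h
    ext y
    obtain ⟨x, rfl⟩ := hb y
    rw [LinearMap.comp_apply, hd]
    exact Dual_apply h x
  · intro h
    ext x
    rw [LinearMap.comp_apply, LinearMap.comp_apply, ← hd]
    exact Dual_apply h (T x)

theorem Cyc.comap {η : ∀ n, EE (BS L act S (Inj lab n))} {i₀ : ℤ} {Ann : Set (MvPolynomial V ℂ)}
    (h : Cyc lab L act S η i₀ Ann) {m : ℤ}
    (T : ∀ n, Hc (BS L' act' S' (Inj lab n)) →ₗ[ℂ] Hc (BS L act S (Inj lab n)))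
    (hb : ∀ n, Function.Bijective (T n))
    (hd : ∀ n k x, prH _ _ (k + m) (T n x) = T n (prH _ _ k x))
    (hc : ∀ n, ∀ r ∈ Rinv lab, T n ∘ₗ mulH lab L' act' S' r n = mulH lab L act S r n ∘ₗ T n) :
    Cyc lab L' act' S' (fun n => η n ∘ₗ T n) (i₀ - m) Ann := by
  refine ⟨fun n => (Cyc_deg (hb n).2 (hd n) _ (by ring)).2 (h.deg n), fun i => ?_, fun d => ?_⟩
  · filter_upwards [h.cyc (i + m)] with n hn φ hφ
    obtain ⟨ψ, rfl, -⟩ := exists_unique_comp (hb n) φ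
    obtain ⟨r, hr, hr', rfl⟩ := hn ψ ((Cyc_deg (hb n).2 (hd n) _ (by ring)).1 hφ)
    refine ⟨r, hr, hr'.imp id fun ⟨d, h1, h2⟩ => ⟨d, h1, by linarith⟩, ?_⟩
    rw [LinearMap.comp_assoc, LinearMap.comp_assoc, hc n r hr]
  · filter_upwards [h.ann d] with n hn r hr hrd
    rw [← hn r hr hrd, LinearMap.comp_assoc, hc n r hr, ← LinearMap.comp_assoc]
    exact ⟨fun h0 => Fund_cancel (hb n).2 (h0.trans (LinearMap.zero_comp _).symm),
      fun h0 => by rw [h0, LinearMap.zero_comp]⟩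

theorem Cyc.map {η : ∀ n, EE (BS L act S (Inj lab n))} {i₀ : ℤ} {Ann : Set (MvPolynomial V ℂ)}
    (h : Cyc lab L act S η i₀ Ann) {m : ℤ}
    (T : ∀ n, Hc (BS L act S (Inj lab n)) →ₗ[ℂ] Hc (BS L' act' S' (Inj lab n)))
    (hb : ∀ n, Function.Bijective (T n))
    (hd : ∀ n k x, prH _ _ (k + m) (T n x) = T n (prH _ _ k x))
    (hc : ∀ n, ∀ r ∈ Rinv lab, T n ∘ₗ mulH lab L act S r n = mulH lab L' act' S' r n ∘ₗ T n)
    {η' : ∀ n, EE (BS L' act' S' (Inj lab n))} (hη : ∀ n, η' n ∘ₗ T n = η n) :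
    Cyc lab L' act' S' η' (i₀ + m) Ann := by
  have key : ∀ n, ∀ r ∈ Rinv lab,
      η n ∘ₗ mulH lab L act S r n = (η' n ∘ₗ mulH lab L' act' S' r n) ∘ₗ T n := fun n r hr => by
    rw [← hη, LinearMap.comp_assoc, LinearMap.comp_assoc, hc n r hr]
  refine ⟨fun n => (Cyc_deg (hb n).2 (hd n) _ (by ring)).1 (hη n ▸ h.deg n), fun i => ?_,
    fun d => ?_⟩
  · filter_upwards [h.cyc (i - m)] with n hn φ hφ
    obtain ⟨r, hr, hr', he⟩ := hn (φ ∘ₗ T n) ((Cyc_deg (hb n).2 (hd n) _ (by ring)).2 hφ)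
    exact ⟨r, hr, hr'.imp id fun ⟨d, h1, h2⟩ => ⟨d, h1, by linarith⟩,
      Fund_cancel (hb n).2 (he.trans (key n r hr))⟩
  · filter_upwards [h.ann d] with n hn r hr hrd
    rw [← hn r hr hrd, key n r hr]
    exact ⟨fun h0 => by rw [h0, LinearMap.zero_comp],
      fun h0 => Fund_cancel (hb n).2 (h0.trans (LinearMap.zero_comp _).symm)⟩

theorem Cyc.pd [Nice X] (ha : IsAct L act) (hL : L ⊆ KG lab)
    {η : ∀ n, EE (BS L act S (Inj lab n))} {i₀ : ℤ} {Ann : Set (MvPolynomial V ℂ)}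
    (h : Cyc lab L act S η i₀ Ann) (hE : ∀ n, LocEuc (BS L act S (Inj lab n)))
    (hln : ∀ n, LN _ (η n)) :
    (∀ k : ℤ, ∀ᶠ n in atTop, ∀ w ∈ ZZ ⊥ (BS L act S (Inj lab n)), HomC k w →
      ∃ r ∈ Rinv lab, (r = 0 ∨ ∃ d : ℕ, k = 2 * (d : ℤ) ∧ r.IsHomogeneous d) ∧
        w - chX lab L act r n ∈ BB ⊥ (BS L act S (Inj lab n))) ∧
    ∀ d : ℕ, ∀ᶠ n in atTop, ∀ r ∈ Rinv lab, r.IsHomogeneous d →
      (chX lab L act r n ∈ BB ⊥ (BS L act S (Inj lab n)) ↔ r ∈ Ann) := by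
  have := ha.nice
  refine ⟨fun k => ?_, fun d => ?_⟩
  · filter_upwards [h.cyc (i₀ - k)] with n hn w hw hk
    have h1 := EDeg.tw ((Fund_id_proper _).twOK hw) hk (h.deg n)
    rw [add_sub_assoc] at h1
    obtain ⟨r, hr, hr', he⟩ := hn _ h1
    refine ⟨r, hr, hr'.imp id fun ⟨d, h1, h2⟩ => ⟨d, by linarith, h1⟩, ?_⟩
    have h2 := sub_mem hw (Cyc_Z ha hL hr n)
    refine pd_inj (hE n) (h.deg n) (hln n) h2 ?_
    have h3 := Cyc_tw_add h2 (Cyc_Z ha hL hr n)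
    rw [sub_add_cancel] at h3
    rw [h3, LinearMap.comp_add] at he
    exact add_eq_right.1 he
  · filter_upwards [h.ann d] with n hn r hr hrd
    rw [← hn r hr hrd]
    refine ⟨fun h0 => ?_, pd_inj (hE n) (h.deg n) (hln n) (Cyc_Z ha hL hr n)⟩
    rw [mulH, tw_congr_proper (Fund_id_proper _) (Cyc_Z ha hL hr n) (zero_mem _)
      (by rwa [sub_zero]), Cyc_tw_zero, LinearMap.comp_zero]

end Pool.Agent.HK
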