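import Pool.Agent.P.MP_1206ce_ag.AH.Defs
import Pool.Agent.P.MP_1206ce_ag.BO.Fund

/-! Tripled quiver representations and their Borel-Moore classes: definitions. -/

open scoped Topology
open Filter Set

noncomputable section

namespace Pool.Agent.HK

/-- Multiplication by the characteristic class of `h`. -/
abbrev mulH {V Λ X : Type} [Fintype V] [DecidableEq V] [TopologicalSpace X] (lab : V → Λ)
    (L : Set (Matrix V V ℂ)) (act : Matrix V V ℂ → X → X) (S : Set X) (h : MvPolynomial V ℂ)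
    (n : ℕ) : Hc (BS L act S (Inj lab n)) →ₗ[ℂ] Hc (BS L act S (Inj lab n)) :=
  tw (BS L act S (Inj lab n)) (BS L act S (Inj lab n)) id (chX lab L act h n)

/-- In the stable range the Borel-Moore homology is cyclic on `η` with annihilator `Ann`. -/
structure Cyc {V Λ X : Type} [Fintype V] [DecidableEq V] [TopologicalSpace X] (lab : V → Λ)
    (L : Set (Matrix V V ℂ)) (act : Matrix V V ℂ → X → X) (S : Set X)
    (η : ∀ n, EE (BS L act S (Inj lab n))) (i₀ : ℤ) (Ann : Set (MvPolynomial V ℂ)) : Prop where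
  deg : ∀ n, EDeg _ (D0 V n + i₀) (η n)
  cyc : ∀ i : ℤ, ∀ᶠ n in atTop, ∀ φ : EE (BS L act S (Inj lab n)), EDeg _ (D0 V n + i) φ →
    ∃ h ∈ Rinv lab, (h = 0 ∨ ∃ d : ℕ, h.IsHomogeneous d ∧ i = i₀ - 2 * d) ∧
      φ = η n ∘ₗ mulH lab L act S h n
  ann : ∀ d : ℕ, ∀ᶠ n in atTop, ∀ h ∈ Rinv lab, h.IsHomogeneous d →
    (η n ∘ₗ mulH lab L act S h n = 0 ↔ h ∈ Ann)

namespace HD

variable {β I Ar τ Λ : Type} [Fintype β] [DecidableEq β] [Fintype I] [DecidableEq I] [Fintype Ar]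
  [DecidableEq Ar] [Fintype τ] [DecidableEq τ] [DecidableEq Λ] (D : HD β I Ar τ)

/-- The ambient space: one matrix for each arrow of the tripled quiver. -/
abbrev UU (β Ar : Type) : Type := Gam Ar → Matrix β β ℂ

/-- The gauge part. -/
def gau (u : Matrix (β ⊕ τ) (β ⊕ τ) ℂ) : Matrix β β ℂ := u.submatrix Sum.inl Sum.inl

/-- The action. -/
def act (u : Matrix (β ⊕ τ) (β ⊕ τ) ℂ) (x : UU β Ar) : UU β Ar := fun γ =>
  chr (Sum.elim 0 (D.w3 γ)) u • (gau u * x γ * star (gau u))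

/-- Matrix entries. -/
def co (x : UU β Ar) (p : Gam Ar × β × β) : ℂ := x p.1 p.2.1 p.2.2

/-- Positions of `U_σ`. -/
def PU (sl : β → Λ) : Finset (Gam Ar × β × β) :=
  Finset.univ.filter fun p => D.ok p.1 p.2.1 p.2.2 ∧ sl p.2.1 = sl p.2.2

/-- Positions of `Y_ρ`. -/
def PY (sl : β → Λ) (ρ : β → ℕ) : Finset (Gam Ar × β × β) :=
  (D.PU sl).filter fun p => if p.1 = none then ρ p.2.1 < ρ p.2.2 else ρ p.2.1 ≤ ρ p.2.2

/-- Positions of the subspace where `V_q` is invariant. -/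
def PP (sl : β → Λ) (q : Finset β) : Finset (Gam Ar × β × β) :=
  (D.PU sl).filter fun p => p.2.2 ∈ q → p.2.1 ∈ q

/-- Positions of `T^* N` (`a = 0`). -/
def PX : Finset (Gam Ar × β × β) := (D.PU (one β)).filter fun p => p.1 ≠ none

/-- `U_σ`. -/
abbrev U (sl : β → Λ) : Set (UU β Ar) := LinS co (D.PU sl)

/-- The moment map. -/
def mu (x : UU β Ar) : Matrix β β ℂ := ∑ h, (x (some (Sum.inl h)) * x (some (Sum.inr h)) -
  x (some (Sum.inr h)) * x (some (Sum.inl h)))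

/-- The potential. -/
def Wf (x : UU β Ar) : ℂ := Matrix.trace (x none * mu x)

/-- The part where the real part of the potential is nonnegative. -/
def Zs (S : Set (UU β Ar)) : Set (UU β Ar) := S ∩ {x | 0 ≤ (Wf x).re}

/-- `Ω_σ`. -/
def Om (sl : β → Λ) : Set (UU β Ar) := {x | x ∈ D.U sl ∧ IsNilpotent (x none)}

/-- The summand at a vertex. -/
def Vi (i : I) : Submodule ℂ (β → ℂ) := Submodule.pi {k | D.v k ≠ i} fun _ => ⊥

/-- Coordinate subspaces. -/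
def Vq (q : Finset β) : Submodule ℂ (β → ℂ) := Submodule.pi {k | k ∉ q} fun _ => ⊥

/-- Graded subspaces. -/
def Gr (S : Submodule ℂ (β → ℂ)) : Prop := S = ⨆ i, S ⊓ D.Vi i

/-- Their dimension vectors. -/
def dimS (S : Submodule ℂ (β → ℂ)) : I → ℕ := fun i => Module.finrank ℂ ↥(S ⊓ D.Vi i)

/-- Invariant under all arrows. -/
def InvAll (x : UU β Ar) (S : Submodule ℂ (β → ℂ)) : Prop := ∀ γ, ∀ z ∈ S, (x γ).mulVec z ∈ S

/-- Invariant under the arrows of the doubled quiver. -/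
def InvXi (x : UU β Ar) (S : Submodule ℂ (β → ℂ)) : Prop :=
  ∀ γ, ∀ z ∈ S, (x (some γ)).mulVec z ∈ S

/-- No invariant graded subspace of `V_p` has key above `κ`. -/
def Ole (key : (I → ℕ) → ℤ) (p : Finset β) (κ : ℤ) : Set (UU β Ar) :=
  {x | ∀ S, D.Gr S → S ≤ Vq p → InvAll x S → key (D.dimS S) ≤ κ}

/-- `A_{σ,t}`. -/
def A (key : (I → ℕ) → ℤ) (sl : β → Λ) (t : Finset (Finset β)) : Set (UU β Ar) :=
  {x | x ∈ D.Om sl ∧ ∀ p ∈ t, x ∈ D.Ole key p (D.last key p)}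

/-- Borel approximations. -/
abbrev SP (L : Set (Matrix (β ⊕ τ) (β ⊕ τ) ℂ)) (S : Set (UU β Ar)) (n : ℕ) : Set (Bor L D.act) :=
  BS L D.act S (Inj D.lab0 n)

/-- The group of a slot decomposition. -/
abbrev K (sl : β → Λ) : Set (Matrix (β ⊕ τ) (β ⊕ τ) ℂ) := KG (D.lab sl)

/-- Ambient classes. -/
abbrev aU (sl : β → Λ) (f : MvPolynomial (β ⊕ τ) ℂ) (n : ℕ) : EE (D.SP (D.K sl) (D.U sl) n) :=
  fcl (D.K sl) D.act co D.chi D.lab0 (D.PU sl) f n

/-- Push-forward from the nilpotent locus. -/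
abbrev push (sl : β → Λ) (n : ℕ) (ψ : EE (D.SP (D.K sl) (Zs (D.Om sl)) n)) :
    EE (D.SP (D.K sl) (D.U sl) n) :=
  ψ ∘ₗ res (D.SP (D.K sl) (D.U sl) n) (D.SP (D.K sl) (Zs (D.Om sl)) n)

/-- The geometric part of the Jordan theorem. -/
structure JT (sl : β → Λ) : Prop where
  inj : ∀ i : ℤ, ∀ᶠ n in atTop, ∀ ψ : EE (D.SP (D.K sl) (Zs (D.Om sl)) n),
    EDeg _ (D0 (β ⊕ τ) n + i) ψ → D.push sl n ψ = 0 → ψ = 0
  img : ∀ d : ℕ, ∀ᶠ n in atTop, ∀ f : MvPolynomial (β ⊕ τ) ℂ, f.IsHomogeneous d →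
    ((∃ ψ : EE (D.SP (D.K sl) (Zs (D.Om sl)) n),
      EDeg _ (D0 (β ⊕ τ) n + 2 * (D.PU sl).card - 2 * d) ψ ∧ D.push sl n ψ = D.aU sl f n) ↔
      ∃ y ∈ D.Y sl, Alt (D.lab sl) f = D.hb ^ Fintype.card β * y)

/-- The stability theorem. -/
structure HNT (key : (I → ℕ) → ℤ) (sl : β → Λ) (t : Finset (Finset β)) : Prop where
  surj : ∀ i : ℤ, ∀ᶠ n in atTop, ∀ φ : EE (D.SP (D.K sl) (Zs (D.A key sl t)) n),
    EDeg _ (D0 (β ⊕ τ) n + i) φ → ∃ ψ : EE (D.SP (D.K sl) (Zs (D.Om sl)) n),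
      EDeg _ (D0 (β ⊕ τ) n + i) ψ ∧
      ψ ∘ₗ ext (D.SP (D.K sl) (Zs (D.A key sl t)) n) (D.SP (D.K sl) (Zs (D.Om sl)) n) = φ
  ker : ∀ d : ℕ, ∀ᶠ n in atTop, ∀ f : MvPolynomial (β ⊕ τ) ℂ, f.IsHomogeneous d →
    ∀ ψ : EE (D.SP (D.K sl) (Zs (D.Om sl)) n),
      EDeg _ (D0 (β ⊕ τ) n + 2 * (D.PU sl).card - 2 * d) ψ → D.push sl n ψ = D.aU sl f n →
      (ψ ∘ₗ ext (D.SP (D.K sl) (Zs (D.A key sl t)) n) (D.SP (D.K sl) (Zs (D.Om sl)) n) = 0 ↔
        ∃ y ∈ D.Dd key sl t, Alt (D.lab sl) f = D.hb ^ Fintype.card β * y)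

/-- Points whose doubled part is semistable. -/
def Xs (th : I → ℤ) : Set (UU β Ar) :=
  {x | x ∈ D.U (one β) ∧ ∀ S, D.Gr S → InvXi x S → thd th (D.dimS S) ≤ 0}

/-- Semistable nilpotent points of the tripled quiver. -/
def A1 (th : I → ℤ) : Set (UU β Ar) :=
  {x | x ∈ D.Om (one β) ∧ ∀ S, D.Gr S → InvAll x S → thd th (D.dimS S) ≤ 0}

/-- The loop vanishes on the framing line. -/
def G0 (k₀ : β) : Set (UU β Ar) := {x | x none k₀ k₀ = 0}

/-- The semistable zero fibre of the moment map. -/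
def Z0 (th : I → ℤ) : Set (UU β Ar) := {x | x ∈ D.Xs th ∧ mu x = 0 ∧ x none = 0}

/-- The push-forward of the fundamental class of `T^* N`, on an invariant set `S` that contains
`S ∩ {a = 0}` as a closed subset which is open in `T^* N`. -/
def etaX (S : Set (UU β Ar)) (n : ℕ) : EE (D.SP (D.K (one β)) S n) :=
  (fcl (D.K (one β)) D.act co D.chi D.lab0 D.PX (xI D.lab0 (topI D.lab0)) n ∘ₗ
    ext (D.SP (D.K (one β)) (S ∩ LinS co D.PX) n) (D.SP (D.K (one β)) (LinS co D.PX) n)) ∘ₗ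
    res (D.SP (D.K (one β)) S n) (D.SP (D.K (one β)) (S ∩ LinS co D.PX) n)

end HD

end Pool.Agent.HK
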