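import Pool.Agent.P.MP_1206ce_ag.HG.Cyc

/-! Dropping a circle factor from the group. -/

open scoped Topology
open Filter Set

noncomputable section

namespace Pool.Agent.HK

section core

variable {V Λ X X' : Type} [Fintype V] [DecidableEq V] [TopologicalSpace X] [TopologicalSpace X']
variable {lab : V → Λ} {L : Set (Matrix V V ℂ)} {act : Matrix V V ℂ → X → X}
  {act' : Matrix V V ℂ → X' → X'}

theorem Gys_mulH_sub (ha : IsAct L act) (hL : L ⊆ KG lab) {S : Set X} {h h' : MvPolynomial V ℂ}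
    (hh : h ∈ Rinv lab) (hh' : h' ∈ Rinv lab) (n : ℕ) :
    mulH lab L act S (h - h') n = mulH lab L act S h n - mulH lab L act S h' n := by
  rw [eq_sub_iff_add_eq, ← mulH_add ha hL (sub_mem hh hh') hh', sub_add_cancel]

/-- The algebra of the Gysin sequence. -/
theorem Gys_core [Nice X'] (ha : IsAct L act) (ha' : IsAct L act') (hL : L ⊆ KG lab) {S : Set X}
    {S' Z U : Set X'} {k : V} (hX : (MvPolynomial.X k : MvPolynomial V ℂ) ∈ Rinv lab)
    {η : ∀ n, EE (BS L act S (Inj lab n))} {i₀ : ℤ} {Ann : Set (MvPolynomial V ℂ)}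
    (h : Cyc lab L act S η i₀ Ann) (hA : IsAnn lab Ann) (hr : RegMod lab Ann k)
    (T : ∀ n, Hc (BS L act S (Inj lab n)) →ₗ[ℂ] Hc (BS L act' S' (Inj lab n)))
    (R : ∀ n, Hc (BS L act S (Inj lab n)) →ₗ[ℂ] Hc (BS L act' Z (Inj lab n)))
    (hT : ∀ n, Function.Bijective (T n)) (hR : ∀ n, Function.Bijective (R n))
    (hTd : ∀ n j x, prH _ _ (j + 2) (T n x) = T n (prH _ _ j x))
    (hRd : ∀ n j ψ, EDeg _ j ψ → EDeg _ j (ψ ∘ₗ R n))
    (hTc : ∀ n, ∀ r ∈ Rinv lab, T n ∘ₗ mulH lab L act S r n = mulH lab L act' S' r n ∘ₗ T n)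
    (hTR : ∀ n, res (BS L act' S' (Inj lab n)) (BS L act' Z (Inj lab n)) ∘ₗ T n =
      R n ∘ₗ mulH lab L act S (MvPolynomial.X k) n)
    (hlc : ∀ n, LC (BS L act' S' (Inj lab n)))
    (hcl : ∀ n, ClosedIn (BS L act' Z (Inj lab n)) (BS L act' S' (Inj lab n)))
    (hU : ∀ n, BS L act' U (Inj lab n) = BS L act' S' (Inj lab n) \ BS L act' Z (Inj lab n))
    {ξ : ∀ n, EE (BS L act' S' (Inj lab n))} (hξ : ∀ n, ξ n ∘ₗ T n = η n) :
    Cyc lab L act' U (fun n => ξ n ∘ₗ ext (BS L act' U (Inj lab n)) (BS L act' S' (Inj lab n)))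
      (i₀ + 2) (AnnAdd lab Ann k) := by
  have := ha'.nice
  have hc := h.map T hT hTd hTc hξ
  have ho : ∀ n, OpenIn (BS L act' U (Inj lab n)) (BS L act' S' (Inj lab n)) := fun n => by
    rw [hU]
    exact (hcl n).diff
  have k0 : ∀ n (ψ : EE (BS L act' Z (Inj lab n))),
      (ψ ∘ₗ res (BS L act' S' (Inj lab n)) (BS L act' Z (Inj lab n))) ∘ₗ T n =
        (ψ ∘ₗ R n) ∘ₗ mulH lab L act S (MvPolynomial.X k) n := fun n ψ => by
    rw [LinearMap.comp_assoc, hTR, LinearMap.comp_assoc]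
  have k1 : ∀ n, ∀ r ∈ Rinv lab,
      (ξ n ∘ₗ mulH lab L act' S' r n) ∘ₗ T n = η n ∘ₗ mulH lab L act S r n := fun n r hr' => by
    rw [LinearMap.comp_assoc, ← hTc n r hr', ← LinearMap.comp_assoc, hξ]
  have k2 : ∀ n, ∀ r ∈ Rinv lab,
      (ξ n ∘ₗ ext (BS L act' U (Inj lab n)) (BS L act' S' (Inj lab n))) ∘ₗ
        mulH lab L act' U r n = (ξ n ∘ₗ mulH lab L act' S' r n) ∘ₗ
          ext (BS L act' U (Inj lab n)) (BS L act' S' (Inj lab n)) := fun n r hr' => by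
    rw [LinearMap.comp_assoc, mulH_ext ha' hL hr' (ho n), LinearMap.comp_assoc]
  have k3 : ∀ n, ∀ r ∈ Rinv lab, (η n ∘ₗ mulH lab L act S r n) ∘ₗ
      mulH lab L act S (MvPolynomial.X k) n =
        η n ∘ₗ mulH lab L act S (MvPolynomial.X k * r) n := fun n r hr' => by
    rw [LinearMap.comp_assoc, ← mulH_mul ha hL hr' hX, mul_comm]
  have k4 : ∀ n, ∀ r ∈ Rinv lab, (ξ n ∘ₗ mulH lab L act' S' (MvPolynomial.X k * r) n) ∘ₗ
      ext (BS L act' U (Inj lab n)) (BS L act' S' (Inj lab n)) = 0 := fun n r hr' => by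
    obtain ⟨ψ, hψ, -⟩ := exists_unique_comp (hR n) (η n ∘ₗ mulH lab L act S r n)
    have e1 : ξ n ∘ₗ mulH lab L act' S' (MvPolynomial.X k * r) n =
        ψ ∘ₗ res (BS L act' S' (Inj lab n)) (BS L act' Z (Inj lab n)) := by
      rw [← LinearMap.cancel_right (hT n).2, k0 n ψ, k1 n _ (mul_mem hX hr'), hψ, k3 n r hr']
    rw [e1]
    exact E_push_restrict (hcl n) (hU n) ψ
  refine ⟨fun n => (hc.deg n).ext (ho n), fun i => ?_, fun d => ?_⟩
  · filter_upwards [h.cyc (i - 1), h.ann ((i₀ - i + 1) / 2).toNat,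
      h.ann (((i₀ - i + 1) / 2).toNat + 1), hc.cyc i] with n c1 a1 a2 c2 χ hχ
    obtain ⟨φ, hφ, rfl⟩ := E_surj_of_inj (hlc n) (hcl n) (hU n) (j := D0 V n + i)
      (fun ψ hψ h0 => by
        obtain ⟨r, hr', hd, e1⟩ := c1 (ψ ∘ₗ R n) (by
          have := hRd n _ ψ hψ
          rwa [add_sub_assoc] at this)
        have e2 : η n ∘ₗ mulH lab L act S r n = 0 := by
          rcases hd with rfl | ⟨d, hd, hi⟩
          · rw [mulH_zero, LinearMap.comp_zero]
          · have e3 : ((i₀ - i + 1) / 2).toNat = d := by omega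
            rw [e3] at a1 a2
            refine (a1 r hr' hd).2 (hr r hr' ((a2 _ (mul_mem hX hr') ?_).1 ?_))
            · rw [add_comm]
              exact (MvPolynomial.isHomogeneous_X ℂ k).mul hd
            · rw [← k3 n r hr', ← e1, ← k0 n ψ, h0, LinearMap.zero_comp]
        rw [← LinearMap.cancel_right (hR n).2, e1, e2, LinearMap.zero_comp]) χ hχ
    obtain ⟨r, hr', hd, rfl⟩ := c2 φ hφ
    exact ⟨r, hr', hd, (k2 n r hr').symm⟩
  · filter_upwards [h.cyc (i₀ + 2 - 2 * d), h.ann d, hc.ann d] with n c1 a1 a2 r hr' hd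
    rw [k2 n r hr']
    constructor
    · intro h0
      obtain ⟨ψ, hψ, e1⟩ := E_exact_mid (hlc n) (hcl n) (hU n)
        (EDeg.mulH ha' hL hr' hd (hc.deg n)) h0
      obtain ⟨s, hs, hds, e2⟩ := c1 (ψ ∘ₗ R n) (by
        have := hRd n _ ψ hψ
        rwa [add_sub_assoc] at this)
      refine ⟨r - MvPolynomial.X k * s, (a1 _ (sub_mem hr' (mul_mem hX hs)) ?_).1 ?_, s, hs,
        (sub_add_cancel _ _).symm⟩
      · rcases hds with rfl | ⟨d', hd', hi⟩
        · rwa [mul_zero, sub_zero]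
        · have e3 : d = 1 + d' := by omega
          subst e3
          exact hd.sub ((MvPolynomial.isHomogeneous_X ℂ k).mul hd')
      · rw [Gys_mulH_sub ha hL hr' (mul_mem hX hs), LinearMap.comp_sub, ← k3 n s hs, ← e2,
          ← k0 n ψ, ← e1, k1 n r hr', sub_self]
    · rintro ⟨a, ha₀, s, hs, e1⟩
      have hs' : (if d < 1 then 0 else MvPolynomial.homogeneousComponent (d - 1) s) ∈ Rinv lab := by
        split_ifs
        · exact zero_mem _
        · exact homogeneousComponent_mem_Rinv hs _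
      have e2 : r = MvPolynomial.homogeneousComponent d a + MvPolynomial.X k *
          (if d < 1 then 0 else MvPolynomial.homogeneousComponent (d - 1) s) := by
        rw [← MvPolynomial.homogeneousComponent_eq_self hd, e1, map_add,
          mul_comm (MvPolynomial.X k) s, Artin_hc_mul s (MvPolynomial.isHomogeneous_X ℂ k),
          mul_comm]
      have ha₁ := hA.hom a ha₀ d
      rw [e2, mulH_add ha' hL (hA.sub _ ha₁) (mul_mem hX hs'), LinearMap.comp_add,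
        LinearMap.add_comp, k4 n _ hs', (a2 _ (hA.sub _ ha₁)
          (MvPolynomial.homogeneousComponent_isHomogeneous d a)).2 ha₁, LinearMap.zero_comp,
        add_zero]

end core

section line

variable {V Λ X : Type} [Fintype V] [DecidableEq V] [TopologicalSpace X]
variable {lab : V → Λ} {act : Matrix V V ℂ → X → X} {S : Set X} {k : V}

/-- The action on the product with the line of the `k`-th basis vector. -/
abbrev Gys_act (act : Matrix V V ℂ → X → X) (k : V) (u : Matrix V V ℂ) (p : X × (Unit → ℂ)) :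
    X × (Unit → ℂ) := (act u p.1, u k k • p.2)

theorem Gys_isAct (ha : IsAct (KG lab) act) (h1 : ∀ l, lab l = lab k → l = k) :
    IsAct (KG lab) (Gys_act act k) := ha.prod (isMod_line h1).act

theorem Gys_norm (h1 : ∀ l, lab l = lab k → l = k) {u : Matrix V V ℂ} (hu : u ∈ KG lab) :
    ‖u k k‖ = 1 := by
  have h := congrFun (congrFun ((isGrp_KG lab).mul_star hu) k) k
  rw [Matrix.mul_apply, Finset.sum_eq_single k (fun l _ hl => by
    rw [hu.2 k l fun hkl => hl (h1 l hkl.symm), zero_mul]) (fun hk => absurd (Finset.mem_univ k) hk),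
    Matrix.star_apply, Matrix.one_apply_eq, Complex.star_def, Complex.mul_conj'] at h
  have h2 : ‖u k k‖ ^ 2 = 1 := by exact_mod_cast h
  exact (pow_eq_one_iff_of_nonneg (norm_nonneg _) two_ne_zero).1 h2

omit [Fintype V] [DecidableEq V] [TopologicalSpace X] in
theorem Gys_inv_univ {L : Set (Matrix V V ℂ)} (hS : InvX L act S) :
    InvX L (Gys_act act k) (S ×ˢ univ) := fun u hu _ hx => ⟨hS u hu _ hx.1, mem_univ _⟩

omit [Fintype V] [DecidableEq V] [TopologicalSpace X] in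
theorem Gys_inv_zero {L : Set (Matrix V V ℂ)} (hS : InvX L act S) :
    InvX L (Gys_act act k) (S ×ˢ {0}) := fun u hu x hx =>
  ⟨hS u hu _ hx.1, by
    have h : x.2 = 0 := hx.2
    simp [h]⟩

theorem Gys_thom [T2Space X] (ha : IsAct (KG lab) act) (hS : InvX (KG lab) act S)
    (h1 : ∀ l, lab l = lab k → l = k) (fr : Set V) (n : ℕ) :
    ∃ t : Coch (Bor (KF lab fr) (Gys_act act k)),
      IsThomFor (KF lab fr) (Gys_act act k) act ((S ×ˢ univ) ×ˢ Inj lab n) (S ×ˢ Inj lab n)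
        Prod.fst Prod.snd t ∧
      t - chX lab (KF lab fr) (Gys_act act k) (MvPolynomial.X k) n ∈
        BB ⊥ (BI (KF lab fr) (Gys_act act k) ((S ×ˢ univ) ×ˢ Inj lab n)) := by
  obtain ⟨τ, hτ⟩ := exists_tauK (isMod_line h1) n
  have ha' := Gys_isAct ha h1
  have hE := invF_Inj (subset_rfl (a := KG lab)) n
  have hP' := Inv.prod (Gys_inv_univ (k := k) hS) hE
  have h0 := isThomFor_pb ha ha' (isMod_line h1).act hE hτ (Gys_inv_univ hS) (co := Prod.snd)
    (fun _ _ _ _ => rfl) hS (f := Prod.fst) (fun _ _ _ _ => rfl) (g := id)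
    ⟨continuousOn_id, continuousOn_id, mapsTo_id _, mapsTo_id _, fun _ _ => rfl, fun _ _ => rfl⟩
  refine ⟨_, h0.subgroup ha ha' (isGrp_KF lab fr) (KF_subset lab fr) hP' (Inv.prod hS hE)
    (fun _ _ _ _ => rfl) (by fun_prop), ?_⟩
  have c1 := Thom_map_cont ha' (Gys_inv_univ hS) (f := Prod.snd)
    (act₁ := fun (u : Matrix V V ℂ) (v : Unit → ℂ) => u k k • v) (fun _ _ _ _ => rfl)
    continuousOn_snd (mapsTo_univ _ _) hE
  have c2 := ha'.ind_proper (isGrp_KF lab fr) (KF_subset lab fr) hP' (hP'.mono (KF_subset lab fr))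
    (ClosedIn.refl _)
  have b1 := pb_mem_BB c2.1 c2.2.1 (pb_mem_BB c1.1 c1.2 (tauK_line_euler h1 n hτ))
  rwa [pb_sub, pb_sub, pb_chX (isMod_line h1).act subset_rfl, pb_chX ha' subset_rfl] at b1

theorem Gys_pre_eq {Y Y' : Type} [TopologicalSpace Y] [TopologicalSpace Y'] {f : Y' → Y}
    {g : Y → Y'} {A B : Set Y} {A' : Set Y'} (h : HomeoOn f g A' A) (hB : B ⊆ A) :
    A' ∩ f ⁻¹' B = g '' B := by
  ext y
  constructor
  · rintro ⟨h1, h2⟩
    exact ⟨f y, h2, h.2.2.2.2.1 y h1⟩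
  · rintro ⟨z, hz, rfl⟩
    refine ⟨h.2.2.2.1 (hB hz), ?_⟩
    rw [mem_preimage, h.2.2.2.2.2 z (hB hz)]
    exact hz

theorem Gys_fst_bmk {L : Set (Matrix V V ℂ)} (ha' : IsAct L (Gys_act act k))
    (p : (X × (Unit → ℂ)) × Fr V) :
    (bmap L act Prod.fst id : Bor L (Gys_act act k) → Bor L act) (bmk L (Gys_act act k) p) =
      bmk L act (p.1.1, p.2) :=
  Thom_map_bmk ha' (P' := univ) (fun _ _ _ _ => rfl) (mem_univ p)

theorem Gys_chart {fr : Set V} (ha : IsAct (KF lab fr) act)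
    (ha' : IsAct (KF lab fr) (Gys_act act k)) (hS : InvX (KF lab fr) act S) (hd : LocEuc S)
    (n : ℕ) : ∀ y ∈ BS (KF lab fr) (Gys_act act k) (S ×ˢ univ) (Inj lab n),
      ∃ D O, OpenIn O (BS (KF lab fr) act S (Inj lab n)) ∧
        (bmap (KF lab fr) act Prod.fst id : Bor (KF lab fr) (Gys_act act k) → _) y ∈ O ∧
        ConvChart D (BS (KF lab fr) (Gys_act act k) (S ×ˢ univ) (Inj lab n) ∩
          (bmap (KF lab fr) act Prod.fst id : Bor (KF lab fr) (Gys_act act k) → _) ⁻¹' O) := by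
  rintro _ ⟨x, hx, e, he, rfl⟩
  have hE := invF_Inj (KF_subset lab fr) n
  have ho := openIn_Inj lab n
  obtain ⟨D, O, γ, -, heO, hsl⟩ := exists_slice lab fr n he
  have hEO : InvF (KF lab fr) (Inj lab n ∩ O) := fun u hu e' he' =>
    ⟨hE u hu e' he'.1, hsl.inv u hu e' he'.2⟩
  have hP : Inv (KF lab fr) act (S ×ˢ (Inj lab n ∩ O)) := Inv.prod hS hEO
  have hP' : Inv (KF lab fr) (Gys_act act k) ((S ×ˢ univ) ×ˢ (Inj lab n ∩ O)) :=
    Inv.prod (Gys_inv_univ hS) hEO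
  have hh := (hsl.homeoOn ha hP fun p hp => hp.2.2).symm
  have hh' := (hsl.homeoOn ha' hP' fun p hp => hp.2.2).symm
  have hop : OpenIn (BI (KF lab fr) act (S ×ˢ (Inj lab n ∩ O)))
      (BS (KF lab fr) act S (Inj lab n)) := by
    rw [BS_eq]
    refine ha.openIn_BI (Inv.prod hS hE) ?_
    obtain ⟨W, hW, hOW⟩ := hsl.op
    refine ⟨univ ×ˢ W, isOpen_univ.prod hW, ?_⟩
    rw [prod_inter_prod, inter_univ, hOW, ← inter_assoc, inter_eq_left.mpr ho.subset]
  have hy : bmk (KF lab fr) act (x.1, e) ∈ BI (KF lab fr) act (S ×ˢ (Inj lab n ∩ O)) :=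
    mem_image_of_mem _ ⟨hx.1, he, heO⟩
  have hp := hh.2.2.1 hy
  obtain ⟨D', O₁, hO₁, hx₁, hc₁⟩ := hd _ hp.1.1
  have hU : OpenIn (Inj lab n ∩ {e | e ∈ O ∧ γ e = 1}) {e | e ∈ O ∧ γ e = 1} := by
    have := ho.inter_right {e | e ∈ O ∧ γ e = 1}
    rwa [inter_eq_right.mpr fun e' (he' : e' ∈ {e | e ∈ O ∧ γ e = 1}) => hsl.op.subset he'.1]
      at this
  obtain ⟨O₂, hO₂, hx₂, hc₂⟩ := Chart_shrink hU (OpenIn.refl _) hsl.chart
    ⟨hp.1.2.1, hp.1.2.2, hp.2⟩ ⟨hp.1.2.2, hp.2⟩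
  have hB : OpenIn (O₁ ×ˢ O₂) {p | p ∈ S ×ˢ (Inj lab n ∩ O) ∧ γ p.2 = 1} := by
    obtain ⟨W₁, hW₁, rfl⟩ := hO₁
    obtain ⟨W₂, hW₂, rfl⟩ := hO₂
    refine ⟨W₁ ×ˢ W₂, hW₁.prod hW₂, ?_⟩
    ext p
    simp only [mem_prod, mem_inter_iff, mem_ofPred_eq]
    tauto
  have hB' : (O₁ ×ˢ (univ : Set (Unit → ℂ))) ×ˢ O₂ ⊆
      {p | p ∈ (S ×ˢ univ) ×ˢ (Inj lab n ∩ O) ∧ γ p.2 = 1} := fun p hp' =>
    ⟨⟨⟨hO₁.subset hp'.1.1, mem_univ _⟩, (hO₂.subset hp'.2).1, (hO₂.subset hp'.2).2.1⟩,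
      (hO₂.subset hp'.2).2.2⟩
  have hc₃ : ConvChart (Module.finrank ℝ (Unit → ℂ)) (univ : Set (Unit → ℂ)) :=
    ConvChart.of_homeoOn (f := id) (g := id) convex_univ isOpen_univ
      ⟨continuousOn_id, continuousOn_id, mapsTo_id _, mapsTo_id _, fun _ _ => rfl, fun _ _ => rfl⟩
  refine ⟨D' + Module.finrank ℝ (Unit → ℂ) + D, _, (hB.preimage hh.1 hh.2.2.1).trans hop, ?_, ?_⟩
  · rw [Gys_fst_bmk ha']
    exact ⟨hy, hx₁, hx₂⟩
  · have h3 := ((hc₁.prod hc₃).prod hc₂).of_homeoOn' (hh'.restrict hB')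
    rw [Gys_pre_eq hh' hB'] at h3
    rw [Gys_pre_eq hh hB.subset]
    convert h3 using 1
    ext q
    constructor
    · rintro ⟨⟨x', -, e', -, rfl⟩, p, hp', h4⟩
      rw [Gys_fst_bmk ha'] at h4
      obtain ⟨u, hu, rfl⟩ := ha.bmk_eq_iff.1 h4.symm
      exact ⟨bact (Gys_act act k) u (x', e'), ⟨⟨hp'.1, mem_univ _⟩, hp'.2⟩, bmk_bact hu _⟩
    · rintro ⟨p, hp', rfl⟩
      refine ⟨⟨p.1, (hB' hp').1.1, p.2, (hB' hp').1.2.1, rfl⟩, (p.1.1, p.2), ⟨hp'.1.1, hp'.2⟩, ?_⟩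
      rw [Gys_fst_bmk ha']

theorem Gys_zero_proper {L : Set (Matrix V V ℂ)} (ha : IsAct L act)
    (ha' : IsAct L (Gys_act act k)) (hS : InvX L act S) {E : Set (Fr V)} (hE : InvF L E) :
    ∃ g, HomeoOn (bmap L act Prod.fst id : Bor L (Gys_act act k) → Bor L act) g
      (BS L (Gys_act act k) (S ×ˢ {0}) E) (BS L act S E) := by
  rw [BS_eq, BS_eq, bmap_eq_bmp]
  refine ⟨_, ha'.homeoOn_bmp ha (Inv.prod (Gys_inv_zero hS) hE) (Inv.prod hS hE)
    (G := Prod.map (fun x => (x, 0)) id) (EqvOn.of_map subset_rfl fun _ _ _ _ => rfl)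
    (EqvOn.of_map subset_rfl fun u _ p _ => ?_) ⟨by fun_prop, by fun_prop, fun p hp => ⟨hp.1.1, hp.2⟩,
      fun p hp => ⟨⟨hp.1, rfl⟩, hp.2⟩, fun p hp => ?_, fun _ _ => rfl⟩⟩
  · simp
  · have h : p.1.2 = 0 := hp.1.2
    simp only [Prod.map, id, ← h]

/-- The complement of the zero section of the line bundle. -/
theorem Gys_open [Nice X] (ha : IsAct (KG lab) act) (hS : InvX (KG lab) act S) (hE : LocEuc S)
    {fr : Set V} (h1 : ∀ l, lab l = lab k → l = k)
    {η : ∀ n, EE (BS (KF lab fr) act S (Inj lab n))} {i₀ : ℤ} {Ann : Set (MvPolynomial V ℂ)}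
    (h : Cyc lab (KF lab fr) act S η i₀ Ann) (hA : IsAnn lab Ann) (hr : RegMod lab Ann k)
    (hln : ∀ n, LN _ (η n)) :
    ∃ ξ : ∀ n, EE (BS (KF lab fr) (Gys_act act k) (S ×ˢ {0}ᶜ) (Inj lab n)),
      Cyc lab (KF lab fr) (Gys_act act k) (S ×ˢ {0}ᶜ) ξ (i₀ + 2) (AnnAdd lab Ann k) ∧
        ∀ n, LN _ (ξ n) := by
  have hL := KF_subset lab fr
  have hb := ha.mono (isGrp_KF lab fr) hL
  have hb' := (Gys_isAct ha h1).mono (isGrp_KF lab fr) hL
  have := hb.nice
  have := hb'.nice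
  have hS₁ : InvX (KF lab fr) act S := fun u hu => hS u (hL hu)
  have hX := X_mem_Rinv h1
  choose t ht hte using Gys_thom ha hS h1 fr
  have hP' := fun n => Inv.prod (Gys_inv_univ (k := k) hS₁) (invF_Inj hL n)
  have hl' : ∀ n, LC ((S ×ˢ (univ : Set (Unit → ℂ))) ×ˢ Inj lab n) := fun n =>
    (hE.lc.prod LC.univ).prod (lc_Inj lab n)
  have hok : ∀ n, TwOK (BS (KF lab fr) act S (Inj lab n))
      (BS (KF lab fr) (Gys_act act k) (S ×ˢ univ) (Inj lab n))
      (bmap (KF lab fr) act Prod.fst id) (t n) := fun n => by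
    rw [BS_eq, BS_eq]
    exact (ht n).1
  have hm : ∀ n, HomC 2 (t n) := fun n => by simpa using (ht n).2.1
  have hT : ∀ n, Function.Bijective (tw (BS (KF lab fr) act S (Inj lab n))
      (BS (KF lab fr) (Gys_act act k) (S ×ˢ univ) (Inj lab n))
      (bmap (KF lab fr) act Prod.fst id) (t n)) := fun n => by
    rw [BS_eq, BS_eq]
    exact (ht n).bijective hb hb' (hP' n) (Inv.prod hS₁ (invF_Inj hL n)) (hl' n)
      (hE.lc.prod (lc_Inj lab n)) (fun _ _ _ _ => rfl) (by fun_prop)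
      fun p hp u hu e he => freeOn_Inj hL n u hu e (by rw [mem_singleton_iff.1 he]; exact hp.2)
  choose g hg using fun n => Gys_zero_proper hb hb' hS₁ (invF_Inj hL n)
  have hcl : ∀ n, ClosedIn (BS (KF lab fr) (Gys_act act k) (S ×ˢ {0}) (Inj lab n))
      (BS (KF lab fr) (Gys_act act k) (S ×ˢ univ) (Inj lab n)) := fun n => by
    rw [BS_eq, BS_eq]
    refine hb'.closedIn_BI (hP' n) ⟨{p | p.1.2 = 0}, isClosed_eq (by fun_prop) continuous_const, ?_⟩
    ext p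
    simp only [mem_prod, mem_inter_iff, mem_ofPred_eq, mem_singleton_iff, mem_univ]
    tauto
  have hU : ∀ n, BS (KF lab fr) (Gys_act act k) (S ×ˢ {0}ᶜ) (Inj lab n) =
      BS (KF lab fr) (Gys_act act k) (S ×ˢ univ) (Inj lab n) \
        BS (KF lab fr) (Gys_act act k) (S ×ˢ {0}) (Inj lab n) := fun n => by
    rw [BS_eq, BS_eq, BS_eq, ← hb'.BI_diff _ (Inv.prod (Gys_inv_zero hS₁) (invF_Inj hL n))]
    congr 1
    ext p
    simp only [mem_prod, Set.mem_sdiff, mem_singleton_iff, mem_univ, mem_compl_iff]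
    tauto
  choose ξ hξ using fun n => (exists_unique_comp (hT n) (η n)).exists
  refine ⟨_, Gys_core hb hb' hL hX h hA hr _
    (fun n => tw _ _ (bmap (KF lab fr) act Prod.fst id) one) hT (fun n => (hg n).tw_bijective)
    (fun n => tw_prH (hok n) (hm n)) (fun n j ψ hψ => ?_) (fun n r hr' => mulH_tw hb hL hr' (hok n))
    (fun n => ?_) (fun n => ?_) hcl hU hξ, fun n => LN.ext ?_ ?_⟩
  · have := EDeg.tw ((hg n).properOn.twOK (one_mem_ZZ _)) HomC.one hψ
    rwa [sub_zero] at this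
  · have hz : chX lab (KF lab fr) (Gys_act act k) (MvPolynomial.X k) n ∈
        ZZ ⊥ (BS (KF lab fr) (Gys_act act k) (S ×ˢ {0}) (Inj lab n)) := by
      rw [BS_eq]
      exact chX_mem_ZZ hb' hL (fun p hp => hp.2) hX
    have hb₀ : t n - chX lab (KF lab fr) (Gys_act act k) (MvPolynomial.X k) n ∈
        BB ⊥ (BS (KF lab fr) (Gys_act act k) (S ×ˢ {0}) (Inj lab n)) := by
      refine VB_BB_mono (hcl n).subset ?_
      rw [BS_eq]
      exact hte n
    rw [tw_comp (twOK_mulH hb hL hX n) ((hg n).properOn.twOK (one_mem_ZZ _)), pb_chX hb hL,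
      cup_one hz.1.1.1, Function.id_comp, ← tw_congr_proper (hg n).properOn
        (Ch_ZZ_mono (hcl n).subset (hok n).2.2.1) hz hb₀]
    exact LinearMap.ext (Lawson_res_tw (hok n) (hcl n))
  · rw [BS_eq]
    exact hb'.lc_BI (hP' n) (hl' n)
  · rw [hU]
    exact (hcl n).diff
  · refine ln_up (hok n) (Gys_chart hb hb' hS₁ hE n) ?_
    rw [hξ]
    exact hln n

/-- The positive ray. -/
def Gys_pos : Set (Unit → ℂ) := {v | (v ()).im = 0 ∧ 0 < (v ()).re}

theorem Gys_pos_eq {v : Unit → ℂ} (hv : v ∈ Gys_pos) : (fun _ => ((v ()).re : ℂ)) = v := by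
  funext i
  exact Complex.ext rfl hv.1.symm

theorem Gys_pos_ne {v : Unit → ℂ} (hv : v ∈ Gys_pos) : v ≠ 0 := by
  rintro rfl
  exact lt_irrefl _ hv.2

theorem Gys_diag {fr : Set V} {u : Matrix V V ℂ} (hu : u ∈ KF lab (insert k fr)) : u k k = 1 :=
  (hu.2 k (mem_insert _ _) k).trans (Matrix.one_apply_eq k)

omit [TopologicalSpace X] in
theorem Gys_inv_pos {fr : Set V} (hS : InvX (KF lab (insert k fr)) act S) :
    InvX (KF lab (insert k fr)) (Gys_act act k) (S ×ˢ Gys_pos) := fun u hu x hx =>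
  ⟨hS u hu _ hx.1, by
    have h : u k k • x.2 ∈ Gys_pos := by
      rw [Gys_diag hu, one_smul]
      exact hx.2
    exact h⟩

omit [TopologicalSpace X] in
theorem Gys_inv_ne (h1 : ∀ l, lab l = lab k → l = k) {L : Set (Matrix V V ℂ)} (hL : L ⊆ KG lab)
    (hS : InvX L act S) : InvX L (Gys_act act k) (S ×ˢ {0}ᶜ) := fun u hu x hx =>
  ⟨hS u hu _ hx.1, smul_ne_zero (by
    rw [← norm_ne_zero_iff, Gys_norm h1 (hL hu)]
    exact one_ne_zero) hx.2⟩

theorem Gys_phase {fr : Set V} (hk : k ∉ fr) {z : ℂ} (hz : ‖z‖ = 1) :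
    ∃ u ∈ KF lab fr, u k k = z := by
  refine ⟨Matrix.diagonal fun l => if l = k then z else 1, ⟨⟨?_, fun a b hab => ?_⟩,
    fun a ha b => ?_⟩, by simp⟩
  · rw [Matrix.mem_unitaryGroup_iff, Matrix.star_eq_conjTranspose, Matrix.diagonal_conjTranspose,
      Matrix.diagonal_mul_diagonal, ← Matrix.diagonal_one]
    congr 1
    funext l
    by_cases hl : l = k
    · simp [hl, Complex.mul_conj', hz]
    · simp [hl]
  · exact Matrix.diagonal_apply_ne _ fun h => hab (congrArg lab h)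
  · have hak : a ≠ k := fun h => hk (h ▸ ha)
    simp [Matrix.diagonal_apply, Matrix.one_apply, hak]

theorem Gys_ind {fr : Set V} (hk : k ∉ fr) (h1 : ∀ l, lab l = lab k → l = k)
    (ha' : IsAct (KF lab fr) (Gys_act act k)) (hS : InvX (KF lab fr) act S) (n : ℕ) :
    ProperOn (bmap (KF lab fr) (Gys_act act k) id id :
        Bor (KF lab (insert k fr)) (Gys_act act k) → _)
      (BS (KF lab (insert k fr)) (Gys_act act k) (S ×ˢ Gys_pos) (Inj lab n))
      (BS (KF lab fr) (Gys_act act k) (S ×ˢ {0}ᶜ) (Inj lab n)) ∧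
    BijOn (bmap (KF lab fr) (Gys_act act k) id id :
        Bor (KF lab (insert k fr)) (Gys_act act k) → _)
      (BS (KF lab (insert k fr)) (Gys_act act k) (S ×ˢ Gys_pos) (Inj lab n))
      (BS (KF lab fr) (Gys_act act k) (S ×ˢ {0}ᶜ) (Inj lab n)) := by
  have hs : KF lab (insert k fr) ⊆ KF lab fr := KF_anti lab (subset_insert k fr)
  have hL := KF_subset lab fr
  rw [BS_eq, BS_eq]
  constructor
  · refine ha'.ind_proper (isGrp_KF lab _) hs (Inv.prod (Gys_inv_ne h1 hL hS) (invF_Inj hL n))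
      (Inv.prod (Gys_inv_pos fun u hu => hS u (hs hu)) (invF_Inj (hs.trans hL) n))
      ⟨{p | (p.1.2 ()).im = 0} ∩ {p | 0 ≤ (p.1.2 ()).re},
        (isClosed_eq (by fun_prop) continuous_const).inter
          (isClosed_le continuous_const (by fun_prop)), ?_⟩
    ext p
    constructor
    · intro hp
      exact ⟨⟨⟨hp.1.1, Gys_pos_ne hp.1.2⟩, hp.2⟩, hp.1.2.1, hp.1.2.2.le⟩
    · rintro ⟨hp, h2, h3⟩
      refine ⟨⟨hp.1.1, h2, lt_of_le_of_ne h3 fun h4 => hp.1.2 ?_⟩, hp.2⟩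
      funext i
      exact Complex.ext h4.symm h2
  · have e1 : BI (KF lab fr) (Gys_act act k) ((S ×ˢ {0}ᶜ) ×ˢ Inj lab n) =
        BI (KF lab fr) (Gys_act act k) ((S ×ˢ Gys_pos) ×ˢ Inj lab n) := by
      refine Subset.antisymm ?_ (BI_mono fun p hp => ⟨⟨hp.1.1, Gys_pos_ne hp.1.2⟩, hp.2⟩)
      rintro _ ⟨p, hp, rfl⟩
      have h0 : p.1.2 () ≠ 0 := fun h => hp.1.2 (funext fun _ => h)
      have h2 : ‖p.1.2 ()‖ ≠ 0 := norm_ne_zero_iff.2 h0
      obtain ⟨u, hu, huk⟩ := Gys_phase (lab := lab) hk (z := (‖p.1.2 ()‖ : ℂ) / p.1.2 ()) (by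
        rw [norm_div, Complex.norm_real, norm_norm, div_self h2])
      refine ⟨bact (Gys_act act k) u p, ⟨⟨hS u hu _ hp.1.1, ?_⟩, invF_Inj hL n u hu _ hp.2⟩,
        bmk_bact hu p⟩
      have h3 : (u k k • p.1.2) () = (‖p.1.2 ()‖ : ℂ) := by
        rw [Pi.smul_apply, smul_eq_mul, huk, div_mul_cancel₀ _ h0]
      have h4 : u k k • p.1.2 ∈ Gys_pos := by
        refine ⟨?_, ?_⟩
        · rw [h3, Complex.ofReal_im]
        · rw [h3, Complex.ofReal_re]
          exact norm_pos_iff.2 h0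
      exact h4
    rw [e1]
    refine ha'.ind_bijOn (isGrp_KF lab _) hs fun p hp u hu hq => ⟨u, ⟨hu.1, ?_⟩, rfl⟩
    rintro a (rfl | ha₀) l
    · by_cases hl : l = a
      · subst hl
        have h2 : u l l • p.1.2 ∈ Gys_pos := hq.1.2
        have h3 := Gys_norm h1 hu.1
        have h4 := hp.1.2
        rw [← Gys_pos_eq h4] at h2
        obtain ⟨h5, h6⟩ := h2
        simp only [Pi.smul_apply, smul_eq_mul, Complex.mul_im, Complex.mul_re, Complex.ofReal_re,
          Complex.ofReal_im, mul_zero, zero_add, sub_zero] at h5 h6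
        have h7 : (u l l).im = 0 := (mul_eq_zero.1 h5).resolve_right h4.2.ne'
        have h8 : 0 < (u l l).re := (mul_pos_iff_of_pos_right h4.2).1 h6
        have h9 : u l l = ((u l l).re : ℂ) := Complex.ext rfl h7
        rw [h9, Complex.norm_real, Real.norm_eq_abs, abs_of_pos h8] at h3
        rw [Matrix.one_apply_eq, h9, h3, Complex.ofReal_one]
      · rw [hu.1.2 a l fun h => hl (h1 l h.symm), Matrix.one_apply_ne fun h => hl h.symm]
    · exact hu.2 a ha₀ l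

theorem Gys_ray [Nice X] {fr : Set V} (ha : IsAct (KF lab (insert k fr)) act)
    (ha' : IsAct (KF lab (insert k fr)) (Gys_act act k)) (hS : InvX (KF lab (insert k fr)) act S)
    (n : ℕ) : ∃ w : Coch (Bor (KF lab (insert k fr)) (Gys_act act k)), HomC 1 w ∧
      TwOK (BS (KF lab (insert k fr)) act S (Inj lab n))
        (BS (KF lab (insert k fr)) (Gys_act act k) (S ×ˢ Gys_pos) (Inj lab n))
        (bmap (KF lab (insert k fr)) act Prod.fst id) w ∧
      ∀ y ∈ BS (KF lab (insert k fr)) act S (Inj lab n),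
        IsGenOn (BS (KF lab (insert k fr)) (Gys_act act k) (S ×ˢ Gys_pos) (Inj lab n) ∩
          (bmap (KF lab (insert k fr)) act Prod.fst id :
            Bor (KF lab (insert k fr)) (Gys_act act k) → _) ⁻¹' {y}) w := by
  have := ha'.nice
  obtain ⟨ω, hω, hg⟩ := exists_gen_Ioi
  have hE := invF_Inj (KF_subset lab (insert k fr)) n
  have hP := Inv.prod hS hE
  have hP' := Inv.prod (Gys_inv_pos hS) hE
  have hD : Desc (KF lab (insert k fr)) (Gys_act act k) univ fun p => (p.1.2 ()).re :=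
    fun u hu p _ => by
      change ((u k k • p.1.2) ()).re = _
      rw [Gys_diag hu, one_smul]
  have hv : ∀ p, (blift (fun p => (p.1.2 ()).re) : Bor (KF lab (insert k fr)) (Gys_act act k) → ℝ)
      (bmk _ _ p) = (p.1.2 ()).re := fun p => ha'.blift_bmk hD (mem_univ p)
  have hc := ha'.continuousOn_blift hP' (F := fun p => (p.1.2 ()).re)
    (fun u hu p _ => hD u hu p (mem_univ p)) (by fun_prop)
  have hm : MapsTo (blift (fun p => (p.1.2 ()).re) :
      Bor (KF lab (insert k fr)) (Gys_act act k) → ℝ)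
      (BI (KF lab (insert k fr)) (Gys_act act k) ((S ×ˢ Gys_pos) ×ˢ Inj lab n)) (Ioi 0) := by
    rintro _ ⟨p, hp, rfl⟩
    rw [hv]
    exact hp.1.2.2
  have c1 := Thom_map_cont ha' (Gys_inv_pos hS) (f := Prod.fst) (act₁ := act) (fun _ _ _ _ => rfl)
    continuousOn_fst (S := S) (fun x hx => hx.1) hE
  rw [BS_eq, BS_eq]
  refine ⟨pb (blift fun p => (p.1.2 ()).re) ω, hω.pb _,
    ⟨c1.1, c1.2, pb_mem_ZZ hc hm (ZZ_cc_le_bot _ hg.1), fun C hC hCA => ?_⟩, ?_⟩
  · have hK := ((ha.isCompact_preimage hC).prod (mem_CC_cc.1 hg.1.1).2).image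
      (f := fun q : (X × Fr V) × ℝ => bmk (KF lab (insert k fr)) (Gys_act act k)
        ((q.1.1, fun _ => (q.2 : ℂ)), q.1.2)) (continuous_bmk.comp (by fun_prop))
    refine ⟨_, hK, ?_, ?_⟩
    · rintro _ ⟨q, hq, rfl⟩
      have h2 := (ha.mem_BI hP).1 (hCA hq.1)
      exact mem_image_of_mem _ ⟨⟨h2.1, Complex.ofReal_im _, supp_subset _ _ hq.2⟩, h2.2⟩
    · rintro q ⟨hq, hqC⟩
      obtain ⟨p, hp, rfl⟩ := supp_subset _ _ hq
      have h2 := supp_pb hc hm ω hq
      rw [mem_preimage, hv] at h2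
      rw [mem_preimage, Gys_fst_bmk ha'] at hqC
      refine ⟨((p.1.1, p.2), (p.1.2 ()).re), ⟨hqC, h2⟩, ?_⟩
      simp only [Gys_pos_eq hp.1.2]
  · rintro _ ⟨p, hp, rfl⟩
    have hh : HomeoOn (blift fun p => (p.1.2 ()).re)
        (fun r : ℝ => bmk (KF lab (insert k fr)) (Gys_act act k) ((p.1, fun _ => (r : ℂ)), p.2))
        (BI (KF lab (insert k fr)) (Gys_act act k) ((S ×ˢ Gys_pos) ×ˢ Inj lab n) ∩
          (bmap (KF lab (insert k fr)) act Prod.fst id :
            Bor (KF lab (insert k fr)) (Gys_act act k) → _) ⁻¹' {bmk _ _ p}) (Ioi 0) := by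
      refine ⟨hc.mono inter_subset_left, (continuous_bmk.comp (by fun_prop)).continuousOn,
        hm.mono_left inter_subset_left, fun r hr => ⟨mem_image_of_mem _
          ⟨⟨hp.1, Complex.ofReal_im _, hr⟩, hp.2⟩, Gys_fst_bmk ha' _⟩, ?_, fun r _ => hv _⟩
      rintro _ ⟨⟨q, hq, rfl⟩, h2⟩
      rw [mem_preimage, Gys_fst_bmk ha', mem_singleton_iff] at h2
      obtain ⟨u, hu, rfl⟩ := ha.bmk_eq_iff.1 h2
      rw [hv, ← bmk_bact hu q]
      simp only [bact, Gys_act, Gys_diag hu, one_smul, Gys_pos_eq hq.1.2]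
    refine hg.of_homeoOn hh (pb_mem_ZZ_cc hh.properOn hg.1) ?_
    rw [sub_self]
    exact zero_mem _

end line

variable {V Λ X : Type} [Fintype V] [DecidableEq V] [TopologicalSpace X] [Nice X]

theorem Cyc.gysin {lab : V → Λ} {act : Matrix V V ℂ → X → X} (ha : IsAct (KG lab) act)
    {S : Set X} (hS : InvX (KG lab) act S) (hE : LocEuc S) {fr : Set V} {k : V} (hk : k ∉ fr)
    (h1 : ∀ l, lab l = lab k → l = k) {η : ∀ n, EE (BS (KF lab fr) act S (Inj lab n))} {i₀ : ℤ}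
    {Ann : Set (MvPolynomial V ℂ)} (h : Cyc lab (KF lab fr) act S η i₀ Ann) (hA : IsAnn lab Ann)
    (hr : RegMod lab Ann k) (hln : ∀ n, LN _ (η n)) :
    ∃ η' : ∀ n, EE (BS (KF lab (insert k fr)) act S (Inj lab n)),
      Cyc lab (KF lab (insert k fr)) act S η' (i₀ + 1) (AnnAdd lab Ann k) ∧ ∀ n, LN _ (η' n) := by
  obtain ⟨ξ, hξ, hl⟩ := Gys_open ha hS hE h1 h hA hr hln
  have hL := KF_subset lab fr
  have hL' := KF_subset lab (insert k fr)
  have hb' := (Gys_isAct ha h1).mono (isGrp_KF lab fr) hL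
  have hc := ha.mono (isGrp_KF lab _) hL'
  have hc' := (Gys_isAct ha h1).mono (isGrp_KF lab _) hL'
  have := hb'.nice
  have := hc.nice
  have := hc'.nice
  have hS₁ : InvX (KF lab fr) act S := fun u hu => hS u (hL hu)
  have hS₂ : InvX (KF lab (insert k fr)) act S := fun u hu => hS u (hL' hu)
  have hi := Gys_ind hk h1 hb' hS₁
  have hlU : ∀ n, LC (BS (KF lab fr) (Gys_act act k) (S ×ˢ {0}ᶜ) (Inj lab n)) := fun n => by
    rw [BS_eq]
    exact hb'.lc_BI (Inv.prod (Gys_inv_ne h1 hL hS₁) (invF_Inj hL n)) ((hE.lc.prod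
      (LC.univ.openIn ⟨_, isOpen_compl_singleton, (univ_inter _).symm⟩)).prod (lc_Inj lab n))
  have hlY : ∀ n, LC (BS (KF lab (insert k fr)) act S (Inj lab n)) := fun n => by
    rw [BS_eq]
    exact hc.lc_BI (Inv.prod hS₂ (invF_Inj hL' n)) (hE.lc.prod (lc_Inj lab n))
  have hlW : ∀ n, LC (BS (KF lab (insert k fr)) (Gys_act act k) (S ×ˢ Gys_pos) (Inj lab n)) :=
    fun n => by
    rw [BS_eq]
    refine hc'.lc_BI (Inv.prod (Gys_inv_pos hS₂) (invF_Inj hL' n)) ((hE.lc.prod ?_).prod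
      (lc_Inj lab n))
    exact (LC.of_isClosed (isClosed_eq (f := fun v : Unit → ℂ => (v ()).im) (by fun_prop)
      continuous_const)).openIn ⟨_, isOpen_lt continuous_const
        (g := fun v : Unit → ℂ => (v ()).re) (by fun_prop), rfl⟩
  have hok := fun n => (hi n).1.twOK (one_mem_ZZ _)
  have hbij := fun n => (hi n).1.tw_bijective (hlU n) (hi n).2
  choose ζ hζ using fun n => (exists_unique_comp (hbij n) (ξ n)).exists
  choose w hw hwok hwg using Gys_ray hc hc' hS₂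
  have c1 := hξ.map _ hbij (fun n => tw_prH (hok n) HomC.one)
    (fun n r hr' => mulH_tw hb' hL hr' (hok n)) hζ
  have c2 := c1.comap _ (fun n => thom_iso (hlY n) (hlW n) (hwok n) (hw n) (hwg n))
    (fun n => tw_prH (hwok n) (hw n)) fun n r hr' => mulH_tw hc hL' hr' (hwok n)
  rw [show i₀ + 2 + 0 - 1 = i₀ + 1 by ring] at c2
  refine ⟨_, c2, fun n O hO hne => ?_⟩
  obtain ⟨y, hy⟩ := hne
  have : Nonempty (Bor (KF lab (insert k fr)) (Gys_act act k)) :=
    ⟨bmk _ _ (((Quot.out y).1, 0), (Quot.out y).2)⟩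
  obtain ⟨g, hg⟩ := (hi n).1.exists_homeoOn (hlU n) (hi n).2
  refine LN.of_lh (w := fun _ : Unit => w n) (fun _ => hwok n) ?_ (fun O' hO' x => ?_)
    ((LN.homeoOn hg).2 (by rw [hζ]; exact hl n)) () (fun i hi => absurd rfl hi) O hO ⟨y, hy⟩
  · rintro _ ⟨x, hx, e, he, rfl⟩
    exact ⟨bmk _ _ ((x, fun _ => 1), e), ⟨_, ⟨hx, Complex.one_im, by simp⟩, e, he, rfl⟩,
      Gys_fst_bmk hc' _⟩
  · obtain ⟨z, rfl⟩ := (thom_iso ((hlY n).openIn hO')
      ((hlW n).openIn (hO'.preimage (hwok n).1 (hwok n).2.1)) ((hwok n).restrict hO'.subset) (hw n)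
      fun y' hy' => by
        rw [inter_assoc, ← preimage_inter, inter_eq_right.2 (singleton_subset_iff.2 hy')]
        exact hwg n y' (hO'.subset hy')).2 x
    exact ⟨fun _ => z, by rw [lhMap_apply, Fintype.sum_unique]⟩

end Pool.Agent.HK
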