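import Pool.Agent.P.MP_1206ce_ag.JO.Step

/-! The Jordan theorem. -/

open scoped Topology
open Filter Set

noncomputable section

namespace Pool.Agent.HK

namespace HD

variable {β I Ar τ Λ Λ' : Type} [Fintype β] [DecidableEq β] [Fintype I] [DecidableEq I] [Fintype Ar]
  [DecidableEq Ar] [Fintype τ] [DecidableEq τ] [DecidableEq Λ] [DecidableEq Λ'] (D : HD β I Ar τ)

theorem Jordan_all {sl : β → Λ} {kr : (β → ℕ) → ℕ} (hk : D.IsKr sl kr) (c : ℕ) :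
    D.JTc sl (D.JC sl kr c) (D.Ylt sl kr c) := by
  induction c with
  | zero =>
    rw [D.j_JC_zero, D.Ylt_zero]
    exact D.j_base sl
  | succ c ih =>
    by_cases h : ∃ ρ, D.Decr sl ρ ∧ kr ρ = c
    · obtain ⟨ρ, hρ, rfl⟩ := h
      exact D.j_step hk hρ ih
    · have h' : ∀ ρ, D.Decr sl ρ → kr ρ ≠ c := fun ρ hρ he => h ⟨ρ, hρ, he⟩
      rw [D.j_JC_succ sl kr h', D.Ylt_succ_eq sl kr h']
      exact ih

theorem Jordan_top {sl : β → Λ} {kr : (β → ℕ) → ℕ} (hk : D.IsKr sl kr) :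
    ∃ c, D.JTc sl (D.Om sl) (D.Ylt sl kr c) ∧ D.Y sl = D.Ylt sl kr c := by
  obtain ⟨c, hc⟩ := D.j_JC_top sl kr
  have h := D.Jordan_all hk c
  rw [hc] at h
  exact ⟨c, h, le_antisymm (D.j_sp_red fun ρ _ _ hp => D.j_sp h ρ hp) (D.Ylt_le_Y sl kr c)⟩

theorem jordan (sl : β → Λ) :
    D.JT sl ∧ ∀ kr, D.IsKr sl kr → D.SPr sl kr ∧ D.LOWr sl kr := by
  refine ⟨?_, fun kr hk => ⟨fun y hy => ?_, fun ρ bot g hρ hs hg h0 => ?_⟩⟩
  · obtain ⟨kr, hk⟩ := D.exists_kr sl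
    obtain ⟨c, h, he⟩ := D.Jordan_top hk
    rw [← he] at h
    exact ⟨h.inj, h.img⟩
  · obtain ⟨c, -, he⟩ := D.Jordan_top hk
    exact ⟨c, he ▸ hy⟩
  · exact D.j_low_red
      (fun d g hg hd h0 => D.j_low hk hρ hs (D.Jordan_all hk (kr ρ)) hg hd h0) hg h0

end HD

end Pool.Agent.HK
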