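import Pool.Agent.P.MP_1206ce_ag.HG.Jordan
import Pool.Agent.P.MP_1206ce_ag.AH.ALG
import Pool.Agent.P.MP_1206ce_ag.HN.Step

/-! The stability theorem. -/

open scoped Topology
open Filter Set

noncomputable section

namespace Pool.Agent.HK

namespace HD

variable {β I Ar τ Λ Λ' : Type} [Fintype β] [DecidableEq β] [Fintype I] [DecidableEq I] [Fintype Ar]
  [DecidableEq Ar] [Fintype τ] [DecidableEq τ] [DecidableEq Λ] [DecidableEq Λ'] (D : HD β I Ar τ)

theorem HN_Alt_mem {sl : β → Λ} {𝔞 : Ideal (MvPolynomial (β ⊕ τ) ℂ)}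
    (h : ∀ w ∈ Wl (D.lab sl), ∀ y ∈ 𝔞, MvPolynomial.rename w y ∈ 𝔞) {y : MvPolynomial (β ⊕ τ) ℂ}
    (hy : y ∈ 𝔞) : Alt (D.lab sl) y ∈ 𝔞 := by
  rw [Alt_apply]
  exact Submodule.sum_mem _ fun w hw => Submodule.smul_of_tower_mem _ _ (h w hw y hy)

theorem HN_open (key : (I → ℕ) → ℤ) (sl : β → Λ) (t : Finset (Finset β)) (p : Finset β) (κ : ℤ) :
    OpenIn (D.A key sl t ∩ D.Ole key p κ) (D.Om sl) :=
  OpenIn.trans ⟨_, D.isOpen_Ole key p κ, rfl⟩ (D.openIn_A key sl t)

theorem HN_invX (key : (I → ℕ) → ℤ) {sl : β → Λ} {t : Finset (Finset β)}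
    (ht : ∀ p ∈ t, IsSlot sl p) {p : Finset β} (hp : IsSlot sl p) (κ : ℤ) :
    InvX (D.K sl) D.act (D.A key sl t ∩ D.Ole key p κ) := fun u hu x hx =>
  ⟨D.invX_A key ht u hu x hx.1, D.invX_Ole hp key κ u hu x hx.2⟩

/-- Removing the stratum of the key of `q`. -/
theorem HN_key {th : I → ℤ} {key : (I → ℕ) → ℤ} (hk : D.IsKey th key) {sl : β → Λ}
    {t : Finset (Finset β)} (ht : ∀ p ∈ t, IsSlot sl p) {p q : Finset β} (hp : IsSlot sl p)
    (hpt : p ∉ t) (hq : q ⊆ p) (hκ : D.last key p < key (D.dimv q))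
    (H : D.HNO sl (D.A key sl t ∩ D.Ole key p (key (D.dimv q)))
      (D.Dd key sl t ⊔ D.Fs key sl p (key (D.dimv q))))
    (ht' : ∀ p₁ ∈ insert q (insert (p \ q) t), IsSlot (spl sl q) p₁)
    (H' : D.HNO (spl sl q) (D.A key (spl sl q) (insert q (insert (p \ q) t)))
      (D.Dd key (spl sl q) (insert q (insert (p \ q) t)))) :
    D.HNO sl (D.A key sl t ∩ D.Ole key p (key (D.dimv q) - 1))
      (D.Dd key sl t ⊔ D.Fs key sl p (key (D.dimv q) - 1)) := by
  refine D.HN_step (D.HN_open key sl t p _) ?_ (D.openIn_A key _ _) (D.HN_invX key ht hp _)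
    (D.HN_invX key ht hp _) (D.invX_A key ht') (fun x hx h => D.HN_not_Ole hq hx h.2)
    (fun x hx => D.HN_G1 hk ht hp hpt hq hκ hx)
    (fun x hx => D.HN_G2 hk hp hq hx.1.1.1.1 hx.1.2 fun h => hx.2 ⟨hx.1.1, h⟩)
    (fun x hx u hu hx' h => D.HN_G3 hk hp hq hx hu hx' h.2) (D.euler_PP hp hq)
    (D.alphaS_mem_Rinv hp hq) (fun y hy h => ?_) (fun y hy => ?_)
    (sup_le_sup_left (D.Fs_anti key sl p (by omega)) _) (fun y hy => ?_) (fun z hz d => ?_) H H'
  · exact (D.HN_open key sl t p _).of_subset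
      (inter_subset_inter_right _ (D.HN_Ole_mono key p (by omega))) (D.HN_open key sl t p _).subset
  · have h1 := D.alg hk ht hp hpt hq hκ ∅ hy (Submodule.mem_sup_left h)
    rwa [image_empty, Ideal.span_empty, Ideal.bot_mul, sup_bot_eq] at h1
  · refine Submodule.mem_sup_right (D.HN_Alt_mem
      (fun w hw y hy => D.rename_mem_Fs hp key _ hw hy) ?_)
    have h1 : Ideal.span {D.alphaS q (p \ q)} * D.J (spl sl q) ≤
        D.Fs key sl p (key (D.dimv q) - 1) :=
      le_iSup₂_of_le (f := fun q' (_ : q' ∈ {q' : Finset β | q' ⊆ p ∧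
        key (D.dimv q) - 1 < key (D.dimv q')}) =>
          Ideal.span {D.alphaS q' (p \ q')} * D.J (spl sl q')) q ⟨hq, by omega⟩ le_rfl
    rw [mul_comm]
    exact h1 (Ideal.mul_mem_mul (Ideal.mem_span_singleton_self _) (D.mem_Y_iff.1 hy).1)
  · obtain ⟨y₁, h₁, y₂, h₂, rfl⟩ := Submodule.mem_sup.1 hy
    obtain ⟨y', h3, h4⟩ := D.Alt_Fs_step hk hp hq h₂
    refine ⟨y', h3, ?_⟩
    rw [map_add, add_sub_assoc]
    exact Submodule.add_mem_sup (D.HN_Alt_mem
      (fun w hw y hy => D.rename_mem_Dd ht key hw hy) h₁) h4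
  · obtain ⟨y₁, h₁, y₂, h₂, rfl⟩ := Submodule.mem_sup.1 hz
    rw [map_add]
    exact Submodule.add_mem_sup (D.hom_mem_Dd key sl t h₁ d) (D.hom_mem_Fs key sl p _ h₂ d)

/-- Adding a slot. -/
theorem HN_slot {th : I → ℤ} {key : (I → ℕ) → ℤ} (hk : D.IsKey th key) {sl : β → Λ}
    {t : Finset (Finset β)} (ht : ∀ p ∈ t, IsSlot sl p) {p : Finset β} (hp : IsSlot sl p)
    (hpt : p ∉ t) (H : D.HNO sl (D.A key sl t) (D.Dd key sl t))
    (H' : ∀ q ⊆ p, q.Nonempty → (p \ q).Nonempty →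
      (∀ p₁ ∈ insert q (insert (p \ q) t), IsSlot (spl sl q) p₁) →
      D.HNO (spl sl q) (D.A key (spl sl q) (insert q (insert (p \ q) t)))
        (D.Dd key (spl sl q) (insert q (insert (p \ q) t)))) :
    D.HNO sl (D.A key sl (insert p t)) (D.Dd key sl (insert p t)) := by
  obtain ⟨M, hM⟩ : ∃ M : ℕ, ∀ q ⊆ p, key (D.dimv q) ≤ D.last key p + M := by
    obtain ⟨B, hB⟩ := (Set.toFinite (Set.range fun q : Finset β => key (D.dimv q))).bddAbove
    refine ⟨(B - D.last key p).toNat, fun q _ => ?_⟩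
    have := hB ⟨q, rfl⟩
    simp only at this
    omega
  have main : ∀ j : ℕ, j ≤ M → D.HNO sl (D.A key sl t ∩ D.Ole key p (D.last key p + M - j))
      (D.Dd key sl t ⊔ D.Fs key sl p (D.last key p + M - j)) := by
    intro j
    induction j with
    | zero =>
      intro _
      rw [Nat.cast_zero, sub_zero, D.HN_Ole_top key p hM, D.Fs_eq_bot key sl p hM, inter_univ,
        sup_bot_eq]
      exact H
    | succ j ih =>
      intro hj
      have h1 := ih (by omega)
      rw [Nat.cast_succ, ← sub_sub]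
      by_cases h : ∃ q ⊆ p, key (D.dimv q) = D.last key p + M - j
      · obtain ⟨q, hq, e⟩ := h
        have hκ : D.last key p < key (D.dimv q) := by omega
        obtain ⟨-, -, n1, n2, -⟩ := hk.split hq hκ
        obtain ⟨s1, s2, s3⟩ := IsSlot.spl hp hq n1
        have ht' : ∀ p₁ ∈ insert q (insert (p \ q) t), IsSlot (spl sl q) p₁ := by
          intro p₁ h₁
          rcases Finset.mem_insert.1 h₁ with rfl | h₁
          · exact s1
          rcases Finset.mem_insert.1 h₁ with rfl | h₁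
          · exact s2
          · exact (s3 p₁ (ht p₁ h₁) fun h => hpt (h ▸ h₁)).1
        rw [← e] at h1 ⊢
        exact D.HN_key hk ht hp hpt hq hκ h1 ht' (H' q hq n1 n2 ht')
      · have h2 : ∀ q ⊆ p, key (D.dimv q) ≠ D.last key p + M - j := fun q hq e => h ⟨q, hq, e⟩
        rw [D.HN_Ole_step key p h2, D.Fs_step_of_not_key key sl p h2]
        exact h1
  have h := main M le_rfl
  rw [add_sub_cancel_right] at h
  rw [D.HN_A_insert, D.HN_Dd_insert]
  exact h

theorem HN_measure {t : Finset (Finset β)} {p q : Finset β} (hpt : p ∉ t) (hq : q ⊆ p)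
    (n1 : q.Nonempty) (n2 : (p \ q).Nonempty) :
    ∑ r ∈ insert q (insert (p \ q) t), r.card ^ 2 < ∑ r ∈ insert p t, r.card ^ 2 := by
  have h : ∀ (r : Finset β) (s : Finset (Finset β)),
      ∑ x ∈ insert r s, x.card ^ 2 ≤ r.card ^ 2 + ∑ x ∈ s, x.card ^ 2 := by
    intro r s
    by_cases hr : r ∈ s
    · rw [Finset.insert_eq_of_mem hr]
      exact Nat.le_add_left _ _
    · rw [Finset.sum_insert hr]
  have h1 := h q (insert (p \ q) t)
  have h2 := h (p \ q) t
  have h3 := Finset.card_sdiff_add_card_eq_card hq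
  have h4 := Nat.mul_pos n1.card_pos n2.card_pos
  rw [Finset.sum_insert hpt, ← h3]
  nlinarith

theorem HN_ind {th : I → ℤ} {key : (I → ℕ) → ℤ} (hk : D.IsKey th key) (m : ℕ) :
    ∀ (Λ : Type) [DecidableEq Λ] (sl : β → Λ) (t : Finset (Finset β)),
      ∑ r ∈ t, r.card ^ 2 ≤ m → (∀ p ∈ t, IsSlot sl p) →
        D.HNO sl (D.A key sl t) (D.Dd key sl t) := by
  induction m using Nat.strong_induction_on with
  | _ m ih =>
    intro Λ _ sl t
    induction t using Finset.induction_on with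
    | empty =>
      intro _ _
      rw [D.HN_A_empty, D.HN_Dd_empty]
      exact D.HNO_base sl
    | insert p t hpt iht =>
      intro hm ht
      have ht₀ : ∀ r ∈ t, IsSlot sl r := fun r hr => ht r (Finset.mem_insert_of_mem hr)
      refine D.HN_slot hk ht₀ (ht p (Finset.mem_insert_self _ _)) hpt (iht ?_ ht₀)
        fun q hq n1 n2 ht' => ih _ ((HN_measure hpt hq n1 n2).trans_le hm) _ _ _ le_rfl ht'
      rw [Finset.sum_insert hpt] at hm
      omega

theorem hn {th : I → ℤ} {key : (I → ℕ) → ℤ} (hk : D.IsKey th key) (sl : β → Λ)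
    {t : Finset (Finset β)} (ht : ∀ p ∈ t, IsSlot sl p) : D.HNT key sl t :=
  ⟨(D.HN_ind hk _ Λ sl t le_rfl ht).surj, (D.HN_ind hk _ Λ sl t le_rfl ht).ker⟩

end HD

end Pool.Agent.HK
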