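import Pool.Agent.P.MP_1206ce_ag.HG.HN
import Pool.Agent.P.MP_1206ce_ag.HG.Cyc
import Pool.Agent.P.MP_1206ce_ag.AH.Reg

/-! The semistable nilpotent locus has cyclic Borel-Moore homology. -/

open scoped Topology
open Filter Set

noncomputable section

namespace Pool.Agent.HK

namespace HD

variable {β I Ar τ Λ Λ' : Type} [Fintype β] [DecidableEq β] [Fintype I] [DecidableEq I] [Fintype Ar]
  [DecidableEq Ar] [Fintype τ] [DecidableEq τ] [DecidableEq Λ] [DecidableEq Λ'] (D : HD β I Ar τ)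

theorem HNc_inter (S : Set (UU β Ar)) {S' : Set (UU β Ar)} (hS' : InvX (D.K (one β)) D.act S')
    (n : ℕ) : D.SP (D.K (one β)) (S ∩ S') n =
      D.SP (D.K (one β)) S n ∩ D.SP (D.K (one β)) S' n := by
  rw [SP, SP, SP, BS_eq, BS_eq, BS_eq,
    ← (D.isAct_K _).BI_inter _ (D.inv_SP subset_rfl hS' n), prod_inter_prod, inter_self]

theorem HNc_closed {S : Set (UU β Ar)} (hS : InvX (D.K (one β)) D.act S) (n : ℕ) :
    ClosedIn (D.SP (D.K (one β)) (S ∩ LinS co D.PX) n) (D.SP (D.K (one β)) S n) :=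
  D.closedIn_SP (isGrp_KG _) subset_rfl hS ⟨_, D.amb.isClosed _, rfl⟩ n

theorem HNc_inv {S : Set (UU β Ar)} (hS : InvX (D.K (one β)) D.act S) :
    InvX (D.K (one β)) D.act (S ∩ LinS co D.PX) :=
  fun u hu x hx => ⟨hS u hu x hx.1, D.invX_PX u hu x hx.2⟩

theorem etaX_ext {S S' : Set (UU β Ar)} (hS : InvX (D.K (one β)) D.act S)
    (hS' : InvX (D.K (one β)) D.act S') (ho : OpenIn S' S)
    (hx : OpenIn (S ∩ LinS co D.PX) (LinS co D.PX)) (n : ℕ) :
    D.etaX S n ∘ₗ ext (D.SP (D.K (one β)) S' n) (D.SP (D.K (one β)) S n) = D.etaX S' n := by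
  have := D.nice_Bor (isGrp_KG D.lab0) subset_rfl
  have h1 := tw_ext ((D.HNc_closed hS n).properOn.twOK (one_mem_ZZ _))
    (D.openIn_SP (isGrp_KG _) subset_rfl hS ho n)
    (U' := D.SP (D.K (one β)) (S' ∩ LinS co D.PX) n) (by
      rw [preimage_id, ← D.HNc_inter _ hS', inter_right_comm, inter_eq_right.2 ho.subset])
  have h2 := ext_comp
    (D.openIn_SP (isGrp_KG _) subset_rfl (D.HNc_inv hS) (ho.inter_right (LinS co D.PX)) n)
    (D.openIn_SP (isGrp_KG _) subset_rfl D.invX_PX hx n)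
  unfold etaX
  rw [LinearMap.comp_assoc, h1, ← LinearMap.comp_assoc,
    LinearMap.comp_assoc _ _ (fcl _ _ _ _ _ _ _ _), h2]

theorem etaX_res {S S' : Set (UU β Ar)} (hS : InvX (D.K (one β)) D.act S)
    (hS' : InvX (D.K (one β)) D.act S') (hc : ClosedIn S' S)
    (hx : S' ∩ LinS co D.PX = S ∩ LinS co D.PX) (n : ℕ) :
    D.etaX S' n ∘ₗ res (D.SP (D.K (one β)) S n) (D.SP (D.K (one β)) S' n) = D.etaX S n := by
  have h1 := tw_comp ((D.closedIn_SP (isGrp_KG _) subset_rfl hS hc n).properOn.twOK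
    (one_mem_ZZ _)) ((D.HNc_closed hS' n).properOn.twOK (one_mem_ZZ _))
  rw [pb_one, one_cup (one_mem_ZZ (D.SP (D.K (one β)) S n)).1.1.1, Function.comp_id] at h1
  unfold etaX
  rw [LinearMap.comp_assoc, h1, hx]

/-- The polynomial of the fundamental class of `T^* N`. -/
def HNc_p : MvPolynomial (β ⊕ τ) ℂ :=
  xI D.lab0 (topI D.lab0) * ∏ p ∈ D.PU (one β) \ D.PX, linF (D.chi p)

theorem HNc_p_hom : D.HNc_p.IsHomogeneous (3 * npos D.lab0 + Fintype.card β) := by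
  have h1 := (xI_isHomogeneous D.lab0 (topI D.lab0)).mul (D.HN_euler_hom (D.PU (one β) \ D.PX))
  have h2 := Finset.card_sdiff_add_card_eq_card
    (show D.PX ⊆ D.PU (one β) from Finset.filter_subset _ _)
  have h3 := D.card_PU_PX
  rw [degI_topI] at h1
  have h4 : 3 * npos D.lab0 + Fintype.card β = npos D.lab0 + (D.PU (one β) \ D.PX).card := by
    omega
  rw [h4]
  exact h1

theorem HNc_Alt : ∃ s : ℂ, s ≠ 0 ∧ ∀ h ∈ Rinv D.lab0,
    Alt D.lab0 (h * D.HNc_p) = D.hb ^ Fintype.card β * (s • (h * D.delta)) := by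
  obtain ⟨ε, hε, h1⟩ := Alt_xI_top D.lab0
  refine ⟨ε * (-1) ^ Fintype.card β, mul_ne_zero ?_ (pow_ne_zero _ (by norm_num)), fun h hh => ?_⟩
  · rcases hε with rfl | rfl <;> norm_num
  · rw [HNc_p, D.euler_PX, Alt_mul hh, mul_comm (xI _ _),
      Alt_mul (mul_mem (pow_mem (neg_mem (D.Reg_hb_mem _)) _) D.erho_zero_mem_Rinv), h1, delta,
      neg_pow D.hb]
    simp only [MvPolynomial.smul_eq_C_mul, map_mul, map_pow, map_neg, map_one]
    ring

theorem HNc_PX_Om : LinS co D.PX ⊆ Zs (D.Om (one β)) := by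
  rw [D.Basic_PX_eq]
  exact (D.PY_subset_Zs _ _).1

omit [Fintype I] [Fintype τ] [DecidableEq τ] in
theorem HNc_PX_U : D.U (one β) ∩ LinS co D.PX = LinS co D.PX :=
  inter_eq_right.2 (LinS_mono co (Finset.filter_subset _ _))

theorem HNc_invOm : InvX (D.K (one β)) D.act (Zs (D.Om (one β))) :=
  D.invX_Zs subset_rfl (D.invX_Om _)

theorem HNc_etaU (n : ℕ) : D.etaX (D.U (one β)) n = D.aU (one β) D.HNc_p n := by
  have := D.nice_Bor (isGrp_KG D.lab0) subset_rfl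
  have h1 := fcl_push D.amb (D.isAct_K (one β)) subset_rfl (isGrp_KG _) (TT_subset _) subset_rfl
    (show D.PX ⊆ D.PU (one β) from Finset.filter_subset _ _) (D.invX_U _) D.invX_PX
    (xI D.lab0 (topI D.lab0)) n
  rw [bmap_eq_bmp, Prod.map_id, bmp_id] at h1
  unfold etaX
  rw [D.HNc_PX_U, ext_self, LinearMap.comp_id]
  exact h1

theorem HNc_push {h : MvPolynomial (β ⊕ τ) ℂ} (hh : h ∈ Rinv D.lab0) (n : ℕ) :
    D.push (one β) n (D.etaX (Zs (D.Om (one β))) n ∘ₗ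
      mulH D.lab0 (D.K (one β)) D.act (Zs (D.Om (one β))) h n) =
      D.aU (one β) (h * D.HNc_p) n := by
  have h1 := D.etaX_res (D.invX_U _) D.HNc_invOm (D.HN_closed_Om _) (by
    rw [inter_eq_right.2 D.HNc_PX_Om, D.HNc_PX_U]) n
  rw [push, LinearMap.comp_assoc, ← mulH_res (D.isAct_K _) subset_rfl hh
    (D.closedIn_SP (isGrp_KG _) subset_rfl (D.invX_U _) (D.HN_closed_Om _) n),
    ← LinearMap.comp_assoc, h1, D.HNc_etaU]
  exact (fcl_mul (D.refines_lab0 _) D.amb (D.isAct_K _) (TT_subset _) subset_rfl (D.invX_U _) hh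
    _ n).symm

theorem HNc_deg {S : Set (UU β Ar)} (hS : InvX (D.K (one β)) D.act S)
    (hx : OpenIn (S ∩ LinS co D.PX) (LinS co D.PX)) (n : ℕ) :
    EDeg _ (D0 (β ⊕ τ) n + (2 * (D.PX.card : ℤ) - 2 * npos D.lab0)) (D.etaX S n) := by
  have := D.nice_Bor (isGrp_KG D.lab0) subset_rfl
  have h1 := fcl_deg D.amb (D.isAct_K (one β)) (TT_subset _) subset_rfl D.invX_PX
    (xI_isHomogeneous D.lab0 (topI D.lab0)) n
  rw [degI_topI] at h1
  have h2 := EDeg.tw ((D.HNc_closed hS n).properOn.twOK (one_mem_ZZ _)) HomC.one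
    (EDeg.ext (D.openIn_SP (isGrp_KG _) subset_rfl D.invX_PX hx n) h1)
  rwa [sub_zero, add_sub_assoc] at h2

theorem cyc_A1 {th : I → ℤ} {key : (I → ℕ) → ℤ} {k₀ : β} (hk : D.IsKey th key)
    (hg : D.Gen0 th k₀) : Cyc D.lab0 (D.K (one β)) D.act (Zs (D.A1 th)) (D.etaX (Zs (D.A1 th)))
      (2 * (D.PX.card : ℤ) - 2 * npos D.lab0) (D.Ann0 key) := by
  rw [← D.A_eq_A1 hk hg]
  have : Nice (UU β Ar) := D.amb.nice
  have H := D.HN_ind hk _ Unit (one β) {Finset.univ} le_rfl Reg_slots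
  have ho := Zs_openIn (D.openIn_A key (one β) {Finset.univ})
  have hA := D.invX_Zs subset_rfl (D.invX_A key (Reg_slots (β := β)))
  have hP : OpenIn (Zs (D.Om (one β)) ∩ LinS co D.PX) (LinS co D.PX) := by
    rw [inter_eq_right.2 D.HNc_PX_Om]
    exact OpenIn.refl _
  have hc := D.card_PU_PX
  obtain ⟨s, hs, hAlt⟩ := D.HNc_Alt
  obtain ⟨kr, hkr⟩ := D.exists_kr (one β)
  obtain ⟨hSP, hLOW⟩ := (D.jordan (one β)).2 kr hkr
  have key1 : ∀ n, ∀ h ∈ Rinv D.lab0, D.etaX (Zs (D.A key (one β) {Finset.univ})) n ∘ₗ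
      mulH D.lab0 (D.K (one β)) D.act (Zs (D.A key (one β) {Finset.univ})) h n =
      (D.etaX (Zs (D.Om (one β))) n ∘ₗ mulH D.lab0 (D.K (one β)) D.act (Zs (D.Om (one β))) h n) ∘ₗ
        ext (D.SP (D.K (one β)) (Zs (D.A key (one β) {Finset.univ})) n)
          (D.SP (D.K (one β)) (Zs (D.Om (one β))) n) := fun n h hh => by
    rw [← D.etaX_ext D.HNc_invOm hA ho hP n, LinearMap.comp_assoc, LinearMap.comp_assoc,
      mulH_ext (D.isAct_K _) subset_rfl hh (D.openIn_SP (isGrp_KG _) subset_rfl D.HNc_invOm ho n)]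
  have key2 : ∀ n, ∀ h ∈ Rinv D.lab0, ∀ e : ℕ, h.IsHomogeneous e →
      EDeg _ (D0 (β ⊕ τ) n + 2 * (D.PU (one β)).card -
        2 * ((e + (3 * npos D.lab0 + Fintype.card β) : ℕ) : ℤ))
      (D.etaX (Zs (D.Om (one β))) n ∘ₗ
        mulH D.lab0 (D.K (one β)) D.act (Zs (D.Om (one β))) h n) := fun n h hh e he => by
    convert EDeg.mulH (D.isAct_K _) subset_rfl hh he (D.HNc_deg D.HNc_invOm hP n) using 1
    rw [hc]
    push_cast
    ring
  refine ⟨fun n => D.HNc_deg hA ?_ n, fun i => ?_, fun d => ?_⟩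
  · have h1 := ho.inter_right (LinS co D.PX)
    rwa [inter_eq_right.2 D.HNc_PX_Om] at h1
  · filter_upwards [H.lift i, H.ker (((D.PU (one β)).card - i / 2).toNat)] with n h1 h2 φ hφ
    obtain ⟨e, he, rfl, g, y, hy, hp, ha, hg', h0⟩ := h1 φ hφ
    by_cases hy0 : y ∈ D.Dd key (one β) {Finset.univ}
    · exact ⟨0, zero_mem _, Or.inl rfl, by rw [h0 hy0, mulH_zero, LinearMap.comp_zero]⟩
    have hy1 : y ≠ 0 := fun h => hy0 (h ▸ zero_mem _)
    rcases hg' with rfl | ⟨d, hd, hi⟩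
    · rw [map_zero] at ha
      exact absurd ((mul_eq_zero.1 ha.symm).resolve_left D.HN_hb_ne) hy1
    have e1 : (((D.PU (one β)).card : ℤ) - i / 2).toNat = d := by omega
    rw [e1] at h2
    have h3 := congrArg (MvPolynomial.homogeneousComponent d) ha
    rw [homogeneousComponent_Alt, MvPolynomial.homogeneousComponent_eq_self hd, ha,
      HN_comp_mul D.HN_hb_hom] at h3
    split_ifs at h3 with hN
    swap
    · exact absurd ((mul_eq_zero.1 h3).resolve_left D.HN_hb_ne) hy1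
    have h4 : y.IsHomogeneous (d - Fintype.card β) := by
      rw [mul_left_cancel₀ D.HN_hb_ne h3]
      exact MvPolynomial.homogeneousComponent_isHomogeneous _ _
    obtain ⟨h, hh, h5, h6⟩ := D.gen_delta hk hg hkr hSP hLOW hy h4
    rcases h5 with rfl | ⟨m, hm, hdm⟩
    · rw [zero_mul, sub_zero] at h6
      exact absurd h6 hy0
    have hh' : s⁻¹ • h ∈ Rinv D.lab0 := Subalgebra.smul_mem _ hh _
    have hm' : (s⁻¹ • h).IsHomogeneous m := by
      rw [MvPolynomial.smul_eq_C_mul]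
      exact hm.C_mul _
    have e2 : m + (3 * npos D.lab0 + Fintype.card β) = d := by omega
    have h7 := key2 n _ hh' m hm'
    have h8 := hm'.mul D.HNc_p_hom
    rw [e2] at h7 h8
    refine ⟨_, hh', Or.inr ⟨m, hm', by omega⟩, ?_⟩
    rw [key1 n _ hh', ← sub_eq_zero, ← LinearMap.sub_comp]
    refine (h2 _ (hd.sub h8) _ (EDeg.sub (by rwa [hi, ← add_sub_assoc] at he) h7) ?_).2
      ⟨_, h6, ?_⟩
    · have h9 := D.HN_aU_sub (one β) 1 g (s⁻¹ • h * D.HNc_p) n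
      rw [one_smul, one_smul] at h9
      rw [h9, ← hp, ← D.HNc_push hh' n]
      exact LinearMap.sub_comp _ _ _
    · rw [map_sub, ha, hAlt _ hh', smul_mul_assoc, smul_smul, mul_inv_cancel₀ hs, one_smul, mul_sub]
  · filter_upwards [H.ker (d + (3 * npos D.lab0 + Fintype.card β))] with n h1 h hh hd
    rw [key1 n h hh, h1 _ (hd.mul D.HNc_p_hom) _ (key2 n h hh d hd) (D.HNc_push hh n), hAlt h hh]
    constructor
    · rintro ⟨y, hy, h2⟩
      rw [← mul_left_cancel₀ D.HN_hb_ne h2] at hy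
      have h3 := Submodule.smul_of_tower_mem _ s⁻¹ hy
      rw [smul_smul, inv_mul_cancel₀ hs, one_smul] at h3
      exact ⟨hh, h3⟩
    · exact fun h2 => ⟨_, Submodule.smul_of_tower_mem _ s h2.2, rfl⟩

end HD

end Pool.Agent.HK
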