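import Pool.Agent.P.MP_1206ce_ag.HG.Basic

/-! Graded subspaces and stability conditions. -/

open scoped Topology
open Filter Set

set_option linter.unusedSectionVars false

noncomputable section

namespace Pool.Agent.HK

namespace HD

variable {β I Ar τ Λ Λ' : Type} [Fintype β] [DecidableEq β] [Fintype I] [DecidableEq I] [Fintype Ar]
  [DecidableEq Ar] [Fintype τ] [DecidableEq τ] [DecidableEq Λ] [DecidableEq Λ'] (D : HD β I Ar τ)

/-- Keep the coordinates with the property `c`. -/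
def Stab_cut (c : β → Prop) [DecidablePred c] : (β → ℂ) →ₗ[ℂ] (β → ℂ) where
  toFun z := fun k => if c k then z k else 0
  map_add' z w := by
    funext k
    by_cases h : c k <;> simp [h]
  map_smul' a z := by
    funext k
    by_cases h : c k <;> simp [h]

theorem Stab_cut_apply (c : β → Prop) [DecidablePred c] (z : β → ℂ) (k : β) :
    Stab_cut c z k = if c k then z k else 0 := rfl

theorem Stab_cut_self {c : β → Prop} [DecidablePred c] {z : β → ℂ} (h : ∀ k, ¬ c k → z k = 0) :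
    Stab_cut c z = z := by
  funext k
  rw [Stab_cut_apply]
  split_ifs with hk
  · rfl
  · exact (h k hk).symm

theorem Stab_cut_zero {c : β → Prop} [DecidablePred c] {z : β → ℂ} (h : ∀ k, c k → z k = 0) :
    Stab_cut c z = 0 := by
  funext k
  rw [Stab_cut_apply]
  split_ifs with hk
  · exact h k hk
  · rfl

theorem Stab_mem_Vi {i : I} {z : β → ℂ} : z ∈ D.Vi i ↔ ∀ k, D.v k ≠ i → z k = 0 := Iff.rfl

theorem Stab_mem_Vq {q : Finset β} {z : β → ℂ} : z ∈ Vq q ↔ ∀ k, k ∉ q → z k = 0 := Iff.rfl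

theorem Stab_Vq_mono {q q' : Finset β} (h : q ⊆ q') : Vq q ≤ Vq q' :=
  fun _ hz k hk => hz k fun h1 => hk (h h1)

theorem Stab_finrank_Vq (q : Finset β) : Module.finrank ℂ (Vq q) = q.card := by
  let e : Vq q ≃ₗ[ℂ] (q → ℂ) :=
    { toFun := fun z k => z.1 k
      map_add' := fun _ _ => rfl
      map_smul' := fun _ _ => rfl
      invFun := fun w => ⟨fun k => if h : k ∈ q then w ⟨k, h⟩ else 0, fun k hk => dif_neg hk⟩
      left_inv := fun z => Subtype.ext (funext fun k => by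
        by_cases h : k ∈ q
        · exact dif_pos h
        · exact (dif_neg h).trans (z.2 k h).symm)
      right_inv := fun w => funext fun k => dif_pos k.2 }
  rw [e.finrank_eq, Module.finrank_fintype_fun_eq_card, Fintype.card_coe]

theorem Stab_rank (T : Submodule ℂ (β → ℂ)) (f : (β → ℂ) →ₗ[ℂ] (β → ℂ)) :
    Module.finrank ℂ T =
      Module.finrank ℂ ↥(T ⊓ LinearMap.ker f) + Module.finrank ℂ (T.map f) := by
  have h := LinearMap.finrank_range_add_finrank_ker (f.domRestrict T)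
  rw [LinearMap.range_domRestrict, LinearMap.ker_domRestrict,
    ← Submodule.finrank_map_subtype_eq, Submodule.map_comap_subtype] at h
  omega

theorem gr_iff {S : Submodule ℂ (β → ℂ)} :
    D.Gr S ↔ ∀ z ∈ S, ∀ i, (fun k => if D.v k = i then z k else 0) ∈ S := by
  refine ⟨fun h z hz i => ?_, fun h => le_antisymm (fun z hz => ?_) (iSup_le fun _ => inf_le_left)⟩
  · have h1 : (⨆ j, S ⊓ D.Vi j) ≤ S.comap (Stab_cut fun k => D.v k = i) := by
      refine iSup_le fun j y hy => ?_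
      by_cases e : j = i
      · rw [Submodule.mem_comap, Stab_cut_self fun k hk => D.Stab_mem_Vi.1 hy.2 k (e ▸ hk)]
        exact hy.1
      · rw [Submodule.mem_comap, Stab_cut_zero (c := fun k => D.v k = i) fun k hk =>
          D.Stab_mem_Vi.1 hy.2 k fun h2 => e (h2.symm.trans hk)]
        exact zero_mem _
    exact h1 (h.le hz)
  · have h1 : z = ∑ i, fun k => if D.v k = i then z k else 0 := by
      funext k
      simp [Finset.sum_apply]
    rw [h1]
    exact sum_mem fun i _ => Submodule.mem_iSup_of_mem i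
      ⟨h z hz i, D.Stab_mem_Vi.2 fun k hk => if_neg hk⟩
theorem gr_bot : D.Gr ⊥ := D.gr_iff.2 fun z hz i => by
  rw [Submodule.mem_bot] at hz ⊢
  exact Stab_cut_zero fun k _ => congrFun hz k
theorem gr_Vq (q : Finset β) : D.Gr (Vq q) := D.gr_iff.2 fun z hz i =>
  Stab_mem_Vq.2 fun k hk => by rw [Stab_mem_Vq.1 hz k hk, ite_self]
theorem Gr.inf {D : HD β I Ar τ} {S S' : Submodule ℂ (β → ℂ)} (h : D.Gr S) (h' : D.Gr S') :
    D.Gr (S ⊓ S') :=
  D.gr_iff.2 fun z hz i => ⟨D.gr_iff.1 h z hz.1 i, D.gr_iff.1 h' z hz.2 i⟩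
theorem Gr.sup {D : HD β I Ar τ} {S S' : Submodule ℂ (β → ℂ)} (h : D.Gr S) (h' : D.Gr S') :
    D.Gr (S ⊔ S') := D.gr_iff.2 fun z hz i => by
  obtain ⟨a, ha, b, hb, rfl⟩ := Submodule.mem_sup.1 hz
  have e := (Stab_cut fun k => D.v k = i).map_add a b
  exact Submodule.mem_sup.2 ⟨_, D.gr_iff.1 h a ha i, _, D.gr_iff.1 h' b hb i, e.symm⟩
theorem Vq_univ : (Vq Finset.univ : Submodule ℂ (β → ℂ)) = ⊤ :=
  eq_top_iff.2 fun _ _ k hk => absurd (Finset.mem_univ k) hk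
theorem dimS_Vq (q : Finset β) : D.dimS (Vq q) = D.dimv q := by
  funext i
  have e : Vq q ⊓ D.Vi i = Vq (q.filter fun k => D.v k = i) := by
    ext z
    simp only [Submodule.mem_inf, Stab_mem_Vq, Stab_mem_Vi, Finset.mem_filter, not_and_or]
    exact ⟨fun h k hk => hk.elim (h.1 k) (h.2 k),
      fun h => ⟨fun k hk => h k (Or.inl hk), fun k hk => h k (Or.inr hk)⟩⟩
  rw [dimS, e, Stab_finrank_Vq, dimv]
theorem dimS_bot : D.dimS ⊥ = 0 := by
  funext i
  rw [dimS, bot_inf_eq, finrank_bot]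
  rfl
theorem dimS_mono {S S' : Submodule ℂ (β → ℂ)} (h : S ≤ S') : D.dimS S ≤ D.dimS S' :=
  fun _ => Submodule.finrank_mono (inf_le_inf_right _ h)
theorem dimS_le_dimv {S : Submodule ℂ (β → ℂ)} {p : Finset β} (h : S ≤ Vq p) :
    D.dimS S ≤ D.dimv p := D.dimS_Vq p ▸ D.dimS_mono h
theorem Gr.eq_of_dimS {D : HD β I Ar τ} {S S' : Submodule ℂ (β → ℂ)} (h : D.Gr S) (h' : D.Gr S')
    (hle : S ≤ S') (he : D.dimS S = D.dimS S') : S = S' :=
  h.trans ((iSup_congr fun i => Submodule.eq_of_le_of_finrank_eq (inf_le_inf_right _ hle)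
    (congrFun he i)).trans h'.symm)
theorem Gr.Stab_inf {D : HD β I Ar τ} {S : Submodule ℂ (β → ℂ)} (h : D.Gr S) (i : I) :
    S ⊓ D.Vi i = S.map (Stab_cut fun k => D.v k = i) := by
  refine le_antisymm (fun z hz => ⟨z, hz.1, Stab_cut_self (D.Stab_mem_Vi.1 hz.2)⟩) ?_
  rintro _ ⟨z, hz, rfl⟩
  exact ⟨D.gr_iff.1 h z hz i, D.Stab_mem_Vi.2 fun k hk => if_neg hk⟩

theorem Gr.dimS_sup_add_inf {D : HD β I Ar τ} {S S' : Submodule ℂ (β → ℂ)} (h : D.Gr S)
    (h' : D.Gr S') : D.dimS (S ⊔ S') + D.dimS (S ⊓ S') = D.dimS S + D.dimS S' := by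
  funext i
  have e : (S ⊔ S') ⊓ D.Vi i = (S ⊓ D.Vi i) ⊔ (S' ⊓ D.Vi i) := by
    rw [h.Stab_inf, h'.Stab_inf, (h.sup h').Stab_inf, Submodule.map_sup]
  have e' : (S ⊓ S') ⊓ D.Vi i = (S ⊓ D.Vi i) ⊓ (S' ⊓ D.Vi i) := inf_inf_distrib_right _ _ _
  rw [Pi.add_apply, Pi.add_apply, dimS, dimS, dimS, dimS, e, e']
  exact Submodule.finrank_sup_add_finrank_inf_eq _ _
theorem Gr.Stab_comap {D : HD β I Ar τ} {S : Submodule ℂ (β → ℂ)} (h : D.Gr S)
    {f : (β → ℂ) →ₗ[ℂ] (β → ℂ)} (hf : ∀ i z, Stab_cut (fun k => D.v k = i) (f z) =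
      f (Stab_cut (fun k => D.v k = i) z)) : D.Gr (S.comap f) := D.gr_iff.2 fun z hz i => by
  have h1 : Stab_cut (fun k => D.v k = i) (f z) ∈ S := D.gr_iff.1 h _ hz i
  rw [hf] at h1
  exact h1

theorem Gr.Stab_map {D : HD β I Ar τ} {S : Submodule ℂ (β → ℂ)} (h : D.Gr S)
    {f : (β → ℂ) →ₗ[ℂ] (β → ℂ)} (hf : ∀ i z, Stab_cut (fun k => D.v k = i) (f z) =
      f (Stab_cut (fun k => D.v k = i) z)) :
    D.Gr (S.map f) ∧ D.Gr (S ⊓ LinearMap.ker f) ∧
      D.dimS S = D.dimS (S ⊓ LinearMap.ker f) + D.dimS (S.map f) := by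
  have h1 : D.Gr (S.map f) := D.gr_iff.2 fun _ ⟨z, hz, e⟩ i =>
    ⟨_, D.gr_iff.1 h z hz i, e ▸ (hf i z).symm⟩
  refine ⟨h1, h.inf (D.gr_bot.Stab_comap hf), funext fun i => ?_⟩
  have e : S.map f ⊓ D.Vi i = (S ⊓ D.Vi i).map f := by
    rw [h1.Stab_inf, h.Stab_inf, ← Submodule.map_comp, ← Submodule.map_comp]
    congr 1
    exact LinearMap.ext (hf i)
  rw [Pi.add_apply, dimS, dimS, dimS, e, inf_right_comm]
  exact Stab_rank _ f

theorem Stab_comm {L : Type} [DecidableEq L] {lab : β → L} {g : Matrix β β ℂ}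
    (hg : ∀ k l, g k l ≠ 0 → lab k = lab l) (i : L) (z : β → ℂ) :
    Stab_cut (fun k => lab k = i) (g.mulVecLin z) =
      g.mulVecLin (Stab_cut (fun k => lab k = i) z) := by
  funext k
  simp only [Stab_cut_apply, Matrix.mulVecLin_apply, Matrix.mulVec, dotProduct]
  have h1 : ∀ l, g k l * (if lab l = i then z l else 0) =
      if lab k = i then g k l * z l else 0 := fun l => by
    by_cases h : g k l = 0
    · simp [h]
    · rw [hg k l h, mul_ite, mul_zero]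
  simp only [h1]
  split_ifs <;> simp

/-- Images and kernels of block diagonal matrices. -/
theorem Gr.map {D : HD β I Ar τ} {S : Submodule ℂ (β → ℂ)} (h : D.Gr S) {g : Matrix β β ℂ}
    (hg : ∀ k l, g k l ≠ 0 → D.v k = D.v l) :
    D.Gr (S.map g.mulVecLin) ∧ D.Gr (S ⊓ LinearMap.ker g.mulVecLin) ∧
      D.dimS S = D.dimS (S ⊓ LinearMap.ker g.mulVecLin) + D.dimS (S.map g.mulVecLin) :=
  h.Stab_map (Stab_comm hg)
theorem Gr.comap {D : HD β I Ar τ} {S : Submodule ℂ (β → ℂ)} (h : D.Gr S) {g : Matrix β β ℂ}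
    (hg : ∀ k l, g k l ≠ 0 → D.v k = D.v l) : D.Gr (S.comap g.mulVecLin) :=
  h.Stab_comap (Stab_comm hg)
theorem Stab_inv {g : Matrix β β ℂ} (hg : g ∈ Matrix.unitaryGroup β ℂ) (z : β → ℂ) :
    (star g).mulVec (g.mulVec z) = z := by
  rw [Matrix.mulVec_mulVec, Matrix.mem_unitaryGroup_iff'.1 hg, Matrix.one_mulVec]

theorem Stab_map_unit {g : Matrix β β ℂ} (hg : g ∈ Matrix.unitaryGroup β ℂ)
    (hb : ∀ k l, g k l ≠ 0 → D.v k = D.v l) {S : Submodule ℂ (β → ℂ)} (hS : D.Gr S) :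
    D.Gr (S.map g.mulVecLin) ∧ D.dimS (S.map g.mulVecLin) = D.dimS S := by
  obtain ⟨h1, -, h2⟩ := hS.map hb
  have h3 : LinearMap.ker g.mulVecLin = ⊥ := LinearMap.ker_eq_bot'.2 fun z hz => by
    rw [← Stab_inv hg z, show g.mulVec z = 0 from hz, Matrix.mulVec_zero]
  rw [h3, inf_bot_eq, dimS_bot, zero_add] at h2
  exact ⟨h1, h2.symm⟩

theorem Stab_map_map {g : Matrix β β ℂ} (hg : g ∈ Matrix.unitaryGroup β ℂ)
    (S : Submodule ℂ (β → ℂ)) : (S.map g.mulVecLin).map (star g).mulVecLin = S := by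
  rw [← Submodule.map_comp, ← Matrix.mulVecLin_mul, Matrix.mem_unitaryGroup_iff'.1 hg,
    Matrix.mulVecLin_one, Submodule.map_id]

/-- Transport by the group. -/
theorem map_gau {u : Matrix (β ⊕ τ) (β ⊕ τ) ℂ} (hu : u ∈ D.K (one β)) {S : Submodule ℂ (β → ℂ)}
    (hS : D.Gr S) : D.Gr (S.map (gau u).mulVecLin) ∧ D.dimS (S.map (gau u).mulVecLin) = D.dimS S ∧
      ∀ (x : UU β Ar) γ, (∀ z ∈ S, (x γ).mulVec z ∈ S) ↔
        ∀ z ∈ S.map (gau u).mulVecLin, (D.act u x γ).mulVec z ∈ S.map (gau u).mulVecLin := by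
  have hg := D.gau_unitary hu
  obtain ⟨h1, h2⟩ := D.Stab_map_unit hg (fun k l h => (D.gau_block hu h).1) hS
  refine ⟨h1, h2, fun x γ => ?_⟩
  have hc : chr (Sum.elim 0 (D.w3 γ)) u ≠ 0 := by
    rw [← norm_ne_zero_iff, D.norm_chr_w3 hu]
    exact one_ne_zero
  have e : ∀ z, (D.act u x γ).mulVec ((gau u).mulVec z) =
      (gau u).mulVec (chr (Sum.elim 0 (D.w3 γ)) u • (x γ).mulVec z) := fun z => by
    rw [act, Matrix.smul_mulVec, ← Matrix.mulVec_mulVec, Stab_inv hg, ← Matrix.mulVec_mulVec,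
      Matrix.mulVec_smul]
  constructor
  · rintro h _ ⟨z, hz, rfl⟩
    exact ⟨_, S.smul_mem _ (h z hz), (e z).symm⟩
  · intro h z hz
    obtain ⟨w, hw, h3⟩ := h _ ⟨z, hz, rfl⟩
    have h4 := congrArg (star (gau u)).mulVec (h3.trans (e z))
    rw [Matrix.mulVecLin_apply, Stab_inv hg, Stab_inv hg] at h4
    exact (S.smul_mem_iff hc).1 (h4 ▸ hw)
theorem Stab_mulVec_mem {g : Matrix β β ℂ} {p q : Finset β} (h : ∀ k ∉ q, ∀ l ∈ p, g k l = 0)
    {z : β → ℂ} (hz : z ∈ Vq p) : g.mulVec z ∈ Vq q := Stab_mem_Vq.2 fun k hk =>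
  Finset.sum_eq_zero fun l _ => by
    by_cases hl : l ∈ p
    · exact mul_eq_zero_of_left (h k hk l hl) _
    · exact mul_eq_zero_of_right _ (Stab_mem_Vq.1 hz l hl)

theorem Stab_slot {sl : β → Λ} {p : Finset β} (hp : IsSlot sl p) {k l : β} (hl : l ∈ p) :
    k ∈ p ↔ sl k = sl l := by
  obtain ⟨j, rfl⟩ := hp
  simp only [Finset.mem_filter, Finset.mem_univ, true_and] at hl ⊢
  rw [hl]

theorem map_gau_slot {sl : β → Λ} {p : Finset β} (hp : IsSlot sl p)
    {u : Matrix (β ⊕ τ) (β ⊕ τ) ℂ} (hu : u ∈ D.K sl) : (Vq p).map (gau u).mulVecLin = Vq p := by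
  obtain ⟨h1, h2, -⟩ := D.map_gau (D.K_subset sl hu) (D.gr_Vq p)
  refine h1.eq_of_dimS (D.gr_Vq p) ?_ h2
  rintro _ ⟨z, hz, rfl⟩
  refine Stab_mulVec_mem (fun k hk l hl => by_contra fun h => hk ?_) hz
  exact (Stab_slot hp hl).2 (D.gau_block hu h).2
theorem Stab_on (W : Submodule ℂ (EuclideanSpace ℂ β)) (B : Finset β)
    (h : Module.finrank ℂ W = B.card) : ∃ f : β → EuclideanSpace ℂ β, (∀ k ∈ B, f k ∈ W) ∧
      ∀ k ∈ B, ∀ l ∈ B, inner ℂ (f k) (f l) = if k = l then 1 else 0 := by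
  let b := stdOrthonormalBasis ℂ W
  let φ : B ≃ Fin (Module.finrank ℂ W) :=
    Fintype.equivFinOfCardEq (by rw [h, Fintype.card_coe])
  refine ⟨fun k => if hk : k ∈ B then (b (φ ⟨k, hk⟩) : EuclideanSpace ℂ β) else 0,
    fun k hk => ?_, fun k hk l hl => ?_⟩
  · simp only [dif_pos hk]
    exact Subtype.property _
  · simp only [dif_pos hk, dif_pos hl]
    rw [← Submodule.coe_inner, orthonormal_iff_ite.1 b.orthonormal]
    simp

theorem Stab_basis {L : Type} [DecidableEq L] (lab : β → L) (q : Finset β)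
    (T : L → Submodule ℂ (β → ℂ)) (hT : ∀ j, T j ≤ Vq (Finset.univ.filter fun k => lab k = j))
    (hd : ∀ j, Module.finrank ℂ (T j) = (q.filter fun k => lab k = j).card) :
    ∃ g ∈ Matrix.unitaryGroup β ℂ, (∀ k l, g k l ≠ 0 → lab k = lab l) ∧
      ∀ l ∈ q, (fun k => g k l) ∈ T (lab l) := by
  let e := (WithLp.linearEquiv 2 ℂ (β → ℂ)).symm
  let T' : L → Submodule ℂ (EuclideanSpace ℂ β) := fun j => (T j).map e.toLinearMap
  let U' : L → Submodule ℂ (EuclideanSpace ℂ β) := fun j =>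
    (Vq (Finset.univ.filter fun k => lab k = j)).map e.toLinearMap
  have hTU : ∀ j, T' j ≤ U' j := fun j => Submodule.map_mono (hT j)
  have h1 : ∀ j, Module.finrank ℂ (T' j) = (q.filter fun k => lab k = j).card := fun j =>
    (e.finrank_map_eq _).trans (hd j)
  have h2 : ∀ j, Module.finrank ℂ ↥((T' j)ᗮ ⊓ U' j) = (qᶜ.filter fun k => lab k = j).card := by
    intro j
    have h3 := Submodule.finrank_add_inf_finrank_orthogonal (hTU j)
    have h4 : Module.finrank ℂ (U' j) = (Finset.univ.filter fun k => lab k = j).card :=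
      (e.finrank_map_eq _).trans (Stab_finrank_Vq _)
    rw [h1, h4, ← Finset.union_compl q, Finset.filter_union, Finset.card_union_of_disjoint
      (Finset.disjoint_filter_filter disjoint_compl_right)] at h3
    omega
  choose f1 m1 o1 using fun j => Stab_on _ _ (h1 j)
  choose f2 m2 o2 using fun j => Stab_on _ _ (h2 j)
  let b : β → EuclideanSpace ℂ β := fun k => if k ∈ q then f1 (lab k) k else f2 (lab k) k
  have b1 : ∀ k ∈ q, b k ∈ T' (lab k) := fun k hk => by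
    simp only [b, if_pos hk]
    exact m1 _ _ (Finset.mem_filter.2 ⟨hk, rfl⟩)
  have b2 : ∀ k ∉ q, b k ∈ (T' (lab k))ᗮ ⊓ U' (lab k) := fun k hk => by
    simp only [b, if_neg hk]
    exact m2 _ _ (Finset.mem_filter.2 ⟨Finset.mem_compl.2 hk, rfl⟩)
  have b3 : ∀ l k, b l k ≠ 0 → lab k = lab l := fun l k h => by
    have h3 : b l ∈ U' (lab l) := by
      by_cases hl : l ∈ q
      · exact hTU _ (b1 l hl)
      · exact (b2 l hl).2
    obtain ⟨z, hz, h4⟩ := h3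
    by_contra h5
    exact h (h4 ▸ Stab_mem_Vq.1 hz k (by simpa using h5))
  refine ⟨Matrix.of fun k l => b l k, Matrix.mem_unitaryGroup_iff'.2 ?_, fun k l => b3 l k,
    fun l hl => ?_⟩
  · ext k l
    have h3 : (star (Matrix.of fun k l => b l k) * Matrix.of fun k l => b l k) k l =
        inner ℂ (b k) (b l) := by
      simp [Matrix.mul_apply, PiLp.inner_apply, mul_comm]
    rw [h3, Matrix.one_apply]
    by_cases h : lab k = lab l
    · by_cases hk : k ∈ q <;> by_cases hl : l ∈ q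
      · simp only [b, if_pos hk, if_pos hl, h]
        exact o1 _ _ (Finset.mem_filter.2 ⟨hk, h⟩) _ (Finset.mem_filter.2 ⟨hl, rfl⟩)
      · rw [if_neg fun h4 : k = l => hl (h4 ▸ hk)]
        exact Submodule.inner_right_of_mem_orthogonal (h ▸ b1 k hk) (b2 l hl).1
      · rw [if_neg fun h4 : k = l => hk (h4 ▸ hl)]
        exact Submodule.inner_left_of_mem_orthogonal (h ▸ b1 l hl) (b2 k hk).1
      · simp only [b, if_neg hk, if_neg hl, h]
        exact o2 _ _ (Finset.mem_filter.2 ⟨Finset.mem_compl.2 hk, h⟩) _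
          (Finset.mem_filter.2 ⟨Finset.mem_compl.2 hl, rfl⟩)
    · rw [if_neg fun h4 => h (congrArg lab h4), PiLp.inner_apply]
      refine Finset.sum_eq_zero fun m _ => ?_
      by_cases h4 : b k m = 0
      · rw [h4, inner_zero_left]
      · rw [by_contra fun h5 => h ((b3 k m h4).symm.trans (b3 l m h5)), inner_zero_right]
  · obtain ⟨z, hz, h4⟩ := b1 l hl
    have h5 : (fun k => b l k) = z := h4 ▸ rfl
    exact h5 ▸ hz

theorem Stab_star_block {L : Type} {lab : β → L} {g : Matrix β β ℂ}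
    (hb : ∀ k l, g k l ≠ 0 → lab k = lab l) (k l : β) (h : star g k l ≠ 0) : lab k = lab l :=
  (hb l k fun h1 => h (by rw [Matrix.star_apply, h1, star_zero])).symm

/-- Every graded subspace of a slot is conjugate to a coordinate subspace. -/
theorem exists_conj {sl : β → Λ} {p q : Finset β} (hp : IsSlot sl p) (hq : q ⊆ p)
    {S : Submodule ℂ (β → ℂ)} (hS : D.Gr S) (hle : S ≤ Vq p) (hd : D.dimS S = D.dimv q) :
    ∃ u ∈ D.K sl, S.map (gau u).mulVecLin = Vq q ∧ ∀ a, u (Sum.inr a) (Sum.inr a) = 1 := by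
  obtain ⟨g, hg, hb, hc⟩ := Stab_basis (fun k => (D.v k, sl k)) q
    (fun j => S ⊓ Vq (Finset.univ.filter fun k => (D.v k, sl k) = j)) (fun _ => inf_le_right)
    fun j => by
      by_cases hj : ∀ k ∈ p, sl k = j.2
      · have e : S ⊓ Vq (Finset.univ.filter fun k => (D.v k, sl k) = j) = S ⊓ D.Vi j.1 := by
          ext z
          refine and_congr_right fun hz => ⟨fun h k hk => h k ?_, fun h k hk => ?_⟩
          · simpa using fun h1 => hk (congrArg Prod.fst h1)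
          · by_cases hkp : k ∈ p
            · exact h k fun h1 => hk (by simpa using Prod.ext h1 (hj k hkp))
            · exact hle hz k hkp
        rw [e]
        refine (congrFun hd j.1).trans (congrArg _ (Finset.filter_congr fun k hk => ?_))
        exact ⟨fun h => Prod.ext h (hj k (hq hk)), congrArg Prod.fst⟩
      · obtain ⟨l, hl⟩ := not_forall.1 hj
        obtain ⟨hl, hl'⟩ := Classical.not_imp.1 hl
        have h1 : ∀ k ∈ p, (D.v k, sl k) ≠ j := fun k hk h =>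
          hl' (((Stab_slot hp hl).1 hk).symm.trans (congrArg Prod.snd h))
        have e : S ⊓ Vq (Finset.univ.filter fun k => (D.v k, sl k) = j) = ⊥ := by
          refine eq_bot_iff.2 fun z hz => funext fun k => ?_
          by_cases hk : k ∈ p
          · exact hz.2 k (by simpa using h1 k hk)
          · exact hle hz.1 k hk
        rw [e, finrank_bot, Finset.filter_false_of_mem fun k hk => h1 k (hq hk),
          Finset.card_empty]
  obtain ⟨h1, h2⟩ := D.Stab_map_unit hg (fun k l h => congrArg Prod.fst (hb k l h)) (D.gr_Vq q)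
  have h3 : (Vq q).map g.mulVecLin = S := by
    refine h1.eq_of_dimS hS ?_ (by rw [h2, hd, dimS_Vq])
    rintro _ ⟨z, hz, rfl⟩
    have e : g.mulVecLin z = ∑ l, z l • fun k => g k l := by
      funext k
      simp [Matrix.mulVec, dotProduct, Finset.sum_apply, mul_comm]
    rw [e]
    refine sum_mem fun l _ => ?_
    by_cases hl : l ∈ q
    · exact S.smul_mem _ (hc l hl).1
    · rw [Stab_mem_Vq.1 hz l hl, zero_smul]
      exact zero_mem _
  obtain ⟨h4, h5, -⟩ := D.fromBlocks_mem_K (sl := sl) (Unitary.star_mem hg)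
    fun k l h => Prod.ext_iff.1 (Stab_star_block hb k l h)
  refine ⟨_, h4, ?_, fun a => by simp⟩
  rw [h5, ← h3, Stab_map_map hg]
theorem Stab_entry {g : Matrix β β ℂ} {q : Finset β} (h : (Vq q).map g.mulVecLin ≤ Vq q) {k l : β}
    (hk : k ∉ q) (hl : l ∈ q) : g k l = 0 := by
  have h1 : (Pi.single l 1 : β → ℂ) ∈ Vq q :=
    Stab_mem_Vq.2 fun m hm => Pi.single_eq_of_ne (fun e : m = l => hm (e ▸ hl)) _
  simpa using Stab_mem_Vq.1 (h ⟨_, h1, rfl⟩) k hk

theorem Stab_isSlot (q : Finset β) : IsSlot (fun k => decide (k ∈ q)) q := ⟨true, by simp⟩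

/-- The stabiliser of a coordinate subspace. -/
theorem mem_K_spl {sl : β → Λ} {q : Finset β} {u : Matrix (β ⊕ τ) (β ⊕ τ) ℂ} (hu : u ∈ D.K sl) :
    u ∈ D.K (spl sl q) ↔ (Vq q).map (gau u).mulVecLin = Vq q := by
  refine ⟨fun h => D.map_gau_slot (Stab_isSlot q)
    (D.K_mono (fun k l e => congrArg Prod.snd e) h), fun h => ⟨hu.1, ?_⟩⟩
  have h' : (Vq q).map (star (gau u)).mulVecLin = Vq q := by
    conv_lhs => rw [← h]
    exact Stab_map_map (D.gau_unitary (D.K_subset sl hu)) _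
  rintro (k | a) (l | b) hkl
  · by_contra h1
    obtain ⟨h2, h3⟩ := D.gau_block hu (k := k) (l := l) h1
    refine hkl (congrArg Sum.inl (Prod.ext h2 (Prod.ext h3 (decide_eq_decide.2
      ⟨fun hk => by_contra fun hl => h1 ?_, fun hl => by_contra fun hk => h1 ?_⟩))))
    · exact star_eq_zero.1 (Stab_entry h'.le hl hk)
    · exact Stab_entry h.le hk hl
  · exact hu.2 _ _ Sum.inl_ne_inr
  · exact hu.2 _ _ Sum.inr_ne_inl
  · exact hu.2 _ _ fun e => hkl (congrArg Sum.inr (Sum.inr.inj e))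
theorem Stab_PP {sl : β → Λ} {q : Finset β} {x : UU β Ar} (hx : x ∈ LinS co (D.PP sl q))
    (γ : Gam Ar) (l k : β) :
    (trunc (D.PU (spl sl q)) x γ l k = if (l ∈ q ↔ k ∈ q) then x γ l k else 0) ∧
      (x γ l k ≠ 0 → sl l = sl k ∧ (k ∈ q → l ∈ q)) := by
  have h1 : x γ l k ≠ 0 → (D.ok γ l k ∧ sl l = sl k) ∧ (k ∈ q → l ∈ q) := fun h => by
    simpa [PP, PU] using (by_contra fun h2 => h (hx (γ, l, k) h2) : (γ, l, k) ∈ D.PP sl q)
  refine ⟨?_, fun h => ⟨(h1 h).1.2, (h1 h).2⟩⟩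
  by_cases h : x γ l k = 0
  · simp [trunc, h]
  · simp [trunc, PU, spl, (h1 h).1.1, (h1 h).1.2]

theorem Stab_trunc_eq {sl : β → Λ} {q r : Finset β} {x : UU β Ar} (hx : x ∈ LinS co (D.PP sl q))
    (γ : Gam Ar) (hr : ∀ k ∈ r, ∀ l, sl l = sl k → l ∈ q → k ∈ q) {z : β → ℂ} (hz : z ∈ Vq r) :
    (trunc (D.PU (spl sl q)) x γ).mulVec z = (x γ).mulVec z := by
  funext l
  refine Finset.sum_congr rfl fun k _ => ?_
  by_cases hk : k ∈ r
  · refine congrArg (· * z k) ((D.Stab_PP hx γ l k).1.trans ?_)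
    by_cases h : x γ l k = 0
    · exact (ite_eq_right_iff.2 fun _ => h).trans h.symm
    · exact if_pos ⟨hr k hk l ((D.Stab_PP hx γ l k).2 h).1, ((D.Stab_PP hx γ l k).2 h).2⟩
  · rw [Stab_mem_Vq.1 hz k hk, mul_zero, mul_zero]

theorem Stab_trunc_cut {sl : β → Λ} {q : Finset β} {x : UU β Ar} (hx : x ∈ LinS co (D.PP sl q))
    (γ : Gam Ar) (z : β → ℂ) :
    (trunc (D.PU (spl sl q)) x γ).mulVec (Stab_cut (fun k => k ∉ q) z) =
      Stab_cut (fun k => k ∉ q) ((x γ).mulVec z) := by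
  funext l
  have h1 : ∀ k, trunc (D.PU (spl sl q)) x γ l k * (if k ∉ q then z k else 0) =
      if l ∉ q then x γ l k * z k else 0 := fun k => by
    rw [(D.Stab_PP hx γ l k).1]
    by_cases h : x γ l k = 0
    · simp [h]
    · have h2 := ((D.Stab_PP hx γ l k).2 h).2
      by_cases hk : k ∈ q <;> by_cases hl : l ∈ q <;> simp_all
  simp only [Stab_cut_apply, Matrix.mulVec, dotProduct, h1]
  split_ifs <;> simp

theorem Stab_ker (q : Finset β) : LinearMap.ker (Stab_cut fun k => k ∉ q) = Vq q := by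
  ext z
  exact ⟨fun h k hk => (if_pos hk).symm.trans (congrFun h k), fun h => Stab_cut_zero h⟩

/-- Splitting an invariant subspace along an invariant coordinate subspace. -/
theorem split_inv {sl : β → Λ} {p q : Finset β} (hp : IsSlot sl p) (hq : q ⊆ p) {x : UU β Ar}
    (hx : x ∈ LinS co (D.PP sl q)) {S : Submodule ℂ (β → ℂ)} (hS : D.Gr S) (hle : S ≤ Vq p) :
    ∃ S₂, D.Gr S₂ ∧ S₂ ≤ Vq (p \ q) ∧ D.dimS S = D.dimS (S ⊓ Vq q) + D.dimS S₂ ∧
      ∀ γ, (∀ z ∈ S, (x γ).mulVec z ∈ S) →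
        (∀ z ∈ S ⊓ Vq q, (trunc (D.PU (spl sl q)) x γ).mulVec z ∈ S ⊓ Vq q) ∧
        ∀ z ∈ S₂, (trunc (D.PU (spl sl q)) x γ).mulVec z ∈ S₂ := by
  obtain ⟨h1, -, h2⟩ := hS.Stab_map (f := Stab_cut fun k => k ∉ q) fun i z => by
    funext k
    simp only [Stab_cut_apply]
    split_ifs <;> rfl
  rw [Stab_ker] at h2
  refine ⟨_, h1, ?_, h2, fun γ h => ⟨fun z hz => ?_, ?_⟩⟩
  · rintro _ ⟨z, hz, rfl⟩ k hk
    by_cases hkq : k ∈ q
    · exact if_neg (not_not.2 hkq)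
    · exact (if_pos hkq).trans (hle hz k fun h => hk (Finset.mem_sdiff.2 ⟨h, hkq⟩))
  · rw [D.Stab_trunc_eq hx γ (fun k hk _ _ _ => hk) hz.2]
    exact ⟨h z hz.1, (D.mem_PP.1 hx).2 γ z hz.2⟩
  · rintro _ ⟨z, hz, rfl⟩
    exact ⟨_, h z hz, (D.Stab_trunc_cut hx γ z).symm⟩
/-- Lifting invariant subspaces from the diagonal part. -/
theorem lift_inv {sl : β → Λ} {p q : Finset β} (hp : IsSlot sl p) (hq : q ⊆ p) {x : UU β Ar}
    (hx : x ∈ LinS co (D.PP sl q)) (γ : Gam Ar) {S : Submodule ℂ (β → ℂ)} :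
    (S ≤ Vq q → ((∀ z ∈ S, (trunc (D.PU (spl sl q)) x γ).mulVec z ∈ S) ↔
      ∀ z ∈ S, (x γ).mulVec z ∈ S)) ∧
    (S ≤ Vq (p \ q) → (∀ z ∈ S, (trunc (D.PU (spl sl q)) x γ).mulVec z ∈ S) →
      ∀ z ∈ Vq q ⊔ S, (x γ).mulVec z ∈ Vq q ⊔ S) ∧
    ∀ p₁, IsSlot sl p₁ → Disjoint p₁ p → S ≤ Vq p₁ →
      ((∀ z ∈ S, (trunc (D.PU (spl sl q)) x γ).mulVec z ∈ S) ↔ ∀ z ∈ S, (x γ).mulVec z ∈ S) := by
  refine ⟨fun hle => forall₂_congr fun z hz => ?_, fun hle h z hz => ?_,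
    fun p₁ h1 h2 hle => forall₂_congr fun z hz => ?_⟩
  · rw [D.Stab_trunc_eq hx γ (fun k hk _ _ _ => hk) (hle hz)]
  · obtain ⟨a, ha, b, hb, rfl⟩ := Submodule.mem_sup.1 hz
    have h1 := D.Stab_trunc_cut hx γ b
    rw [Stab_cut_self fun k hk => Stab_mem_Vq.1 (hle hb) k fun h2 =>
      hk (Finset.mem_sdiff.1 h2).2] at h1
    rw [Matrix.mulVec_add, ← sub_add_cancel ((x γ).mulVec b)
      (Stab_cut (fun k => k ∉ q) ((x γ).mulVec b))]
    refine add_mem (Submodule.mem_sup_left ((D.mem_PP.1 hx).2 γ a ha))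
      (Submodule.add_mem_sup (Stab_mem_Vq.2 fun k hk => ?_) (h1 ▸ h b hb))
    rw [Pi.sub_apply, Stab_cut_apply, if_pos hk, sub_self]
  · rw [D.Stab_trunc_eq hx γ (fun k hk l hl hlq => ?_) (hle hz)]
    exact absurd (hq hlq) (Finset.disjoint_left.1 h2 ((Stab_slot h1 hk).2 hl))
theorem dimS_Vq_sup {p q : Finset β} {S : Submodule ℂ (β → ℂ)} (hS : D.Gr S)
    (hle : S ≤ Vq (p \ q)) : D.dimS (Vq q ⊔ S) = D.dimv q + D.dimS S := by
  have h1 := (D.gr_Vq q).dimS_sup_add_inf hS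
  have h2 : Vq q ⊓ S = ⊥ := eq_bot_iff.2 fun z hz => funext fun k => by
    by_cases hk : k ∈ q
    · exact hle hz.2 k fun h => (Finset.mem_sdiff.1 h).2 hk
    · exact hz.1 k hk
  rwa [h2, dimS_bot, add_zero, dimS_Vq] at h1
theorem Stab_back {sl : β → Λ} {p : Finset β} (hp : IsSlot sl p)
    {u : Matrix (β ⊕ τ) (β ⊕ τ) ℂ} (hu : u ∈ D.K sl) {S : Submodule ℂ (β → ℂ)} (hS : D.Gr S)
    (hle : S ≤ Vq p) : ∃ S', D.Gr S' ∧ S' ≤ Vq p ∧ D.dimS S' = D.dimS S ∧ ∀ (x : UU β Ar) γ,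
      (∀ z ∈ S, (D.act u x γ).mulVec z ∈ S) → ∀ z ∈ S', (x γ).mulVec z ∈ S' := by
  have ha := D.isAct_K sl
  have hs := ha.grp.star u hu
  obtain ⟨h1, h2, h3⟩ := D.map_gau (D.K_subset sl hs) hS
  refine ⟨_, h1, (Submodule.map_mono hle).trans (D.map_gau_slot hp hs).le, h2, fun x γ h => ?_⟩
  have h4 := (h3 _ γ).1 h
  rwa [← ha.mul _ hs u hu, ha.grp.star_mul hu, ha.one] at h4

/-- Compactness of Grassmannians. -/
theorem isClosed_exists_inv (G : Set (Gam Ar)) (p : Finset β) (P : (I → ℕ) → Prop) :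
    IsClosed {x : UU β Ar | ∃ S, D.Gr S ∧ S ≤ Vq p ∧ P (D.dimS S) ∧
      ∀ γ ∈ G, ∀ z ∈ S, (x γ).mulVec z ∈ S} := by
  have hp := Stab_isSlot p
  have ha := D.isAct_K fun k => decide (k ∈ p)
  have : CompactSpace (D.K fun k => decide (k ∈ p)) := isCompact_iff_compactSpace.1 ha.grp.isCompact
  have e : {x : UU β Ar | ∃ S, D.Gr S ∧ S ≤ Vq p ∧ P (D.dimS S) ∧
      ∀ γ ∈ G, ∀ z ∈ S, (x γ).mulVec z ∈ S} = ⋃ q ∈ {q : Finset β | q ⊆ p ∧ P (D.dimv q)},
      Prod.snd '' {y : (D.K fun k => decide (k ∈ p)) × UU β Ar |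
        ∀ γ ∈ G, ∀ z ∈ Vq q, ∀ k ∉ q, (D.act y.1 y.2 γ).mulVec z k = 0} := by
    ext x
    simp only [mem_iUnion, exists_prop]
    constructor
    · rintro ⟨S, h1, h2, h3, h4⟩
      obtain ⟨q, hq, h5⟩ := D.exists_dimv (D.dimS_le_dimv h2)
      obtain ⟨u, hu, h6, -⟩ := D.exists_conj hp hq h1 h2 h5.symm
      refine ⟨q, ⟨hq, h5 ▸ h3⟩, (⟨u, hu⟩, x), fun γ hγ => ?_, rfl⟩
      have h7 := ((D.map_gau (D.K_subset _ hu) h1).2.2 x γ).1 (h4 γ hγ)
      rwa [h6] at h7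
    · rintro ⟨q, ⟨hq, h1⟩, ⟨u, y⟩, h2, rfl⟩
      obtain ⟨S, h3, h4, h5, h6⟩ := D.Stab_back hp u.2 (D.gr_Vq q) (Stab_Vq_mono hq)
      exact ⟨S, h3, h4, by rwa [h5, dimS_Vq], fun γ hγ => h6 y γ (h2 γ hγ)⟩
  rw [e]
  refine (Set.toFinite _).isClosed_biUnion fun q _ => isClosedMap_snd_of_compactSpace _ ?_
  have hc : Continuous fun y : (D.K fun k => decide (k ∈ p)) × UU β Ar => D.act y.1 y.2 :=
    ha.cont.comp_continuous (f := fun y : (D.K fun k => decide (k ∈ p)) × UU β Ar =>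
      ((y.1 : Matrix (β ⊕ τ) (β ⊕ τ) ℂ), y.2)) (by fun_prop) fun y => ⟨y.1.2, mem_univ _⟩
  simp only [Set.ofPred_forall]
  refine isClosed_iInter fun γ => isClosed_iInter fun _ => isClosed_iInter fun z =>
    isClosed_iInter fun _ => isClosed_iInter fun k => isClosed_iInter fun _ =>
    isClosed_eq ?_ continuous_const
  exact (continuous_apply k).comp
    (((continuous_apply γ).comp hc).matrix_mulVec continuous_const)
/-- All graded subspaces of `V_p` that are invariant under the arrows in `G` satisfy `P`. -/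
def Stab_O (G : Set (Gam Ar)) (p : Finset β) (P : (I → ℕ) → Prop) : Set (UU β Ar) :=
  {x | ∀ S, D.Gr S → S ≤ Vq p → (∀ γ ∈ G, ∀ z ∈ S, (x γ).mulVec z ∈ S) → P (D.dimS S)}

theorem Stab_isOpen (G : Set (Gam Ar)) (p : Finset β) (P : (I → ℕ) → Prop) :
    IsOpen (D.Stab_O G p P) := by
  rw [← isClosed_compl_iff]
  convert D.isClosed_exists_inv G p fun d => ¬ P d using 1
  ext x
  simp only [Stab_O, mem_compl_iff, mem_ofPred_eq, not_forall]
  exact ⟨fun ⟨S, h1, h2, h3, h4⟩ => ⟨S, h1, h2, h4, h3⟩,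
    fun ⟨S, h1, h2, h3, h4⟩ => ⟨S, h1, h2, h4, h3⟩⟩

theorem Stab_invX {sl : β → Λ} {p : Finset β} (hp : IsSlot sl p) (G : Set (Gam Ar))
    (P : (I → ℕ) → Prop) : InvX (D.K sl) D.act (D.Stab_O G p P) := by
  intro u hu x hx S h1 h2 h3
  obtain ⟨S', h4, h5, h6, h7⟩ := D.Stab_back hp hu h1 h2
  exact h6 ▸ hx S' h4 h5 fun γ hγ => h7 x γ (h3 γ hγ)

theorem Stab_Ole (key : (I → ℕ) → ℤ) (p : Finset β) (κ : ℤ) :
    D.Ole key p κ = D.Stab_O univ p fun d => key d ≤ κ := by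
  ext x
  simp only [Ole, Stab_O, InvAll, mem_ofPred_eq, mem_univ, true_imp_iff]

theorem Stab_Xs (th : I → ℤ) : D.Xs th =
    D.U (one β) ∩ D.Stab_O (range some) Finset.univ fun d => thd th d ≤ 0 := by
  ext x
  simp only [Xs, Stab_O, InvXi, mem_ofPred_eq, mem_inter_iff, Vq_univ, le_top, true_imp_iff,
    forall_mem_range]

theorem Stab_A1 (th : I → ℤ) : D.A1 th =
    D.Om (one β) ∩ D.Stab_O univ Finset.univ fun d => thd th d ≤ 0 := by
  ext x
  simp only [A1, Stab_O, InvAll, mem_ofPred_eq, mem_inter_iff, Vq_univ, le_top, true_imp_iff,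
    mem_univ]

theorem Stab_univ : IsSlot (one β) Finset.univ := ⟨(), by simp⟩

theorem isOpen_Ole (key : (I → ℕ) → ℤ) (p : Finset β) (κ : ℤ) : IsOpen (D.Ole key p κ) :=
  D.Stab_Ole key p κ ▸ D.Stab_isOpen _ _ _
theorem invX_Ole {sl : β → Λ} {p : Finset β} (hp : IsSlot sl p) (key : (I → ℕ) → ℤ) (κ : ℤ) :
    InvX (D.K sl) D.act (D.Ole key p κ) := D.Stab_Ole key p κ ▸ D.Stab_invX hp _ _
theorem openIn_A (key : (I → ℕ) → ℤ) (sl : β → Λ) (t : Finset (Finset β)) :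
    OpenIn (D.A key sl t) (D.Om sl) :=
  ⟨⋂ p ∈ t, D.Ole key p (D.last key p), isOpen_biInter_finset fun _ _ => D.isOpen_Ole _ _ _,
    Set.ext fun _ => and_congr_right fun _ => mem_iInter₂.symm⟩
theorem invX_A (key : (I → ℕ) → ℤ) {sl : β → Λ} {t : Finset (Finset β)}
    (ht : ∀ p ∈ t, IsSlot sl p) : InvX (D.K sl) D.act (D.A key sl t) := fun u hu x hx =>
  ⟨D.invX_Om sl u hu x hx.1, fun p hp => D.invX_Ole (ht p hp) key _ u hu x (hx.2 p hp)⟩
theorem openIn_Xs (th : I → ℤ) : OpenIn (D.Xs th) (D.U (one β)) :=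
  ⟨_, D.Stab_isOpen _ _ _, D.Stab_Xs th⟩
theorem invX_Xs (th : I → ℤ) : InvX (D.K (one β)) D.act (D.Xs th) := by
  rw [Stab_Xs]
  exact fun u hu x hx => ⟨D.invX_U _ u hu x hx.1, D.Stab_invX Stab_univ _ _ u hu x hx.2⟩
theorem openIn_A1 (th : I → ℤ) : OpenIn (D.A1 th) (D.Om (one β)) :=
  ⟨_, D.Stab_isOpen _ _ _, D.Stab_A1 th⟩
theorem invX_A1 (th : I → ℤ) : InvX (D.K (one β)) D.act (D.A1 th) := by
  rw [Stab_A1]
  exact fun u hu x hx => ⟨D.invX_Om _ u hu x hx.1, D.Stab_invX Stab_univ _ _ u hu x hx.2⟩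
theorem Xs_inter_Om_subset (th : I → ℤ) : D.Xs th ∩ D.Om (one β) ⊆ D.A1 th :=
  fun _ hx => ⟨hx.2, fun S h1 h2 => hx.1.2 S h1 fun γ => h2 (some γ)⟩
theorem A_eq_A1 {th : I → ℤ} {key : (I → ℕ) → ℤ} {k₀ : β} (hk : D.IsKey th key)
    (hg : D.Gen0 th k₀) : D.A key (one β) {Finset.univ} = D.A1 th := by
  have h1 : D.last key Finset.univ = key 0 :=
    max_eq_left ((hk.le_zero_iff le_rfl).2 hg.tot.le)
  ext x
  refine and_congr_right fun _ => ?_
  simp only [Finset.mem_singleton, forall_eq, Ole, mem_ofPred_eq, h1, Vq_univ, le_top,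
    true_imp_iff]
  exact forall₃_congr fun S _ _ => hk.le_zero_iff (D.dimS_le_dimv (le_top.trans Vq_univ.ge))
theorem invX_G0 {th : I → ℤ} {k₀ : β} (hg : D.Gen0 th k₀) :
    InvX (D.K (one β)) D.act (D.U (one β) ∩ G0 k₀) := by
  refine fun u hu x hx => ⟨D.invX_U _ u hu x hx.1, ?_⟩
  have h1 : ∀ l, l ≠ k₀ → gau u k₀ l = 0 := fun l hl =>
    by_contra fun h => hl (hg.single l (D.gau_block hu h).1.symm)
  have h2 : x none k₀ k₀ = 0 := hx.2
  have h3 : (gau u * x none * star (gau u)) k₀ k₀ = 0 := by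
    rw [Matrix.mul_apply]
    refine Finset.sum_eq_zero fun l _ => ?_
    by_cases hl : l = k₀
    · rw [hl, Matrix.mul_apply, Finset.sum_eq_zero, zero_mul]
      intro m _
      by_cases hm : m = k₀
      · rw [hm, h2, mul_zero]
      · rw [h1 m hm, zero_mul]
    · rw [Matrix.star_apply, h1 l hl, star_zero, mul_zero]
  exact (congrArg (_ * ·) h3).trans (mul_zero _)
theorem Om_subset_G0 {th : I → ℤ} {k₀ : β} (hg : D.Gen0 th k₀) : D.Om (one β) ⊆ G0 k₀ := by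
  rintro x ⟨hx, n, hn⟩
  have h1 : ∀ l, l ≠ k₀ → x none k₀ l = 0 := fun l hl => hx (none, k₀, l) (by
    simpa [PU, ok] using fun h => hl (hg.single l h.symm))
  have h2 : ∀ m : ℕ, (x none ^ m) k₀ k₀ = x none k₀ k₀ ^ m := fun m => by
    induction m with
    | zero => simp
    | succ m ih =>
      rw [pow_succ', pow_succ', Matrix.mul_apply, Finset.sum_eq_single k₀, ih]
      · exact fun l _ hl => mul_eq_zero_of_left (h1 l hl) _
      · exact fun h => absurd (Finset.mem_univ _) h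
  exact eq_zero_of_pow_eq_zero ((h2 n).symm.trans (by rw [hn]; rfl))
theorem invX_Z0 (th : I → ℤ) : InvX (D.K (one β)) D.act (D.Z0 th) := by
  refine fun u hu x hx => ⟨D.invX_Xs th u hu x hx.1, ?_, ?_⟩
  · rw [D.mu_act hu, hx.2.1, mul_zero, zero_mul, smul_zero]
  · rw [act, hx.2.2, mul_zero, zero_mul, smul_zero]
theorem lc_Z0 (th : I → ℤ) : LC (D.Z0 th) :=
  ((D.amb.lc _).openIn (D.openIn_Xs th)).closedIn ⟨{x | mu x = 0} ∩ {x | x none = 0},
    (isClosed_eq continuous_mu continuous_const).inter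
      (isClosed_eq (continuous_apply none) continuous_const), rfl⟩

end HD

end Pool.Agent.HK
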